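import Pool.Agent.LibCQ62.BrRun

/-!
Row G3: the roots of the lines and the wiring of the comparator circuit, as circuits.
-/

namespace Pool.Agent.LibCQ62

open Pool.Agent.LibCC Pool.Agent.LibCCQ Finset Relation

variable {L : Type} [DecidableEq L] {m : ℕ}

/-- Nodes: a line at a time. -/
abbrev VN (L : Type) (m : ℕ) : Type := Fin (m + 1) × L

/-- The content of the node `e` comes unchanged from the node `f` one layer before. -/
def stepB (z : LB L m → Bool) (e f : VN L m) : Bool :=
  if h : (f.1 : ℕ) + 1 = e.1 then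
    (fun t : Fin m => (!z (Sum.inr (Sum.inl (t, e.2, Fld.ck))) &&
      !z (Sum.inr (Sum.inl (t, e.2, Fld.act)))) &&
      ((z (Sum.inr (Sum.inl (t, e.2, Fld.swp))) && z (Sum.inl (t, e.2, f.2))) ||
        (!z (Sum.inr (Sum.inl (t, e.2, Fld.swp))) && decide (e.2 = f.2))))
      ⟨f.1, by have := e.1.isLt; omega⟩
  else false

def matV (z : LB L m → Bool) (p : VN L m × VN L m) : Bool := decide (p.1 = p.2) || stepB z p.1 p.2

/-- The node `f` ends a chain, at the arc `x`. -/
def termB (z : LB L m → Bool) (f : VN L m) : AT L m → Bool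
  | Sum.inl (Sum.inl a) => decide (f = (0, a))
  | Sum.inl (Sum.inr (Sum.inl p)) => decide (f = (p.1.succ, p.2)) &&
      z (Sum.inr (Sum.inl (p.1, p.2, Fld.ck)))
  | Sum.inl (Sum.inr (Sum.inr _)) => false
  | Sum.inr ((t, a), true) => (decide (f = (t.succ, a)) &&
      !z (Sum.inr (Sum.inl (t, f.2, Fld.ck)))) &&
      (z (Sum.inr (Sum.inl (t, f.2, Fld.act))) && z (Sum.inr (Sum.inl (t, f.2, Fld.rol))))
  | Sum.inr ((t, a), false) => ((decide (f.1 = t.succ) &&
      !z (Sum.inr (Sum.inl (t, f.2, Fld.ck)))) &&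
      (z (Sum.inr (Sum.inl (t, f.2, Fld.act))) && !z (Sum.inr (Sum.inl (t, f.2, Fld.rol))))) &&
      z (Sum.inl (t, f.2, a))

/-- The root bits from the reachability matrix. -/
def rtb [Fintype L] (y : LB L m ⊕ (VN L m × VN L m) → Bool) (p : VN L m × AT L m) : Bool :=
  decide (∃ f : VN L m, (y (Sum.inr (p.1, f)) && termB (fun b => y (Sum.inl b)) f p.2) = true)

/-! ### Formulas -/

theorem fd_stepB (e f : VN L m) : FD 5 (fun z => stepB z e f) := by
  unfold stepB
  by_cases h : (f.1 : ℕ) + 1 = e.1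
  · simp only [dif_pos h]
    exact ((FD.var 2 _).neg.and (FD.var 2 _).neg).and
      (((FD.var 2 _).and (FD.var 2 _)).or ((FD.var 1 _).neg.and (FD.const 2 _)))
  · simp only [dif_neg h]
    exact FD.const 5 false

theorem fd_matV (p : VN L m × VN L m) : FD 6 (fun z => matV z p) :=
  (FD.const 5 _).or (fd_stepB p.1 p.2)

theorem fd_termB (f : VN L m) (x : AT L m) : FD 5 (fun z => termB z f x) := by
  rcases x with (a | p | p) | ⟨⟨t, a⟩, c⟩
  · exact FD.const 5 _
  · exact (FD.const 4 _).and (FD.var 4 _)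
  · exact FD.const 5 _
  · cases c
    · exact (((FD.const 2 _).and (FD.var 1 _).neg).and
        ((FD.var 2 _).and (FD.var 1 _).neg)).and (FD.var 4 _)
    · exact ((FD.const 3 _).and (FD.var 2 _).neg).and ((FD.var 3 _).and (FD.var 3 _))

theorem fd_rtb [Fintype L] {j : ℕ} (hj : Fintype.card (VN L m) ≤ 2 ^ j)
    (p : VN L m × AT L m) : FD (6 + j) (fun y => rtb y p) := by
  refine FD.exists (k := 6) j hj (fun (f : VN L m) (y : LB L m ⊕ (VN L m × VN L m) → Bool) =>
    y (Sum.inr (p.1, f)) && termB (fun b => y (Sum.inl b)) f p.2) (fun f => ?_)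
  exact (FD.var 5 _).and (fd_inputs Sum.inl (fd_termB f p.2))

/-! ### Meaning -/

variable {N : LNet L m} {s : L → Bool}

theorem stepB_enc (e f : VN L m) : stepB (N.enc s) e f = true ↔
    ∃ t : Fin m, e.1 = t.succ ∧ f.1 = t.castSucc ∧ (N.cst t e.2).isSome = false ∧
      N.act t e.2 = false ∧ f.2 = N.mv t e.2 := by
  unfold stepB
  constructor
  · intro h
    split_ifs at h with h1
    refine ⟨⟨f.1, by have := e.1.isLt; omega⟩, Fin.ext h1.symm, Fin.ext rfl, ?_⟩
    simp only [LNet.enc, Bool.and_eq_true, Bool.not_eq_true', Bool.or_eq_true,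
      decide_eq_true_eq] at h
    obtain ⟨⟨h2, h3⟩, h4⟩ := h
    refine ⟨h2, h3, ?_⟩
    unfold LNet.mv
    rcases h4 with ⟨h4, h5⟩ | ⟨h4, h5⟩
    · rw [if_pos h4, h5]
    · rw [if_neg (by rw [h4]; simp), h5]
  · rintro ⟨t, h1, h2, h3, h4, h5⟩
    have h6 : (f.1 : ℕ) + 1 = e.1 := by rw [h1, h2]; rfl
    rw [dif_pos h6]
    have h7 : (⟨f.1, by have := e.1.isLt; omega⟩ : Fin m) = t :=
      Fin.ext (congrArg (fun i : Fin (m + 1) => (i : ℕ)) h2)
    simp only [h7, LNet.enc, h3, h4, Bool.not_false, Bool.true_and]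
    unfold LNet.mv at h5
    by_cases h8 : N.swp t e.2 = true
    · rw [if_pos h8] at h5
      simp [h8, h5]
    · rw [if_neg h8] at h5
      have h9 : N.swp t e.2 = false := by
        cases hh : N.swp t e.2
        · rfl
        · exact absurd hh h8
      simp [h9, h5]

theorem root_step {e f : VN L m} (h : stepB (N.enc s) e f = true) :
    N.root e.1 e.2 = N.root f.1 f.2 := by
  obtain ⟨t, h1, h2, h3, h4, h5⟩ := stepB_enc e f |>.1 h
  have h6 : ((e.1 : Fin (m + 1)) : ℕ) = (t : ℕ) + 1 := by rw [h1]; rfl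
  have h7 : ((f.1 : Fin (m + 1)) : ℕ) = (t : ℕ) := by rw [h2]; rfl
  rw [h6, h7, root_succ, if_neg (by rw [h3]; simp), if_neg (by rw [h4]; simp), h5]

theorem root_reach {e f : VN L m}
    (h : ReflTransGen (fun e f => stepB (N.enc s) e f = true) e f) :
    N.root e.1 e.2 = N.root f.1 f.2 := by
  induction h with
  | refl => rfl
  | tail _ h ih => rw [ih, root_step h]

theorem term_root {f : VN L m} {x : AT L m} (h : termB (N.enc s) f x = true) :
    N.root f.1 f.2 = x := by
  rcases x with (a | p | p) | ⟨⟨t, a⟩, c⟩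
  · simp only [termB, decide_eq_true_eq] at h
    rw [h]
    rfl
  · simp only [termB, LNet.enc, Bool.and_eq_true, decide_eq_true_eq] at h
    rw [h.1]
    change N.root ((p.1 : ℕ) + 1) p.2 = _
    rw [root_succ, if_pos h.2]
  · simp [termB] at h
  · cases c
    · simp only [termB, LNet.enc, Bool.and_eq_true, decide_eq_true_eq, Bool.not_eq_true'] at h
      obtain ⟨⟨⟨h1, h2⟩, h3, h4⟩, h5⟩ := h
      rw [h1]
      change N.root ((t : ℕ) + 1) f.2 = _
      rw [root_succ, if_neg (by rw [h2]; simp), if_pos h3, h4]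
      unfold LNet.rep
      rw [h4, if_neg (by simp), h5]
    · simp only [termB, LNet.enc, Bool.and_eq_true, decide_eq_true_eq, Bool.not_eq_true'] at h
      obtain ⟨⟨h1, h2⟩, h3, h4⟩ := h
      subst h1
      simp only at h2 h3 h4
      change N.root ((t : ℕ) + 1) a = _
      rw [root_succ, if_neg (by rw [h2]; simp), if_pos h3, h4]
      unfold LNet.rep
      rw [h4, if_pos rfl]

theorem exists_term (e : VN L m) : ∃ f : VN L m,
    ReflTransGen (fun e f => stepB (N.enc s) e f = true) e f ∧
      termB (N.enc s) f (N.root e.1 e.2) = true := by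
  obtain ⟨⟨k, hk⟩, a⟩ := e
  induction k generalizing a with
  | zero =>
    refine ⟨(⟨0, hk⟩, a), ReflTransGen.refl, ?_⟩
    change termB (N.enc s) _ (Sum.inl (Sum.inl a)) = true
    simp only [termB, decide_eq_true_eq]
    rfl
  | succ k ih =>
    have hkm : k < m := by omega
    set t : Fin m := ⟨k, hkm⟩ with ht
    have hr : N.root ((⟨k + 1, hk⟩ : Fin (m + 1)) : ℕ) a = _ := root_succ N t a
    have hts : (⟨k + 1, hk⟩ : Fin (m + 1)) = t.succ := rfl
    rw [hts]
    by_cases hc : (N.cst t a).isSome = true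
    · refine ⟨(t.succ, a), ReflTransGen.refl, ?_⟩
      change termB (N.enc s) _ (N.root ((t : ℕ) + 1) a) = true
      rw [root_succ, if_pos hc]
      simp [termB, LNet.enc, hc]
    · have hc' : (N.cst t a).isSome = false := by
        cases hh : (N.cst t a).isSome
        · rfl
        · exact absurd hh hc
      by_cases ha : N.act t a = true
      · refine ⟨(t.succ, a), ReflTransGen.refl, ?_⟩
        change termB (N.enc s) _ (N.root ((t : ℕ) + 1) a) = true
        rw [root_succ, if_neg hc, if_pos ha]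
        by_cases hr : N.role t a = true
        · rw [hr]
          unfold LNet.rep
          rw [if_pos hr]
          simp [termB, LNet.enc, hc', ha, hr]
        · have hr' : N.role t a = false := by
            cases hh : N.role t a
            · rfl
            · exact absurd hh hr
          rw [hr']
          unfold LNet.rep
          rw [if_neg hr]
          simp [termB, LNet.enc, hc', ha, hr']
      · have ha' : N.act t a = false := by
          cases hh : N.act t a
          · rfl
          · exact absurd hh ha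
        obtain ⟨f, hf1, hf2⟩ := ih (N.mv t a) (by omega)
        refine ⟨f, ReflTransGen.head ?_ hf1, ?_⟩
        · exact stepB_enc _ _ |>.2 ⟨t, rfl, rfl, hc', ha', rfl⟩
        · change termB (N.enc s) _ (N.root ((t : ℕ) + 1) a) = true
          rw [root_succ, if_neg hc, if_neg ha]
          exact hf2

variable [Fintype L]

theorem rtb_iff {j : ℕ} (hj : Fintype.card (VN L m) ≤ 2 ^ j) (p : VN L m × AT L m) :
    rtb (Sum.elim (N.enc s) (sq^[j] (matV (N.enc s)))) p = true ↔
      N.root p.1.1 p.1.2 = p.2 := by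
  have hM : ∀ e f, matV (N.enc s) (e, f) = true ↔ e = f ∨ stepB (N.enc s) e f = true := by
    intro e f
    unfold matV
    simp
  have hR : ∀ e f : VN L m, stepB (N.enc s) e f = true → m - (e.1 : ℕ) < m - (f.1 : ℕ) := by
    intro e f h
    obtain ⟨t, h1, h2, -⟩ := stepB_enc e f |>.1 h
    have h6 : ((e.1 : Fin (m + 1)) : ℕ) = (t : ℕ) + 1 := by rw [h1]; rfl
    have h7 : ((f.1 : Fin (m + 1)) : ℕ) = (t : ℕ) := by rw [h2]; rfl
    have := t.isLt
    omega
  have key := sq_iterate_iff hM hj (ht := fun e : VN L m => m - (e.1 : ℕ)) hR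
  unfold rtb
  simp only [Sum.elim_inr, Sum.elim_inl, decide_eq_true_eq, Bool.and_eq_true]
  constructor
  · rintro ⟨f, h1, h2⟩
    rw [key] at h1
    rw [root_reach h1]
    exact term_root h2
  · intro h
    obtain ⟨f, h1, h2⟩ := exists_term (N := N) (s := s) p.1
    refine ⟨f, (key _ _).2 h1, ?_⟩
    rw [← h]
    exact h2

end Pool.Agent.LibCQ62
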