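import Pool.Agent.LibCQ62.BrCir

/-!
Row G4: marks of layered networks from marks of comparator circuits.
-/

namespace Pool.Agent.LibCQ62

open Pool.Agent.LibCC Pool.Agent.LibCCQ Finset Relation

variable {L : Type} {m n' m' : ℕ}

/-- The instance bits of the comparator circuit from the instance bits of the layered network
and the root bits. -/
def linkF [DecidableEq L] [Fintype L] (eS : SS L m ≃ Fin n') (eG : (Fin m × L) ≃ Fin m')
    (c : LBit n' m' ⊕ Fin m') (y : LB L m ⊕ (VN L m × AT L m) → Bool) : Bool :=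
  match c with
  | Sum.inl (Sum.inl (p, a)) =>
      let g := eG.symm p.1
      let x := (Equiv.sumCongr eS (Equiv.prodCongr eG (Equiv.refl Bool))).symm a
      ((y (Sum.inl (Sum.inr (Sum.inl (g.1, g.2, Fld.act)))) &&
          y (Sum.inl (Sum.inr (Sum.inl (g.1, g.2, Fld.rol))))) &&
        (if p.2 then y (Sum.inr ((g.1.castSucc, g.2), x)) else
          decide (∃ b : L, (y (Sum.inl (Sum.inl (g.1, g.2, b))) &&
            y (Sum.inr ((g.1.castSucc, b), x))) = true))) ||
      (!(y (Sum.inl (Sum.inr (Sum.inl (g.1, g.2, Fld.act)))) &&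
          y (Sum.inl (Sum.inr (Sum.inl (g.1, g.2, Fld.rol))))) &&
        decide (x = Sum.inl (Sum.inr (Sum.inr (g, p.2)))))
  | Sum.inl (Sum.inr i) => match eS.symm i with
      | Sum.inl a => y (Sum.inl (Sum.inr (Sum.inr a)))
      | Sum.inr (Sum.inl p) => y (Sum.inl (Sum.inr (Sum.inl (p.1, p.2, Fld.cv))))
      | Sum.inr (Sum.inr _) => false
  | Sum.inr g' =>
      let g := eG.symm g'
      y (Sum.inl (Sum.inr (Sum.inl (g.1, g.2, Fld.act)))) &&
        y (Sum.inl (Sum.inr (Sum.inl (g.1, g.2, Fld.rol))))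

/-- The marks of the lines. -/
def outF [Fintype L] (eS : SS L m ≃ Fin n') (eG : (Fin m × L) ≃ Fin m')
    (c : HB L m) (y : (VN L m × AT L m) ⊕ (Bool × Arc n' m') → Bool) : Bool :=
  decide (∃ x : AT L m, (y (Sum.inl ((c.2.1, c.2.2), x)) &&
    y (Sum.inr (c.1, arcE eS eG x))) = true)

theorem fd_linkF [DecidableEq L] [Fintype L] (eS : SS L m ≃ Fin n')
    (eG : (Fin m × L) ≃ Fin m') {j : ℕ} (hj : Fintype.card L ≤ 2 ^ j) (c : LBit n' m' ⊕ Fin m') :
    FD (1 + j + 4) (linkF eS eG c) := by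
  rcases c with (⟨p, a⟩ | i) | g
  · have e1 : 1 + j + 4 = (1 + j + 3) + 1 := by ring
    rw [e1]
    refine FD.or ?_ ?_
    · have e2 : 1 + j + 3 = (1 + j + 2) + 1 := by ring
      rw [e2]
      refine FD.and ?_ ?_
      · have e3 : 1 + j + 2 = (1 + j + 1) + 1 := by ring
        rw [e3]
        exact (FD.var _ _).and (FD.var _ _)
      · cases h : p.2
        · simp only [Bool.false_eq_true, if_false]
          exact (FD.exists (k := 1) j hj
            (fun (b : L) (y : LB L m ⊕ (VN L m × AT L m) → Bool) =>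
              y (Sum.inl (Sum.inl ((eG.symm p.1).1, (eG.symm p.1).2, b))) &&
              y (Sum.inr (((eG.symm p.1).1.castSucc, b),
                (Equiv.sumCongr eS (Equiv.prodCongr eG (Equiv.refl Bool))).symm a)))
            (fun b => (FD.var 0 _).and (FD.var 0 _))).mono (by omega)
        · simp only [if_true]
          exact FD.var _ _
    · have e2 : 1 + j + 3 = (1 + j + 2) + 1 := by ring
      rw [e2]
      refine FD.and ?_ (FD.const _ _)
      have e3 : 1 + j + 2 = (1 + j + 1) + 1 := by ring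
      rw [e3]
      refine FD.neg ?_
      have e4 : 1 + j + 1 = (1 + j) + 1 := by ring
      rw [e4]
      exact (FD.var _ _).and (FD.var _ _)
  · unfold linkF
    rcases h : eS.symm i with a | p | p
    · simp only [h]
      exact FD.var _ _
    · simp only [h]
      exact FD.var _ _
    · simp only [h]
      exact FD.const _ _
  · have e4 : 1 + j + 4 = (1 + j + 3) + 1 := by ring
    rw [e4]
    exact (FD.var _ _).and (FD.var _ _)

theorem fd_outF [Fintype L] (eS : SS L m ≃ Fin n') (eG : (Fin m × L) ≃ Fin m') {j : ℕ}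
    (hj : Fintype.card (AT L m) ≤ 2 ^ j) (c : HB L m) : FD (1 + j) (outF eS eG c) :=
  FD.exists (k := 1) j hj (fun (x : AT L m)
    (y : (VN L m × AT L m) ⊕ (Bool × Arc n' m') → Bool) =>
      y (Sum.inl ((c.2.1, c.2.2), x)) && y (Sum.inr (c.1, arcE eS eG x)))
    (fun _ => (FD.var 0 _).and (FD.var 0 _))

theorem linkF_eq [DecidableEq L] [Fintype L] (eS : SS L m ≃ Fin n')
    (eG : (Fin m × L) ≃ Fin m') {N : LNet L m} (hN : N.Valid) (s : L → Bool)
    (y : LB L m ⊕ (VN L m × AT L m) → Bool) (hy1 : ∀ b, y (Sum.inl b) = N.enc s b)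
    (hy2 : ∀ (e : VN L m) (x : AT L m), y (Sum.inr (e, x)) = true ↔ N.root e.1 e.2 = x)
    (c : LBit n' m' ⊕ Fin m') :
    linkF eS eG c y = Sum.elim (lenc (toCC eS eG N hN) (fun i => srcT N s (eS.symm i)))
      (fun g => actT N (eG.symm g)) c := by
  rcases c with (⟨p, a⟩ | i) | g
  · obtain ⟨x, rfl⟩ := (Equiv.sumCongr eS (Equiv.prodCongr eG (Equiv.refl Bool))).surjective a
    have hx : (Equiv.sumCongr eS (Equiv.prodCongr eG (Equiv.refl Bool))) x = arcE eS eG x := by
      rcases x with x | ⟨g, c⟩ <;> rfl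
    have hlhs : linkF eS eG (Sum.inl (Sum.inl (p,
        (Equiv.sumCongr eS (Equiv.prodCongr eG (Equiv.refl Bool))) x))) y =
      ((((N.act (eG.symm p.1).1 (eG.symm p.1).2) && (N.role (eG.symm p.1).1 (eG.symm p.1).2)) &&
        (if p.2 then y (Sum.inr (((eG.symm p.1).1.castSucc, (eG.symm p.1).2), x)) else
          decide (∃ b : L, (y (Sum.inl (Sum.inl ((eG.symm p.1).1, (eG.symm p.1).2, b))) &&
            y (Sum.inr (((eG.symm p.1).1.castSucc, b), x))) = true))) ||
      (!((N.act (eG.symm p.1).1 (eG.symm p.1).2) && (N.role (eG.symm p.1).1 (eG.symm p.1).2)) &&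
        decide (x = Sum.inl (Sum.inr (Sum.inr (eG.symm p.1, p.2)))))) := by
      unfold linkF
      simp only [hy1, LNet.enc, Equiv.symm_apply_apply]
    rw [hlhs]
    change _ = decide ((toCC eS eG N hN).inp p = _)
    have hinp : ((toCC eS eG N hN).inp p =
        (Equiv.sumCongr eS (Equiv.prodCongr eG (Equiv.refl Bool))) x) ↔
        N.inpT (eG.symm p.1, p.2) = x := by
      rw [hx]
      exact (arcE_inj eS eG).eq_iff
    rw [Bool.eq_iff_iff, decide_eq_true_eq, hinp]
    by_cases h : (N.act (eG.symm p.1).1 (eG.symm p.1).2 &&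
      N.role (eG.symm p.1).1 (eG.symm p.1).2) = true
    · have h1 : N.inpT (eG.symm p.1, p.2) =
          N.root (eG.symm p.1).1 (N.ln (eG.symm p.1, p.2)) := by
        unfold LNet.inpT
        rw [if_pos h]
      rw [h1, h]
      simp only [Bool.true_and, Bool.not_true, Bool.false_and, Bool.or_false]
      cases hp : p.2
      · simp only [Bool.false_eq_true, if_false, decide_eq_true_eq]
        constructor
        · rintro ⟨b, hb⟩
          rw [Bool.and_eq_true, hy1, hy2] at hb
          have hb1 : N.mate (eG.symm p.1).1 (eG.symm p.1).2 = b := by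
            simpa [LNet.enc] using hb.1
          change N.root ((eG.symm p.1).1 : ℕ) (N.mate (eG.symm p.1).1 (eG.symm p.1).2) = x
          rw [hb1]
          exact hb.2
        · intro hr
          refine ⟨N.mate (eG.symm p.1).1 (eG.symm p.1).2, ?_⟩
          rw [Bool.and_eq_true, hy1, hy2]
          exact ⟨by simp [LNet.enc], hr⟩
      · simp only [if_true]
        rw [hy2]
        rfl
    · have h' : (N.act (eG.symm p.1).1 (eG.symm p.1).2 &&
        N.role (eG.symm p.1).1 (eG.symm p.1).2) = false := by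
        cases hh : (N.act (eG.symm p.1).1 (eG.symm p.1).2 &&
          N.role (eG.symm p.1).1 (eG.symm p.1).2)
        · rfl
        · exact absurd hh h
      have h1 : N.inpT (eG.symm p.1, p.2) = Sum.inl (Sum.inr (Sum.inr (eG.symm p.1, p.2))) := by
        unfold LNet.inpT
        rw [if_neg h]
      rw [h1, h']
      simp only [Bool.false_and, Bool.false_or, Bool.not_false, Bool.true_and,
        decide_eq_true_eq]
      exact eq_comm
  · change (match eS.symm i with
      | Sum.inl a => y (Sum.inl (Sum.inr (Sum.inr a)))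
      | Sum.inr (Sum.inl p) => y (Sum.inl (Sum.inr (Sum.inl (p.1, p.2, Fld.cv))))
      | Sum.inr (Sum.inr _) => false) = srcT N s (eS.symm i)
    rcases eS.symm i with a | p | p
    · simp only [hy1]
      rfl
    · simp only [hy1]
      rfl
    · rfl
  · change (y (Sum.inl (Sum.inr (Sum.inl ((eG.symm g).1, (eG.symm g).2, Fld.act)))) &&
        y (Sum.inl (Sum.inr (Sum.inl ((eG.symm g).1, (eG.symm g).2, Fld.rol))))) = _
    rw [hy1, hy1]
    rfl

/-- The marks of the lines are correct. -/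
theorem outF_marks [DecidableEq L] [Fintype L] (eS : SS L m ≃ Fin n')
    (eG : (Fin m × L) ≃ Fin m') {N : LNet L m} (hN : N.Valid) (s : L → Bool) {q : ℕ}
    (y : Bool × Arc n' m' → Bool)
    (hy1 : ∀ v, (toCC eS eG N hN).IsVal (fun i => srcT N s (eS.symm i)) v →
      ∀ r a, y (r, a) = true → v a = r)
    (hy2 : ∃ K : Fin m' × Bool → Bool,
      q ^ 2 * (univ.filter (fun p : Fin m' × Bool =>
        K p = true ∧ actT N (eG.symm p.1) = true)).card ≤
        16 * (univ.filter (fun g => actT N (eG.symm g) = true)).card ∧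
      ∀ (r : Bool) (w : Arc n' m' → Bool),
        IsCut (toCC eS eG N hN) K r (fun i => srcT N s (eS.symm i)) w →
        ∀ a, w a = !r → y (!r, a) = true)
    (R : VN L m × AT L m → Bool)
    (hR : ∀ (e : VN L m) (x : AT L m), R (e, x) = true ↔ N.root e.1 e.2 = x) :
    Marks N s q (fun c => outF eS eG c (Sum.elim R y)) := by
  have hout : ∀ (r : Bool) (t : Fin (m + 1)) (a : L),
      outF eS eG (r, t, a) (Sum.elim R y) = y (r, arcE eS eG (N.root t a)) := by
    intro r t a
    unfold outF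
    rw [Bool.eq_iff_iff, decide_eq_true_eq]
    simp only [Sum.elim_inl, Sum.elim_inr, Bool.and_eq_true, hR]
    constructor
    · rintro ⟨x, hx, h⟩
      rw [hx]
      exact h
    · intro h
      exact ⟨_, rfl, h⟩
  have hex : ∀ (K : Fin m' × Bool → Bool) (r : Bool), ∃ w : Arc n' m' → Bool,
      (∀ a, w (arcE eS eG a) = runT eG N K r s a) := by
    intro K r
    refine ⟨fun x => runT eG N K r s
      ((Equiv.sumCongr eS (Equiv.prodCongr eG (Equiv.refl Bool))).symm x), fun a => ?_⟩
    have hx : arcE eS eG a = (Equiv.sumCongr eS (Equiv.prodCongr eG (Equiv.refl Bool))) a := by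
      rcases a with x | ⟨g, c⟩ <;> rfl
    simp only [hx, Equiv.symm_apply_apply]
  constructor
  · intro r t a h
    rw [hout] at h
    obtain ⟨w, hw⟩ := hex (fun _ => false) false
    have h1 := isCut_runT eS eG hN (fun _ => false) false s w hw
    have h2 : (toCC eS eG N hN).IsVal (fun i => srcT N s (eS.symm i)) w := by
      refine ⟨h1.src, fun g => ?_, fun g => ?_⟩
      · have := h1.opn (g, false)
        simpa [comb] using this
      · have := h1.opn (g, true)
        simpa [comb] using this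
    have h3 := hy1 w h2 r _ h
    rw [hw, runT_root eG hN] at h3
    rw [← h3]
    exact (run_none N _ (fun _ _ => rfl) false s t a).symm
  · obtain ⟨K, hK1, hK2⟩ := hy2
    refine ⟨cutL eG N K, ?_, fun r t a h => ?_⟩
    · rw [nact_eq] at hK1
      exact le_trans (Nat.mul_le_mul_left _ (ncut_le eG hN K)) hK1
    · obtain ⟨w, hw⟩ := hex K r
      have h1 := isCut_runT eS eG hN K r s w hw
      rw [hout]
      apply hK2 r w h1
      rw [hw, runT_root eG hN]
      exact h

/-! ### Sizes -/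

/-- Replacement of the size parameter `4 * l` by `l`. -/
theorem Cp.scale {α β : Type} {c l D : ℕ} {f : (α → Bool) → β → Bool} (hl : 1 ≤ l)
    (h : Cp c (4 * l) D f) : Cp (c * 4 ^ c + 4 * c) l D f := by
  obtain ⟨d, hd, h⟩ := h
  have h4 : 1 ≤ 4 ^ c := Nat.one_le_pow _ _ (by norm_num)
  have hc : c ≤ c * 4 ^ c + 4 * c := by nlinarith
  have hw : c * (4 * l) ≤ (c * 4 ^ c + 4 * c) * l := by
    calc c * (4 * l) = (4 * c) * l := by ring
      _ ≤ _ := Nat.mul_le_mul_right _ (by omega)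
  refine ⟨d, hd.trans ?_, lev_mono (Nat.pow_le_pow_right (by norm_num) hw) h⟩
  refine Nat.mul_le_mul_right _ ?_
  rw [mul_pow]
  calc c * (4 ^ c * l ^ c) = (c * 4 ^ c) * l ^ c := by ring
    _ ≤ (c * 4 ^ c + 4 * c) * l ^ (c * 4 ^ c + 4 * c) :=
      Nat.mul_le_mul (by omega) (Nat.pow_le_pow_right hl hc)

section sizes

variable [Fintype L] {l : ℕ}

theorem card_VN (hN : (Fintype.card L + 1) * (m + 1) ≤ 2 ^ l) :
    Fintype.card (VN L m) ≤ 2 ^ l := by
  rw [Fintype.card_prod, Fintype.card_fin]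
  nlinarith

theorem card_L (hN : (Fintype.card L + 1) * (m + 1) ≤ 2 ^ l) : Fintype.card L ≤ 2 ^ l := by
  nlinarith

theorem card_SS : Fintype.card (SS L m) = Fintype.card L + 3 * (m * Fintype.card L) := by
  rw [Fintype.card_sum, Fintype.card_sum, Fintype.card_prod, Fintype.card_prod,
    Fintype.card_prod, Fintype.card_fin, Fintype.card_bool]
  ring

theorem card_GG : Fintype.card (Fin m × L) = m * Fintype.card L := by
  rw [Fintype.card_prod, Fintype.card_fin]

theorem card_AT (hl : 1 ≤ l) (hN : (Fintype.card L + 1) * (m + 1) ≤ 2 ^ l) :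
    Fintype.card (AT L m) ≤ 2 ^ (4 * l) := by
  rw [Fintype.card_sum, card_SS, Fintype.card_prod, card_GG, Fintype.card_bool]
  have h1 : Fintype.card L + 3 * (m * Fintype.card L) + m * Fintype.card L * 2 ≤
      8 * ((Fintype.card L + 1) * (m + 1)) := by nlinarith
  have h2 : 8 * 2 ^ l ≤ 2 ^ (4 * l) := by
    calc 8 * 2 ^ l = 2 ^ (3 + l) := by rw [pow_add]; norm_num
      _ ≤ _ := Nat.pow_le_pow_right (by norm_num) (by omega)
  omega

theorem card_CC (hl : 1 ≤ l) (hN : (Fintype.card L + 1) * (m + 1) ≤ 2 ^ l) :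
    Fintype.card (SS L m) + 4 * Fintype.card (Fin m × L) + 1 ≤ 2 ^ (4 * l) := by
  rw [card_SS, card_GG]
  have h1 : Fintype.card L + 3 * (m * Fintype.card L) + 4 * (m * Fintype.card L) + 1 ≤
      8 * ((Fintype.card L + 1) * (m + 1)) := by nlinarith
  have h2 : 8 * 2 ^ l ≤ 2 ^ (4 * l) := by
    calc 8 * 2 ^ l = 2 ^ (3 + l) := by rw [pow_add]; norm_num
      _ ≤ _ := Nat.pow_le_pow_right (by norm_num) (by omega)
  omega

end sizes

theorem Cp.factor {α β : Type} {c l D : ℕ} {f : (α → Bool) → β → Bool} (hl : 1 ≤ l) (k : ℕ)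
    (hk : 1 ≤ k) (h : Cp c l (k * D) f) : Cp (c * k) l D f := by
  obtain ⟨d, hd, h⟩ := h
  have hc : c ≤ c * k := Nat.le_mul_of_pos_right _ hk
  refine ⟨d, hd.trans ?_, lev_mono (Nat.pow_le_pow_right (by norm_num)
    (Nat.mul_le_mul_right _ hc)) h⟩
  calc c * l ^ c * (k * D) = (c * k) * l ^ c * D := by ring
    _ ≤ (c * k) * l ^ (c * k) * D :=
      Nat.mul_le_mul_right _ (Nat.mul_le_mul_left _ (Nat.pow_le_pow_right hl hc))

/-- Marks of layered networks. -/
theorem layerEval_of_splus (h : SplusAct) : LayerEval := by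
  obtain ⟨c, hc⟩ := h
  refine ⟨(3 * 5 + 6 + (5 + (3 * 7 + 2 + (3 * 1 + 1 * (1 + 2) + (2 * 6 + 2) + 4) + 5) +
    (5 + 10 + (2 * 10 + 2) + (c * 4 ^ c + 4 * c) + 3) + 2) + 5) * 8, ?_⟩
  intro L _ _ m q l hl hq hql hN
  have hVN := card_VN hN
  have hL := card_L hN
  have hAT := card_AT hl hN
  have hCC := card_CC hl hN
  have hp4 : 2 ^ l ≤ 2 ^ (4 * l) := Nat.pow_le_pow_right (by norm_num) (by omega)
  obtain ⟨n', hn'⟩ : ∃ k, k = Fintype.card (SS L m) := ⟨_, rfl⟩
  obtain ⟨m', hm'⟩ : ∃ k, k = Fintype.card (Fin m × L) := ⟨_, rfl⟩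
  rw [← hn', ← hm'] at hCC
  obtain ⟨f, hf, hspec⟩ := hc n' m' q (4 * l) (by omega) hq (hql.trans hp4) hCC
  have hf' := Cp.scale hl hf
  obtain ⟨eS⟩ : Nonempty (SS L m ≃ Fin n') :=
    ⟨(Fintype.equivFin _).trans (finCongr hn'.symm)⟩
  obtain ⟨eG⟩ : Nonempty ((Fin m × L) ≃ Fin m') :=
    ⟨(Fintype.equivFin _).trans (finCongr hm'.symm)⟩
  have hpow : ∀ a b : ℕ, a ≤ b → 2 ^ (a * l) ≤ 2 ^ (b * l) := fun a b hab =>
    Nat.pow_le_pow_right (by norm_num) (Nat.mul_le_mul_right _ hab)
  have h2l : 2 ≤ 2 ^ l := by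
    calc 2 = 2 ^ 1 := rfl
      _ ≤ 2 ^ l := Nat.pow_le_pow_right (by norm_num) hl
  have hVV : Fintype.card (VN L m × VN L m) ≤ 2 ^ (2 * l) := by
    rw [Fintype.card_prod, two_mul, pow_add]
    exact Nat.mul_le_mul hVN hVN
  have hVA : Fintype.card (VN L m × AT L m) ≤ 2 ^ (5 * l) := by
    rw [Fintype.card_prod, show 5 * l = l + 4 * l by ring, pow_add]
    exact Nat.mul_le_mul hVN hAT
  have hArc : Fintype.card (Arc n' m') ≤ 2 ^ (4 * l) := by
    rw [Fintype.card_sum, Fintype.card_prod, Fintype.card_fin, Fintype.card_fin,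
      Fintype.card_bool]
    omega
  have hBArc : Fintype.card (Bool × Arc n' m') ≤ 2 ^ (5 * l) := by
    rw [Fintype.card_prod, Fintype.card_bool, show 5 * l = l + 4 * l by ring, pow_add]
    exact Nat.mul_le_mul h2l hArc
  have hLB : Fintype.card (LBit n' m' ⊕ Fin m') ≤ 2 ^ (10 * l) := by
    rw [Fintype.card_sum, Fintype.card_sum, Fintype.card_prod, Fintype.card_prod,
      Fintype.card_fin, Fintype.card_fin, Fintype.card_bool]
    have h1 : m' * 2 * Fintype.card (Arc n' m') ≤ 2 ^ (4 * l) * 2 ^ (4 * l) :=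
      Nat.mul_le_mul (by omega) hArc
    rw [← pow_add] at h1
    have h3 : 2 ^ (4 * l) ≤ 2 ^ (4 * l + 4 * l) :=
      Nat.pow_le_pow_right (by norm_num) (by omega)
    have h4 : 2 ^ (4 * l + 4 * l) * 2 ≤ 2 ^ (10 * l) := by
      rw [← pow_succ]
      exact Nat.pow_le_pow_right (by norm_num) (by omega)
    omega
  have hHB : Fintype.card (HB L m) ≤ 2 ^ (2 * l) := by
    have h1 : Fintype.card (HB L m) = 2 * Fintype.card (VN L m) := by
      rw [Fintype.card_prod, Fintype.card_bool]
    rw [h1, two_mul l, pow_add]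
    exact Nat.mul_le_mul h2l hVN
  -- stages
  have s1 : Cp (2 * 6 + 2) l q (fun (z : LB L m → Bool) (p : VN L m × VN L m) => matV z p) :=
    Cp.fd (c := 6) (k := 6) hl hq (fun p z => matV z p) (fun p => fd_matV p) (by omega)
      (hVV.trans (hpow 2 6 (by omega)))
  have s2 := Cp.sq (b := 1) (j := l) hl hq s1 (by rw [one_mul]; exact hVN) (by omega)
  have s3 := Cp.layer (a := 7) (b := 2) hl hq s2 hVV (fun p y => rtb y p)
    (fun p => fd_rtb hVN p) (by omega) (hVA.trans (hpow 5 7 (by omega)))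
  have s4 : Cp (2 * 10 + 2) l q (fun (y : LB L m ⊕ (VN L m × AT L m) → Bool)
      (c : LBit n' m' ⊕ Fin m') => linkF eS eG c y) :=
    Cp.fd (c := 10) (k := 1 + l + 4) hl hq (linkF eS eG) (fun c => fd_linkF eS eG hL c)
      (by omega) hLB
  have s5 := Cp.comp (a := 5) (b := 10) hl hq s4 hf' hLB hBArc
  have s6 := Cp.next (b := 5) hl (show 1 ≤ 2 * q by omega) s3 s5 hVA
  have hcard6 : Fintype.card ((VN L m × AT L m) ⊕ (Bool × Arc n' m')) ≤ 2 ^ (6 * l) := by
    rw [Fintype.card_sum, show 6 * l = l + 5 * l by ring, pow_add]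
    calc _ ≤ 2 ^ (5 * l) + 2 ^ (5 * l) := Nat.add_le_add hVA hBArc
      _ = 2 * 2 ^ (5 * l) := by ring
      _ ≤ _ := Nat.mul_le_mul_right _ h2l
  have s7 := Cp.layer (a := 5) (b := 6) hl (show 1 ≤ 2 * q + (q + q) by omega) s6 hcard6
    (fun (c : HB L m) (y : LB L m ⊕ ((VN L m × AT L m) ⊕ (Bool × Arc n' m')) → Bool) =>
      outF eS eG c (fun b => y (Sum.inr b)))
    (fun c => fd_inputs Sum.inr (fd_outF eS eG hAT c)) (by omega)
    (hHB.trans (hpow 2 5 (by omega)))
  have s8 := Cp.factor hl 8 (by norm_num) (s7.mono hl le_rfl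
    (show 2 * (2 * q + (q + q)) ≤ 8 * q by omega))
  refine ⟨_, s8, fun N s hN => ?_⟩
  have hR : ∀ (e : VN L m) (x : AT L m),
      (fun p => rtb (Sum.elim (N.enc s) (sq^[l] (matV (N.enc s)))) p) (e, x) = true ↔
        N.root e.1 e.2 = x := fun e x => rtb_iff hVN (e, x)
  obtain ⟨h1, h2⟩ := hspec (toCC eS eG N hN) (fun i => srcT N s (eS.symm i))
    (fun g => actT N (eG.symm g))
  have hlink : (fun c => linkF eS eG c (Sum.elim (N.enc s)
      (fun p => rtb (Sum.elim (N.enc s) (sq^[l] (matV (N.enc s)))) p))) =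
      Sum.elim (lenc (toCC eS eG N hN) (fun i => srcT N s (eS.symm i)))
        (fun g => actT N (eG.symm g)) := by
    funext c
    exact linkF_eq eS eG hN s _ (fun b => rfl) hR c
  have key := outF_marks eS eG hN s (q := q)
    (f (Sum.elim (lenc (toCC eS eG N hN) (fun i => srcT N s (eS.symm i)))
        (fun g => actT N (eG.symm g)))) h1 h2
    (fun p => rtb (Sum.elim (N.enc s) (sq^[l] (matV (N.enc s)))) p) hR
  rw [← hlink] at key
  exact key

end Pool.Agent.LibCQ62
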