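import Pool.Agent.LibCQ62.BrSem

/-!
Row G2: the comparator circuit of a layered network, its runs and the numbers of cuts.
-/

namespace Pool.Agent.LibCQ62

open Pool.Agent.LibCC Pool.Agent.LibCCQ Finset

variable {L : Type} {m n' m' : ℕ}

section typed

variable (eS : SS L m ≃ Fin n') (eG : (Fin m × L) ≃ Fin m')

/-- Arcs of the circuit. -/
def arcE (a : AT L m) : Arc n' m' := Sum.map eS (Prod.map eG id) a

theorem arcE_inj : Function.Injective (arcE eS eG : AT L m → Arc n' m') :=
  Function.Injective.sumMap eS.injective
    (Function.Injective.prodMap eG.injective Function.injective_id)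

theorem arcE_surj : Function.Surjective (arcE eS eG : AT L m → Arc n' m') :=
  Function.Surjective.sumMap eS.surjective
    (Function.Surjective.prodMap eG.surjective Function.surjective_id)

/-- The comparator circuit of a layered network. -/
def toCC (N : LNet L m) (hN : N.Valid) : CompCircuit n' m' where
  inp p := arcE eS eG (N.inpT (eG.symm p.1, p.2))
  inj := by
    intro p p' h
    have h1 := inpT_inj hN (arcE_inj eS eG h)
    have h2 := (Prod.mk.inj h1)
    exact Prod.ext (eG.symm.injective h2.1) h2.2
  acyclic := by
    refine ⟨fun g => ((eG.symm g).1 : ℕ), fun g b h c hh => ?_⟩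
    obtain ⟨h', rfl⟩ := eG.surjective h
    have h1 : N.inpT (eG.symm g, b) = Sum.inr (h', c) := by
      apply arcE_inj eS eG
      rw [hh]
      rfl
    have h2 := inpT_ord N _ _ _ _ h1
    simpa using h2

/-- The bits of the sources. -/
def srcT (N : LNet L m) (s : L → Bool) : SS L m → Bool
  | Sum.inl a => s a
  | Sum.inr (Sum.inl p) => (N.cst p.1 p.2).getD false
  | Sum.inr (Sum.inr _) => false

/-- The gates that are comparators of the network. -/
def actT (N : LNet L m) (g : Fin m × L) : Bool := N.act g.1 g.2 && N.role g.1 g.2

/-- The cuts of the lines given by cut ports. -/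
def cutL (N : LNet L m) (K : Fin m' × Bool → Bool) (t : Fin m) (a : L) : Bool :=
  K (eG (t, N.rep t a), N.role t a)

/-- The run of the circuit. -/
def runT (N : LNet L m) (K : Fin m' × Bool → Bool) (r : Bool) (s : L → Bool) : AT L m → Bool
  | Sum.inl x => srcT N s x
  | Sum.inr (g, c) => if actT N g = true then
      comb c (if K (eG g, false) then r else N.run (cutL eG N K) r s g.1 (N.ln (g, false)))
        (if K (eG g, true) then r else N.run (cutL eG N K) r s g.1 (N.ln (g, true)))
    else comb c (if K (eG g, false) then r else false) (if K (eG g, true) then r else false)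

theorem comb_comm (c a b : Bool) : comb c a b = comb c b a := by
  cases c <;> cases a <;> cases b <;> rfl

theorem rep_role {N : LNet L m} (hN : N.Valid) {t : Fin m} {a : L} (h : N.act t a = true) :
    N.act t (N.rep t a) = true ∧ N.role t (N.rep t a) = true := by
  unfold LNet.rep
  by_cases hr : N.role t a = true
  · rw [if_pos hr]
    exact ⟨h, hr⟩
  · rw [if_neg hr, hN.act, hN.role t a h]
    refine ⟨h, ?_⟩
    cases hh : N.role t a
    · rfl
    · exact absurd hh hr

theorem run_succ (N : LNet L m) (K : Fin m → L → Bool) (r : Bool) (s : L → Bool) (t : Fin m)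
    (a : L) : N.run K r s (t + 1) a = (N.cst t a).getD (N.pre (K t) r t (N.run K r s t) a) := by
  change (if h : (t : ℕ) < m then _ else _) = _
  rw [dif_pos t.isLt]

theorem run_ge (N : LNet L m) (K : Fin m → L → Bool) (r : Bool) (s : L → Bool) {t : ℕ}
    (ht : m ≤ t) (a : L) : N.run K r s (t + 1) a = N.run K r s t a := by
  change (if h : t < m then _ else _) = _
  rw [dif_neg (by omega)]

/-- The run at the root of a line. -/
theorem runT_root {N : LNet L m} (hN : N.Valid) (K : Fin m' × Bool → Bool) (r : Bool)
    (s : L → Bool) (t : ℕ) (a : L) :
    runT eG N K r s (N.root t a) = N.run (cutL eG N K) r s t a := by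
  induction t generalizing a with
  | zero => rfl
  | succ t ih =>
    by_cases h : t < m
    · have h1 := root_succ N ⟨t, h⟩ a
      have h2 := run_succ N (cutL eG N K) r s ⟨t, h⟩ a
      simp only at h1 h2
      rw [h1, h2]
      set t' : Fin m := ⟨t, h⟩ with ht'
      rcases hc : N.cst t' a with _ | b
      · simp only [Option.isSome_none, Bool.false_eq_true, if_false, Option.getD_none]
        unfold LNet.pre
        by_cases ha : N.act t' a = true
        · rw [if_pos ha, if_pos ha]
          obtain ⟨h3, h4⟩ := rep_role hN ha
          have h5 : actT N (t', N.rep t' a) = true := by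
            unfold actT
            rw [h3, h4]
            rfl
          change (if actT N (t', N.rep t' a) = true then _ else _) = _
          rw [if_pos h5]
          by_cases hr : N.role t' a = true
          · have h6 : N.rep t' a = a := by
              unfold LNet.rep
              rw [if_pos hr]
            have h7 : N.rep t' (N.mate t' a) = a := by
              unfold LNet.rep
              rw [hN.role t' a ha, hr]
              simp [hN.inv]
            have h8 : N.role t' (N.mate t' a) = false := by
              rw [hN.role t' a ha, hr]
              rfl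
            have e1 : cutL eG N K t' a = K (eG (t', a), true) := by
              unfold cutL
              rw [h6, hr]
            have e2 : cutL eG N K t' (N.mate t' a) = K (eG (t', a), false) := by
              unfold cutL
              rw [h7, h8]
            rw [h6, e1, e2, comb_comm]
            rfl
          · have hr' : N.role t' a = false := by
              cases hh : N.role t' a
              · rfl
              · exact absurd hh hr
            have h6 : N.rep t' a = N.mate t' a := by
              unfold LNet.rep
              rw [if_neg hr]
            have h8 : N.role t' (N.mate t' a) = true := by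
              rw [hN.role t' a ha, hr']
              rfl
            have h7 : N.rep t' (N.mate t' a) = N.mate t' a := by
              unfold LNet.rep
              rw [if_pos h8]
            have e1 : cutL eG N K t' a = K (eG (t', N.mate t' a), false) := by
              unfold cutL
              rw [h6, hr']
            have e2 : cutL eG N K t' (N.mate t' a) = K (eG (t', N.mate t' a), true) := by
              unfold cutL
              rw [h7, h8]
            have e3 : N.ln ((t', N.mate t' a), false) = a := by
              change N.mate t' (N.mate t' a) = a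
              exact hN.inv t' a
            rw [h6, e1, e2, e3]
            rfl
        · rw [if_neg ha, if_neg ha, ih]
          unfold LNet.mv
          split_ifs <;> rfl
      · simp only [Option.isSome_some, if_true, Option.getD_some]
        change (N.cst t' a).getD false = b
        rw [hc]
        rfl
    · rw [root_ge N (by omega), run_ge N _ _ _ (by omega), ih]

/-- The arc run as a run of the circuit. -/
theorem isCut_runT {N : LNet L m} (hN : N.Valid) (K : Fin m' × Bool → Bool) (r : Bool)
    (s : L → Bool) (w : Arc n' m' → Bool)
    (hw : ∀ a, w (arcE eS eG a) = runT eG N K r s a) :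
    IsCut (toCC eS eG N hN) K r (fun i => srcT N s (eS.symm i)) w := by
  have hin : ∀ (g : Fin m × L) (b : Bool), w ((toCC eS eG N hN).inp (eG g, b)) =
      if actT N g = true then N.run (cutL eG N K) r s g.1 (N.ln (g, b)) else false := by
    intro g b
    change w (arcE eS eG (N.inpT (eG.symm (eG g), b))) = _
    rw [hw, Equiv.symm_apply_apply]
    unfold LNet.inpT
    by_cases h : actT N g = true
    · rw [if_pos h, if_pos (by exact h)]
      exact runT_root eG hN K r s _ _
    · rw [if_neg h, if_neg (by exact h)]
      rfl
  refine ⟨fun i => ?_, fun a => ?_⟩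
  · obtain ⟨x, rfl⟩ := eS.surjective i
    have h1 := hw (Sum.inl x)
    rw [Equiv.symm_apply_apply]
    exact h1
  · obtain ⟨g', c⟩ := a
    obtain ⟨g, rfl⟩ := eG.surjective g'
    have h1 := hw (Sum.inr (g, c))
    have h2 : arcE eS eG (Sum.inr (g, c)) = Sum.inr (eG g, c) := rfl
    rw [h2] at h1
    rw [h1, hin, hin]
    change (if actT N g = true then _ else _) = _
    by_cases h : actT N g = true
    · rw [if_pos h, if_pos h, if_pos h]
    · rw [if_neg h, if_neg h, if_neg h]

theorem run_none (N : LNet L m) (K : Fin m → L → Bool) (hK : ∀ t a, K t a = false) (r : Bool)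
    (s : L → Bool) (t : ℕ) (a : L) : N.run K r s t a = N.val s t a := by
  have hK' : K = fun _ _ => false := by
    funext t a
    exact hK t a
  subst hK'
  unfold LNet.val
  induction t generalizing a with
  | zero => rfl
  | succ t ih =>
    by_cases h : t < m
    · have h1 := run_succ N (fun _ _ => false) r s ⟨t, h⟩ a
      have h2 := run_succ N (fun _ _ => false) false s ⟨t, h⟩ a
      simp only at h1 h2
      rw [h1, h2]
      have h3 : N.run (fun _ _ => false) r s t = N.run (fun _ _ => false) false s t := by
        funext a
        exact ih a
      rw [h3]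
      rfl
    · rw [run_ge N _ _ _ (by omega), run_ge N _ _ _ (by omega), ih]

end typed

section count

variable [Fintype L] (eG : (Fin m × L) ≃ Fin m')

theorem ncut_le {N : LNet L m} (hN : N.Valid) (K : Fin m' × Bool → Bool) :
    N.ncut (cutL eG N K) ≤ (univ.filter (fun p : Fin m' × Bool =>
      K p = true ∧ actT N (eG.symm p.1) = true)).card := by
  classical
  have h1 : N.ncut (cutL eG N K) = (univ.filter (fun g : Fin m × L =>
      cutL eG N K g.1 g.2 = true ∧ N.act g.1 g.2 = true)).card := by
    unfold LNet.ncut
    rw [Finset.card_filter, Fintype.sum_prod_type]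
    apply Finset.sum_congr rfl
    intro t _
    rw [Finset.card_filter]
  rw [h1]
  apply Finset.card_le_card_of_injOn (fun g => (eG (g.1, N.rep g.1 g.2), N.role g.1 g.2))
  · rintro ⟨t, a⟩ hg
    rw [Finset.mem_coe, mem_filter] at hg
    rw [Finset.mem_coe, mem_filter]
    obtain ⟨-, h2, h3⟩ := hg
    obtain ⟨h4, h5⟩ := rep_role hN h3
    refine ⟨mem_univ _, h2, ?_⟩
    simp only [Equiv.symm_apply_apply]
    unfold actT
    simp only at h4 h5
    rw [h4, h5]
    rfl
  · rintro ⟨t, a⟩ _ ⟨t', a'⟩ _ h
    simp only [Prod.mk.injEq, EmbeddingLike.apply_eq_iff_eq] at h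
    obtain ⟨⟨h2, h3⟩, h4⟩ := h
    subst h2
    rw [rep_inj hN t h3 h4]

theorem nact_eq (N : LNet L m) :
    (univ.filter (fun g : Fin m' => actT N (eG.symm g) = true)).card = N.nact := by
  classical
  have h1 : N.nact = (univ.filter (fun g : Fin m × L => actT N g = true)).card := by
    unfold LNet.nact
    rw [Finset.card_filter, Fintype.sum_prod_type]
    apply Finset.sum_congr rfl
    intro t _
    rw [Finset.card_filter]
    apply Finset.sum_congr rfl
    intro a _
    unfold actT
    simp only [Bool.and_eq_true]
  rw [h1]
  apply Finset.card_bij (fun g _ => eG.symm g)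
  · intro g hg
    rw [mem_filter] at hg ⊢
    exact ⟨mem_univ _, hg.2⟩
  · intro g _ g' _ h
    exact eG.symm.injective h
  · intro g hg
    rw [mem_filter] at hg
    exact ⟨eG g, by rw [mem_filter]; exact ⟨mem_univ _, by simpa using hg.2⟩, by simp⟩

end count

end Pool.Agent.LibCQ62
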