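import Pool.Agent.LibCQ62.Layer

/-!
Row G1: a layered network as a comparator circuit: roots of the lines, wiring.
-/

namespace Pool.Agent.LibCQ62

open Pool.Agent.LibCC Pool.Agent.LibCCQ Finset

/-- Sources: lines at the start, constants, dummies of inactive gates. -/
abbrev SS (L : Type) (m : ℕ) : Type := L ⊕ ((Fin m × L) ⊕ ((Fin m × L) × Bool))

/-- Arcs. -/
abbrev AT (L : Type) (m : ℕ) : Type := SS L m ⊕ ((Fin m × L) × Bool)

variable {L : Type} {m : ℕ}

/-- The line whose comparator port is `true` among `a` and `mate t a`. -/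
def LNet.rep (N : LNet L m) (t : Fin m) (a : L) : L := if N.role t a then a else N.mate t a

/-- Where the content of the line `a` was before layer `t`, if it was only moved. -/
def LNet.mv (N : LNet L m) (t : Fin m) (a : L) : L := if N.swp t a then N.mate t a else a

/-- The arc that carries the content of the line `a` after `t` layers. -/
def LNet.root (N : LNet L m) : ℕ → L → AT L m
  | 0, a => Sum.inl (Sum.inl a)
  | t + 1, a => if h : t < m then
      (if (N.cst ⟨t, h⟩ a).isSome then Sum.inl (Sum.inr (Sum.inl (⟨t, h⟩, a)))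
      else if N.act ⟨t, h⟩ a then Sum.inr ((⟨t, h⟩, N.rep ⟨t, h⟩ a), N.role ⟨t, h⟩ a)
      else N.root t (N.mv ⟨t, h⟩ a)) else N.root t a

/-- The line of a port. -/
def LNet.ln (N : LNet L m) (p : (Fin m × L) × Bool) : L := if p.2 then p.1.2 else N.mate p.1.1 p.1.2

/-- The arc read by a port. -/
def LNet.inpT (N : LNet L m) (p : (Fin m × L) × Bool) : AT L m :=
  if N.act p.1.1 p.1.2 && N.role p.1.1 p.1.2 then
    N.root p.1.1 (N.ln p)
  else Sum.inl (Sum.inr (Sum.inr p))

/-- Time of birth of an arc. -/
def birth : AT L m → ℕ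
  | Sum.inl (Sum.inl _) => 0
  | Sum.inl (Sum.inr (Sum.inl p)) => p.1 + 1
  | Sum.inl (Sum.inr (Sum.inr _)) => 0
  | Sum.inr p => p.1.1 + 1

theorem root_zero (N : LNet L m) (a : L) : N.root 0 a = Sum.inl (Sum.inl a) := rfl

theorem root_succ (N : LNet L m) (t : Fin m) (a : L) : N.root (t + 1) a =
    if (N.cst t a).isSome then Sum.inl (Sum.inr (Sum.inl (t, a)))
      else if N.act t a then Sum.inr ((t, N.rep t a), N.role t a)
      else N.root t (N.mv t a) := by
  change (if h : (t : ℕ) < m then _ else _) = _
  rw [dif_pos t.isLt]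

theorem root_ge (N : LNet L m) {t : ℕ} (ht : m ≤ t) (a : L) : N.root (t + 1) a = N.root t a := by
  change (if h : t < m then _ else _) = _
  rw [dif_neg (by omega)]

theorem birth_root (N : LNet L m) (t : ℕ) (a : L) : birth (N.root t a) ≤ t := by
  induction t generalizing a with
  | zero => exact le_rfl
  | succ t ih =>
    by_cases h : t < m
    · have h1 := root_succ N ⟨t, h⟩ a
      simp only at h1
      rw [h1]
      split_ifs
      · exact le_rfl
      · exact le_rfl
      · exact (ih _).trans (Nat.le_succ t)
    · rw [root_ge N (by omega)]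
      exact (ih a).trans (Nat.le_succ t)

theorem root_ne_dummy (N : LNet L m) (t : ℕ) (a : L) (p : (Fin m × L) × Bool) :
    N.root t a ≠ Sum.inl (Sum.inr (Sum.inr p)) := by
  induction t generalizing a with
  | zero => simp [root_zero]
  | succ t ih =>
    by_cases h : t < m
    · have h1 := root_succ N ⟨t, h⟩ a
      simp only at h1
      rw [h1]
      split_ifs
      · simp
      · simp
      · exact ih _
    · rw [root_ge N (by omega)]
      exact ih a

theorem act_mv {N : LNet L m} (hN : N.Valid) (t : Fin m) (a : L) :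
    N.act t (N.mv t a) = N.act t a := by
  unfold LNet.mv
  split_ifs
  · exact hN.act t a
  · rfl

theorem mv_inj {N : LNet L m} (hN : N.Valid) (t : Fin m) : Function.Injective (N.mv t) := by
  intro a b h
  unfold LNet.mv at h
  have h1 := hN.swp t a
  have h2 := hN.swp t b
  split_ifs at h with ha hb hb
  · have := congrArg (N.mate t) h
    rwa [hN.inv, hN.inv] at this
  · rw [h] at h1
    rw [ha] at h1
    exact absurd h1 hb
  · rw [← h] at h2
    rw [hb] at h2
    exact absurd h2 ha
  · exact h

theorem rep_inj {N : LNet L m} (hN : N.Valid) (t : Fin m) {a b : L}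
    (h : N.rep t a = N.rep t b) (hr : N.role t a = N.role t b) : a = b := by
  unfold LNet.rep at h
  rw [hr] at h
  split_ifs at h
  · exact h
  · have := congrArg (N.mate t) h
    rwa [hN.inv, hN.inv] at this

theorem root_ne_of_birth (N : LNet L m) {t : ℕ} (x : L) {p : AT L m} (hp : t < birth p) :
    p ≠ N.root t x := by
  intro h
  have h1 := birth_root N t x
  rw [← h] at h1
  omega

theorem root_inj {N : LNet L m} (hN : N.Valid) (t : ℕ) : Function.Injective (N.root t) := by
  induction t with
  | zero =>
    intro a b h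
    simpa [root_zero] using h
  | succ t ih =>
    by_cases h : t < m
    · intro a b hab
      have h1 := root_succ N ⟨t, h⟩ a
      have h2 := root_succ N ⟨t, h⟩ b
      simp only at h1 h2
      rw [h1, h2] at hab
      by_cases ca : (N.cst ⟨t, h⟩ a).isSome = true <;>
        by_cases cb : (N.cst ⟨t, h⟩ b).isSome = true <;>
        by_cases da : N.act ⟨t, h⟩ a = true <;>
        by_cases db : N.act ⟨t, h⟩ b = true <;>
        simp only [ca, cb, da, db, if_true, if_false, Bool.false_eq_true] at hab
      all_goals first
        | (simp only [Sum.inl.injEq, Sum.inr.injEq, Prod.mk.injEq, true_and] at hab; exact hab)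
        | (simp only [Sum.inr.injEq, Prod.mk.injEq, true_and] at hab
           exact rep_inj hN _ hab.1 hab.2)
        | exact mv_inj hN _ (ih hab)
        | exact absurd hab (by simp)
        | exact absurd hab (root_ne_of_birth N _ (Nat.lt_succ_self t))
        | exact absurd hab.symm (root_ne_of_birth N _ (Nat.lt_succ_self t))
    · intro a b hab
      rw [root_ge N (by omega), root_ge N (by omega)] at hab
      exact ih hab

/-- Consumed arcs do not come back. -/
theorem root_gone {N : LNet L m} (hN : N.Valid) (t : Fin m) (x : L) (hx : N.act t x = true)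
    (t' : ℕ) (ht : (t : ℕ) < t') (a : L) : N.root t' a ≠ N.root t x := by
  obtain ⟨d, rfl⟩ := Nat.exists_eq_add_of_lt ht
  clear ht
  induction d generalizing a with
  | zero =>
    rw [add_zero, root_succ]
    split_ifs with c1 c2
    · exact root_ne_of_birth N _ (Nat.lt_succ_self (t : ℕ))
    · exact root_ne_of_birth N _ (Nat.lt_succ_self (t : ℕ))
    · intro h
      have h1 := root_inj hN t h
      have h2 := act_mv hN t a
      rw [h1, hx] at h2
      exact c2 h2.symm
  | succ d ih =>
    have e : (t : ℕ) + (d + 1) + 1 = ((t : ℕ) + d + 1) + 1 := by ring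
    rw [e]
    by_cases h : (t : ℕ) + d + 1 < m
    · have h1 := root_succ N ⟨(t : ℕ) + d + 1, h⟩ a
      simp only at h1
      rw [h1]
      split_ifs with c1 c2
      · exact root_ne_of_birth N _ (show (t : ℕ) < (t : ℕ) + d + 1 + 1 by omega)
      · exact root_ne_of_birth N _ (show (t : ℕ) < (t : ℕ) + d + 1 + 1 by omega)
      · exact ih _
    · rw [root_ge N (by omega)]
      exact ih a

theorem inpT_act {N : LNet L m} {t : Fin m} {a : L} (h1 : N.act t a = true)
    (h2 : N.role t a = true) (b : Bool) :
    N.inpT ((t, a), b) = N.root t (N.ln ((t, a), b)) := by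
  unfold LNet.inpT
  rw [if_pos (by simp [h1, h2])]

theorem ln_spec {N : LNet L m} (hN : N.Valid) (t : Fin m) (a : L) (b : Bool)
    (h : (N.act t a && N.role t a) = true) :
    N.act t (N.ln ((t, a), b)) = true ∧ N.role t (N.ln ((t, a), b)) = b := by
  rw [Bool.and_eq_true] at h
  cases b
  · change N.act t (N.mate t a) = true ∧ N.role t (N.mate t a) = false
    rw [hN.act, hN.role t a h.1, h.2]
    exact ⟨h.1, rfl⟩
  · exact h

theorem inpT_inj {N : LNet L m} (hN : N.Valid) : Function.Injective N.inpT := by
  rintro ⟨⟨t, a⟩, b⟩ ⟨⟨t', a'⟩, b'⟩ h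
  unfold LNet.inpT at h
  simp only at h
  split_ifs at h with h1 h2 h2
  · obtain ⟨h3, h4⟩ := ln_spec hN t a b h1
    obtain ⟨h5, h6⟩ := ln_spec hN t' a' b' h2
    rcases lt_trichotomy (t : ℕ) t' with h7 | h7 | h7
    · exact absurd h.symm (root_gone hN t _ h3 t' h7 _)
    · have h8 : t = t' := Fin.ext h7
      subst h8
      have h9 := root_inj hN t h
      rw [← h9, h4] at h6
      subst h6
      cases b
      · have h10 := congrArg (N.mate t) h9
        change N.mate t (N.mate t a) = N.mate t (N.mate t a') at h10
        rw [hN.inv, hN.inv] at h10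
        rw [h10]
      · change a = a' at h9
        rw [h9]
    · exact absurd h (root_gone hN t' _ h5 t h7 _)
  · exact absurd h (root_ne_dummy N _ _ _)
  · exact absurd h.symm (root_ne_dummy N _ _ _)
  · simpa using h

theorem inpT_ord (N : LNet L m) (g : Fin m × L) (b : Bool) (h : Fin m × L) (c : Bool)
    (hh : N.inpT (g, b) = Sum.inr (h, c)) : (h.1 : ℕ) < g.1 := by
  unfold LNet.inpT at hh
  simp only at hh
  split_ifs at hh
  have h1 := birth_root N g.1 (N.ln (g, b))
  rw [hh] at h1
  exact h1

end Pool.Agent.LibCQ62
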