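import Pool.Agent.LibCQ62.Know

/-!
Bits of the knowledge; statements of the circuits (formulas) that compute the bits of the
layered networks and of the new knowledge.
-/

namespace Pool.Agent.LibCQ62

open Pool.Agent.LibCC Pool.Agent.LibCCQ Finset

variable {ι : Type} {m : ℕ}

/-- Bits of knowledge: steps (`false`: `cm`, `true`: `sw`), marks. -/
abbrev KB (ι : Type) (m : ℕ) : Type := (Fin m × Bool) ⊕ (Bool × Fin (m + 1) × ι)

def kenc (S : Know ι m) : KB ι m → Bool
  | Sum.inl (t, false) => S.cm t
  | Sum.inl (t, true) => S.sw t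
  | Sum.inr (r, t, a) => S.mrk r t a

/-- Bits of a network, its start and the knowledge. -/
abbrev FB (ι : Type) (m : ℕ) : Type := NBit ι m ⊕ KB ι m

def fenc [DecidableEq ι] (N : Net ι m) (w : ι → Bool) (S : Know ι m) : FB ι m → Bool :=
  Sum.elim (enc N w) (kenc S)

end Pool.Agent.LibCQ62
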