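import Pool.Agent.LibCQ62.Enc

/-! Row E, second half: formulas for the bits of the order network and of the next knowledge. -/

namespace Pool.Agent.LibCQ62

open Pool.Agent.LibCC Pool.Agent.LibCCQ Finset

namespace EncB

section aux

variable {β : Type}

theorem fd_ite {k : ℕ} {c f g : (β → Bool) → Bool} (hc : FD k c) (hf : FD k f) (hg : FD k g) :
    FD (k + 3) (fun x => if c x then f x else g x) := by
  have h1 : FD (k + 2) (fun x => c x && f x) := (hc.and hf).mono (by omega)
  have h2 : FD (k + 2) (fun x => !c x && g x) := hc.neg.and hg.succ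
  exact (h1.or h2).congr (fun x => by cases c x <;> simp)

theorem fd_pick {κ : Type} [Fintype κ] {k j : ℕ} (hj : Fintype.card κ ≤ 2 ^ j)
    {s g : κ → (β → Bool) → Bool} (hs : ∀ i, FD k (s i)) (hg : ∀ i, FD k (g i)) :
    FD (k + 1 + j) (fun x => decide (∃ i, (s i x && g i x) = true)) :=
  FD.exists j hj (fun i x => s i x && g i x) (fun i => (hs i).and (hg i))

theorem pick_eq {κ : Type} [DecidableEq κ] [Fintype κ] (a : κ) (g : κ → Bool) :
    decide (∃ b, (decide (a = b) && g b) = true) = g a := by
  rw [Bool.eq_iff_iff, decide_eq_true_iff]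
  constructor
  · rintro ⟨b, hb⟩
    rw [Bool.and_eq_true, decide_eq_true_iff] at hb
    rw [hb.1]
    exact hb.2
  · intro h
    exact ⟨a, by simpa using h⟩

end aux

section forms

variable {ι : Type} {m : ℕ}

def fL (c : Bool) (t : Fin m) (a : ι) (y : FB ι m → Bool) : Bool := y (Sum.inl (Sum.inl (t, c, a)))

def fCM (t : Fin m) (y : FB ι m → Bool) : Bool := y (Sum.inr (Sum.inl (t, false)))

def fSW (t : Fin m) (y : FB ι m → Bool) : Bool := y (Sum.inr (Sum.inl (t, true)))

def fMK (r : Bool) (t : Fin (m + 1)) (a : ι) (y : FB ι m → Bool) : Bool :=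
  y (Sum.inr (Sum.inr (r, t, a)))

def fUM (t : Fin (m + 1)) (a : ι) (y : FB ι m → Bool) : Bool := !fMK false t a y && !fMK true t a y

def fT (t : Fin m) (a : ι) (y : FB ι m → Bool) : Bool := fL false t a y || fL true t a y

def fE (t : Fin m) (y : FB ι m → Bool) : Bool := !fCM t y && fSW t y

theorem fd_L (c : Bool) (t : Fin m) (a : ι) : FD 0 (fL c t a) := FD.var 0 _

theorem fd_CM (t : Fin m) : FD 0 (fCM (ι := ι) t) := FD.var 0 _

theorem fd_SW (t : Fin m) : FD 0 (fSW (ι := ι) t) := FD.var 0 _

theorem fd_MK (r : Bool) (t : Fin (m + 1)) (a : ι) : FD 0 (fMK r t a) := FD.var 0 _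

theorem fd_UM (t : Fin (m + 1)) (a : ι) : FD 2 (fUM t a) :=
  (fd_MK false t a).neg.and (fd_MK true t a).neg

theorem fd_T (t : Fin m) (a : ι) : FD 1 (fT t a) := (fd_L false t a).or (fd_L true t a)

theorem fd_E (t : Fin m) : FD 2 (fE (ι := ι) t) := (fd_CM t).neg.and (fd_SW t).succ

variable [DecidableEq ι]

def fX (t : Fin m) (a b : ι) (y : FB ι m → Bool) : Bool :=
  (fL false t a y && fL true t b y) || (fL true t a y && fL false t b y) ||
    (!fT t a y && decide (a = b))

def fP (t : Fin m) (a b : ι) (y : FB ι m → Bool) : Bool :=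
  if fE t y then fX t a b y else decide (a = b)

def fPM [Fintype ι] (t : Fin m) (r : Bool) (a : ι) (y : FB ι m → Bool) : Bool :=
  !(fCM t y && fT t a y) && decide (∃ b, (fP t a b y && fMK r t.castSucc b y) = true)

theorem fd_X (t : Fin m) (a b : ι) : FD 4 (fX t a b) := by
  have h1 : FD 1 (fun y => fL false t a y && fL true t b y) := (fd_L false t a).and (fd_L true t b)
  have h2 : FD 1 (fun y => fL true t a y && fL false t b y) := (fd_L true t a).and (fd_L false t b)
  have h3 : FD 3 (fun y => !fT t a y && decide (a = b)) := (fd_T t a).neg.and (FD.const 2 _)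
  exact ((h1.or h2).mono (by omega)).or h3

theorem fd_P (t : Fin m) (a b : ι) : FD 7 (fP t a b) :=
  fd_ite ((fd_E t).mono (by omega)) (fd_X t a b) (FD.const 4 _)

theorem fd_PM [Fintype ι] {j : ℕ} (hj : Fintype.card ι ≤ 2 ^ j) (t : Fin m) (r : Bool) (a : ι) :
    FD (9 + j) (fPM t r a) := by
  have h1 : FD 2 (fun y => fCM t y && fT t a y) := (fd_CM t).succ.and (fd_T t a)
  have h2 : FD (7 + 1 + j) (fun y => decide (∃ b, (fP t a b y && fMK r t.castSucc b y) = true)) :=
    fd_pick hj (fun b => fd_P t a b) (fun b => (fd_MK r t.castSucc b).mono (by omega))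
  exact ((h1.neg.mono (by omega)).and h2).mono (by omega)

variable (N : Net ι m) (w : ι → Bool) (S : Know ι m)

theorem fL_false (t : Fin m) (a : ι) : fL false t a (fenc N w S) = decide (a = (N t).1) := by
  show decide ((N t).1 = a) = _
  rw [Bool.eq_iff_iff, decide_eq_true_iff, decide_eq_true_iff]
  exact eq_comm

theorem fL_true (t : Fin m) (a : ι) : fL true t a (fenc N w S) = decide (a = (N t).2) := by
  show decide ((N t).2 = a) = _
  rw [Bool.eq_iff_iff, decide_eq_true_iff, decide_eq_true_iff]
  exact eq_comm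

theorem fCM_eq (t : Fin m) : fCM t (fenc N w S) = S.cm t := rfl

theorem fSW_eq (t : Fin m) : fSW t (fenc N w S) = S.sw t := rfl

theorem fMK_eq (r : Bool) (t : Fin (m + 1)) (a : ι) : fMK r t a (fenc N w S) = S.mrk r t a := rfl

theorem fUM_eq (t : Fin (m + 1)) (a : ι) : fUM t a (fenc N w S) = S.um t a := rfl

theorem fT_eq (t : Fin m) (a : ι) : fT t a (fenc N w S) = tch N t a := by
  rw [fT, fL_false, fL_true, tch]

theorem fE_eq (t : Fin m) : fE t (fenc N w S) = (!S.cm t && S.sw t) := rfl

theorem fX_eq (t : Fin m) (a b : ι) :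
    fX t a b (fenc N w S) = decide (Equiv.swap (N t).1 (N t).2 a = b) := by
  rw [fX, fT_eq, tch, fL_false, fL_true, fL_false, fL_true, Equiv.swap_apply_def]
  by_cases h1 : a = (N t).1
  · rw [if_pos h1]
    by_cases h2 : a = (N t).2
    · rw [Bool.eq_iff_iff]
      simp [← h1, ← h2, eq_comm]
    · rw [Bool.eq_iff_iff]
      simp [h2, ← h1, eq_comm]
  · rw [if_neg h1]
    by_cases h2 : a = (N t).2
    · rw [if_pos h2, Bool.eq_iff_iff]
      simp [h1, ← h2, eq_comm]
    · rw [if_neg h2, Bool.eq_iff_iff]
      simp [h1, h2]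

theorem fP_eq (t : Fin m) (a b : ι) : fP t a b (fenc N w S) = decide (prv N S t a = b) := by
  rw [fP, fE_eq, fX_eq, prv]
  cases (!S.cm t && S.sw t) <;> rfl

theorem fPM_eq [Fintype ι] (t : Fin m) (r : Bool) (a : ι) :
    fPM t r a (fenc N w S) = pm N S t r a := by
  rw [fPM, fCM_eq, fT_eq, pm]
  congr 1
  simp only [fP_eq, fMK_eq]
  exact pick_eq (prv N S t a) (fun b => S.mrk r t.castSucc b)

end forms

end EncB

open EncB

/-- The bits of `matNet`. -/
theorem fd_matNet (ι : Type) [Fintype ι] [DecidableEq ι] (m j : ℕ) (hj : Fintype.card ι ≤ 2 ^ j) :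
    ∃ F : LB (ι × ι) m → (FB ι m → Bool) → Bool, (∀ b, FD (4 * j + 40) (F b)) ∧
      ∀ (N : Net ι m) (w : ι → Bool) (S : Know ι m) b,
        F b (fenc N w S) = (matNet N S).enc (mat0 w) b := by
  refine ⟨fun b => match b with
    | Sum.inl (t, p, p') => fun y => fX t p.1 p'.1 y && fX t p.2 p'.2 y
    | Sum.inr (Sum.inl (t, p, Fld.act)) => fun y =>
        fCM t y && !decide (p.1 = p.2) && (fT t p.1 y || fT t p.2 y) &&
          fUM t.castSucc p.1 y && fUM t.castSucc p.2 y
    | Sum.inr (Sum.inl (t, _, Fld.swp)) => fun y => fE t y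
    | Sum.inr (Sum.inl (t, p, Fld.rol)) => fun y => fL false t p.1 y || fL true t p.2 y
    | Sum.inr (Sum.inl (t, p, Fld.ck)) => fun y =>
        if decide (p.1 = p.2) || !fUM t.succ p.1 y || !fUM t.succ p.2 y then true
        else if fCM t y && fL false t p.1 y && fL true t p.2 y then true
        else if fPM t false p.1 y || fPM t true p.1 y || fPM t false p.2 y || fPM t true p.2 y
        then true else false
    | Sum.inr (Sum.inl (t, p, Fld.cv)) => fun y =>
        if decide (p.1 = p.2) || !fUM t.succ p.1 y || !fUM t.succ p.2 y then false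
        else if fCM t y && fL false t p.1 y && fL true t p.2 y then true
        else if fPM t false p.1 y || fPM t true p.1 y || fPM t false p.2 y || fPM t true p.2 y
        then fPM t false p.1 y || fPM t true p.2 y else false
    | Sum.inr (Sum.inr p) => fun y => !y (Sum.inl (Sum.inr p.1)) || y (Sum.inl (Sum.inr p.2)),
    ?_, ?_⟩
  · have hA : ∀ (t : Fin m) (p : ι × ι), FD 5 (fun y : FB ι m → Bool =>
        decide (p.1 = p.2) || !fUM t.succ p.1 y || !fUM t.succ p.2 y) := by
      intro t p
      have h1 : FD 4 (fun y : FB ι m → Bool => decide (p.1 = p.2) || !fUM t.succ p.1 y) :=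
        (FD.const 3 _).or (fd_UM t.succ p.1).neg
      exact h1.or ((fd_UM t.succ p.2).neg.mono (by omega))
    have hB : ∀ (t : Fin m) (p : ι × ι), FD 2 (fun y : FB ι m → Bool =>
        fCM t y && fL false t p.1 y && fL true t p.2 y) := by
      intro t p
      exact ((fd_CM t).and (fd_L false t p.1)).and (fd_L true t p.2).succ
    have hC : ∀ (t : Fin m) (p : ι × ι), FD (12 + j) (fun y : FB ι m → Bool =>
        fPM t false p.1 y || fPM t true p.1 y || fPM t false p.2 y || fPM t true p.2 y) := by
      intro t p
      have h1 := (fd_PM hj t false p.1).or (fd_PM hj t true p.1)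
      have h2 := h1.or (fd_PM hj t false p.2).succ
      have h3 := h2.or ((fd_PM hj t true p.2).succ.succ)
      exact h3.mono (by omega)
    have hD : ∀ (t : Fin m) (p : ι × ι), FD (12 + j) (fun y : FB ι m → Bool =>
        fPM t false p.1 y || fPM t true p.2 y) := by
      intro t p
      exact ((fd_PM hj t false p.1).or (fd_PM hj t true p.2)).mono (by omega)
    rintro (⟨t, p, p'⟩ | ⟨t, p, f⟩ | p)
    · exact ((fd_X t p.1 p'.1).and (fd_X t p.2 p'.2)).mono (by omega)
    · cases f with
      | act =>
        have h1 : FD 1 (fun y : FB ι m → Bool => fCM t y && !decide (p.1 = p.2)) :=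
          (fd_CM t).and (FD.const 0 _)
        have h2 : FD 2 (fun y : FB ι m → Bool => fT t p.1 y || fT t p.2 y) :=
          (fd_T t p.1).or (fd_T t p.2)
        have h3 := ((h1.mono (show 1 ≤ 2 by omega)).and h2).and
          ((fd_UM t.castSucc p.1).mono (show 2 ≤ 3 by omega))
        have h4 := h3.and ((fd_UM t.castSucc p.2).mono (show 2 ≤ 4 by omega))
        exact h4.mono (by omega)
      | swp => exact (fd_E t).mono (by omega)
      | rol => exact ((fd_L false t p.1).or (fd_L true t p.2)).mono (by omega)
      | ck =>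
        have h1 := fd_ite (hC t p) (FD.const _ true) (FD.const _ false)
        have h2 := fd_ite ((hB t p).mono (show 2 ≤ 12 + j + 3 by omega)) (FD.const _ true) h1
        have h3 := fd_ite ((hA t p).mono (show 5 ≤ 12 + j + 3 + 3 by omega)) (FD.const _ true) h2
        exact h3.mono (by omega)
      | cv =>
        have h1 := fd_ite (hC t p) (hD t p) (FD.const _ false)
        have h2 := fd_ite ((hB t p).mono (show 2 ≤ 12 + j + 3 by omega)) (FD.const _ true) h1
        have h3 := fd_ite ((hA t p).mono (show 5 ≤ 12 + j + 3 + 3 by omega)) (FD.const _ false) h2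
        exact h3.mono (by omega)
    · have h1 : FD 2 (fun y : FB ι m → Bool =>
          !y (Sum.inl (Sum.inr p.1)) || y (Sum.inl (Sum.inr p.2))) :=
        (FD.var 0 _).neg.or (FD.var 1 _)
      exact h1.mono (by omega)
  · intro N w S b
    rcases b with ⟨t, p, p'⟩ | ⟨t, p, f⟩ | p
    · show (fX t p.1 p'.1 (fenc N w S) && fX t p.2 p'.2 (fenc N w S)) =
        decide ((Equiv.swap (N t).1 (N t).2 p.1, Equiv.swap (N t).1 (N t).2 p.2) = p')
      rw [fX_eq, fX_eq, Bool.eq_iff_iff]
      simp [Prod.ext_iff]
    · cases f with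
      | act =>
        show (fCM t (fenc N w S) && !decide (p.1 = p.2) && (fT t p.1 (fenc N w S) ||
          fT t p.2 (fenc N w S)) && fUM t.castSucc p.1 (fenc N w S) &&
          fUM t.castSucc p.2 (fenc N w S)) = (matNet N S).act t p
        rw [fCM_eq, fT_eq, fT_eq, fUM_eq, fUM_eq]
        rfl
      | swp => rfl
      | rol =>
        show (fL false t p.1 (fenc N w S) || fL true t p.2 (fenc N w S)) = (matNet N S).role t p
        rw [fL_false, fL_true]
        rfl
      | ck =>
        show (if decide (p.1 = p.2) || !fUM t.succ p.1 (fenc N w S) ||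
            !fUM t.succ p.2 (fenc N w S) then true
          else if fCM t (fenc N w S) && fL false t p.1 (fenc N w S) &&
            fL true t p.2 (fenc N w S) then true
          else if fPM t false p.1 (fenc N w S) || fPM t true p.1 (fenc N w S) ||
            fPM t false p.2 (fenc N w S) || fPM t true p.2 (fenc N w S)
          then true else false) = ((matNet N S).cst t p).isSome
        rw [fCM_eq, fUM_eq, fUM_eq, fL_false, fL_true, fPM_eq, fPM_eq, fPM_eq, fPM_eq]
        show _ = Option.isSome (if decide (p.1 = p.2) || !S.um t.succ p.1 || !S.um t.succ p.2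
          then some false
          else if S.cm t && decide (p.1 = (N t).1) && decide (p.2 = (N t).2) then some true
          else if pm N S t false p.1 || pm N S t true p.1 || pm N S t false p.2 ||
            pm N S t true p.2 then some (pm N S t false p.1 || pm N S t true p.2)
          else none)
        split_ifs <;> rfl
      | cv =>
        show (if decide (p.1 = p.2) || !fUM t.succ p.1 (fenc N w S) ||
            !fUM t.succ p.2 (fenc N w S) then false
          else if fCM t (fenc N w S) && fL false t p.1 (fenc N w S) &&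
            fL true t p.2 (fenc N w S) then true
          else if fPM t false p.1 (fenc N w S) || fPM t true p.1 (fenc N w S) ||
            fPM t false p.2 (fenc N w S) || fPM t true p.2 (fenc N w S)
          then fPM t false p.1 (fenc N w S) || fPM t true p.2 (fenc N w S) else false) =
          ((matNet N S).cst t p).getD false
        rw [fCM_eq, fUM_eq, fUM_eq, fL_false, fL_true, fPM_eq, fPM_eq, fPM_eq, fPM_eq]
        show _ = Option.getD (if decide (p.1 = p.2) || !S.um t.succ p.1 || !S.um t.succ p.2
          then some false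
          else if S.cm t && decide (p.1 = (N t).1) && decide (p.2 = (N t).2) then some true
          else if pm N S t false p.1 || pm N S t true p.1 || pm N S t false p.2 ||
            pm N S t true p.2 then some (pm N S t false p.1 || pm N S t true p.2)
          else none) false
        split_ifs <;> rfl
    · rfl

/-- The bits of the next knowledge. -/
theorem fd_next (ι : Type) [Fintype ι] [DecidableEq ι] (m j : ℕ) (hj : Fintype.card ι ≤ 2 ^ j) :
    ∃ F : KB ι m → (FB ι m ⊕ HB (ι × ι) m → Bool) → Bool, (∀ b, FD (4 * j + 40) (F b)) ∧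
      ∀ (N : Net ι m) (w : ι → Bool) (S : Know ι m) (h : HB (ι × ι) m → Bool) b,
        F b (Sum.elim (fenc N w S) h) = kenc (S.next N h) b := by
  have hj2 : Fintype.card (ι × ι) ≤ 2 ^ (j + j) := by
    rw [Fintype.card_prod, pow_add]
    exact Nat.mul_le_mul hj hj
  have hH : ∀ t : Fin m, ∃ H : Bool → (FB ι m ⊕ HB (ι × ι) m → Bool) → Bool,
      (∀ c, FD (2 + (j + j)) (H c)) ∧
      ∀ (N : Net ι m) (w : ι → Bool) (S : Know ι m) (h : HB (ι × ι) m → Bool),
        H false (Sum.elim (fenc N w S) h) = h (true, t.castSucc, ((N t).1, (N t).2)) ∧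
        H true (Sum.elim (fenc N w S) h) = h (true, t.castSucc, ((N t).2, (N t).1)) := by
    intro t
    refine ⟨fun c z => decide (∃ p : ι × ι, ((z (Sum.inl (Sum.inl (Sum.inl (t, c, p.1)))) &&
      z (Sum.inl (Sum.inl (Sum.inl (t, !c, p.2))))) &&
      z (Sum.inr (true, t.castSucc, p))) = true), ?_, ?_⟩
    · intro c
      exact fd_pick hj2 (fun p => (FD.var 0 _).and (FD.var 0 _)) (fun p => FD.var 1 _)
    · intro N w S h
      have h1 : ∀ (x y : ι), decide (∃ p : ι × ι, ((decide (x = p.1) && decide (y = p.2)) &&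
          h (true, t.castSucc, p)) = true) = h (true, t.castSucc, (x, y)) := by
        intro x y
        have h2 := pick_eq (x, y) (fun p => h (true, t.castSucc, p))
        rw [← h2]
        congr 1
        apply propext
        apply exists_congr
        intro p
        simp [Prod.ext_iff]
      exact ⟨h1 (N t).1 (N t).2, h1 (N t).2 (N t).1⟩
  choose H hH1 hH2 using hH
  refine ⟨fun b => match b with
    | Sum.inl (t, false) => fun z => z (Sum.inl (Sum.inr (Sum.inl (t, false)))) &&
        !H t false z && !H t true z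
    | Sum.inl (t, true) => fun z => if z (Sum.inl (Sum.inr (Sum.inl (t, false)))) then
        !H t false z else z (Sum.inl (Sum.inr (Sum.inl (t, true))))
    | Sum.inr (r, t, a) => fun z => z (Sum.inl (Sum.inr (Sum.inr (r, t, a)))), ?_, ?_⟩
  · rintro (⟨t, c⟩ | ⟨r, t, a⟩)
    · cases c with
      | false =>
        have h1 := (FD.var (2 + (j + j) + 1) (Sum.inl (Sum.inr (Sum.inl (t, false))) :
          FB ι m ⊕ HB (ι × ι) m)).and (hH1 t false).neg
        exact (h1.and (hH1 t true).neg.succ).mono (by omega)
      | true =>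
        exact (fd_ite (FD.var (2 + (j + j) + 1) _) (hH1 t false).neg (FD.var _ _)).mono
          (by omega)
    · exact FD.var _ _
  · intro N w S h b
    rcases b with ⟨t, c⟩ | ⟨r, t, a⟩
    · cases c with
      | false =>
        show (S.cm t && !H t false (Sum.elim (fenc N w S) h) &&
          !H t true (Sum.elim (fenc N w S) h)) = _
        rw [(hH2 t N w S h).1, (hH2 t N w S h).2]
        rfl
      | true =>
        show (if S.cm t then !H t false (Sum.elim (fenc N w S) h) else S.sw t) = _
        rw [(hH2 t N w S h).1]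
        rfl
    · rfl

end Pool.Agent.LibCQ62
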