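import Pool.Agent.LibCQ62.Layer

/-! Row A: potential. -/

namespace Pool.Agent.LibCQ62

open Pool.Agent.LibCC Pool.Agent.LibCCQ Finset

variable {L : Type} {m : ℕ}

theorem comb_mono_true {c x y x' y' : Bool} (hx : x = true → x' = true) (hy : y = true → y' = true)
    (h : comb c x y = true) : comb c x' y' = true := by
  revert hx hy h
  cases c <;> cases x <;> cases y <;> cases x' <;> cases y' <;> simp [comb]

theorem comb_mono_false {c x y x' y' : Bool} (hx : x = false → x' = false)
    (hy : y = false → y' = false) (h : comb c x y = false) : comb c x' y' = false := by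
  revert hx hy h
  cases c <;> cases x <;> cases y <;> cases x' <;> cases y' <;> simp [comb]

theorem pre_false_le (N : LNet L m) {K : L → Bool} {t : Fin m} {v w : L → Bool}
    (h : ∀ a, v a = true → w a = true) (a : L) (ha : N.pre K false t v a = true) :
    N.pre (fun _ => false) false t w a = true := by
  unfold LNet.pre at ha ⊢
  by_cases h1 : N.act t a = true
  · rw [if_pos h1] at ha ⊢
    refine comb_mono_true ?_ ?_ ha
    · intro h2
      by_cases hK : K a = true
      · rw [if_pos hK] at h2
        exact absurd h2 (by simp)
      · rw [if_neg hK] at h2
        exact h a h2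
    · intro h2
      by_cases hK : K (N.mate t a) = true
      · rw [if_pos hK] at h2
        exact absurd h2 (by simp)
      · rw [if_neg hK] at h2
        exact h _ h2
  · rw [if_neg h1] at ha ⊢
    by_cases h2 : N.swp t a = true
    · rw [if_pos h2] at ha ⊢
      exact h _ ha
    · rw [if_neg h2] at ha ⊢
      exact h _ ha

theorem le_pre_true (N : LNet L m) {K : L → Bool} {t : Fin m} {v w : L → Bool}
    (h : ∀ a, v a = false → w a = false) (a : L) (ha : N.pre K true t v a = false) :
    N.pre (fun _ => false) false t w a = false := by
  unfold LNet.pre at ha ⊢
  by_cases h1 : N.act t a = true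
  · rw [if_pos h1] at ha ⊢
    refine comb_mono_false ?_ ?_ ha
    · intro h2
      by_cases hK : K a = true
      · rw [if_pos hK] at h2
        exact absurd h2 (by simp)
      · rw [if_neg hK] at h2
        exact h a h2
    · intro h2
      by_cases hK : K (N.mate t a) = true
      · rw [if_pos hK] at h2
        exact absurd h2 (by simp)
      · rw [if_neg hK] at h2
        exact h _ h2
  · rw [if_neg h1] at ha ⊢
    by_cases h2 : N.swp t a = true
    · rw [if_pos h2] at ha ⊢
      exact h _ ha
    · rw [if_neg h2] at ha ⊢
      exact h _ ha

theorem run_succ (N : LNet L m) (K : Fin m → L → Bool) (r : Bool) (s : L → Bool) (t : Fin m)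
    (a : L) : N.run K r s (t + 1) a =
      (N.cst t a).getD (N.pre (K t) r t (N.run K r s t) a) := by
  change (if h : (t : ℕ) < m then _ else _) = _
  rw [dif_pos t.isLt]

theorem run_stop (N : LNet L m) (K : Fin m → L → Bool) (r : Bool) (s : L → Bool) {t : ℕ}
    (ht : ¬ t < m) (a : L) : N.run K r s (t + 1) a = N.run K r s t a := by
  change (if h : t < m then _ else _) = _
  rw [dif_neg ht]

theorem run_false_le (N : LNet L m) (K : Fin m → L → Bool) (s : L → Bool) (t : ℕ) (a : L)
    (h : N.run K false s t a = true) : N.val s t a = true := by
  induction t generalizing a with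
  | zero => exact h
  | succ t ih =>
    by_cases ht : t < m
    · have h1 := run_succ N K false s ⟨t, ht⟩ a
      have h2 := run_succ N (fun _ _ => false) false s ⟨t, ht⟩ a
      change N.run K false s (t + 1) a = _ at h1
      change N.val s (t + 1) a = _ at h2
      rw [h1] at h
      rw [h2]
      rcases hc : N.cst ⟨t, ht⟩ a with _ | c
      · rw [hc] at h
        exact pre_false_le N (fun b hb => ih b hb) a h
      · rw [hc] at h
        exact h
    · rw [run_stop N K false s ht] at h
      have h2 := run_stop N (fun _ _ => false) false s ht a
      change N.val s (t + 1) a = _ at h2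
      rw [h2]
      exact ih a h

theorem le_run_true (N : LNet L m) (K : Fin m → L → Bool) (s : L → Bool) (t : ℕ) (a : L)
    (h : N.run K true s t a = false) : N.val s t a = false := by
  induction t generalizing a with
  | zero => exact h
  | succ t ih =>
    by_cases ht : t < m
    · have h1 := run_succ N K true s ⟨t, ht⟩ a
      have h2 := run_succ N (fun _ _ => false) false s ⟨t, ht⟩ a
      change N.run K true s (t + 1) a = _ at h1
      change N.val s (t + 1) a = _ at h2
      rw [h1] at h
      rw [h2]
      rcases hc : N.cst ⟨t, ht⟩ a with _ | c
      · rw [hc] at h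
        exact le_pre_true N (fun b hb => ih b hb) a h
      · rw [hc] at h
        exact h
    · rw [run_stop N K true s ht] at h
      have h2 := run_stop N (fun _ _ => false) false s ht a
      change N.val s (t + 1) a = _ at h2
      rw [h2]
      exact ih a h

/-- The comparators keep the number of ones, up to the cuts. -/
theorem sum_pre [Fintype L] {N : LNet L m} (hN : N.Valid) (K : L → Bool) (r : Bool) (t : Fin m)
    (v : L → Bool) : ∑ a, (N.pre K r t v a).toNat =
      ∑ a, (if (K a = true ∧ N.act t a = true) then r else v a).toNat := by
  have hb : Function.Involutive (N.mate t) := hN.inv t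
  set u : L → Bool := fun a => if (K a = true ∧ N.act t a = true) then r else v a with hu
  have h1 : ∀ f : L → ℕ, ∑ a, f (N.mate t a) = ∑ a, f a := fun f =>
    Equiv.sum_comp hb.toPerm f
  have h2 : ∀ a, (N.pre K r t v a).toNat + (N.pre K r t v (N.mate t a)).toNat =
      (u a).toNat + (u (N.mate t a)).toNat := by
    intro a
    simp only [LNet.pre, hu, hN.act, hN.swp, hN.inv]
    by_cases ha : N.act t a = true
    · simp only [ha, if_true, and_true, hN.role t a ha]
      generalize (if K a = true then r else v a) = x
      generalize (if K (N.mate t a) = true then r else v (N.mate t a)) = y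
      cases N.role t a <;> cases x <;> cases y <;> rfl
    · simp only [ha, if_false, and_false, Bool.false_eq_true]
      by_cases hs : N.swp t a = true
      · simp only [hs, if_true]
        ring
      · simp only [hs, if_false, Bool.false_eq_true]
  have h3 : ∑ a, ((N.pre K r t v a).toNat + (N.pre K r t v (N.mate t a)).toNat) =
      ∑ a, ((u a).toNat + (u (N.mate t a)).toNat) := Finset.sum_congr rfl (fun a _ => h2 a)
  rw [Finset.sum_add_distrib, Finset.sum_add_distrib, h1 (fun a => (N.pre K r t v a).toNat),
    h1 (fun a => (u a).toNat)] at h3
  change _ = ∑ a, (u a).toNat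
  omega

/-- Number of the lines where `v` is one and `w` is not. -/
def gap [Fintype L] (v w : L → Bool) : ℕ := (univ.filter (fun a => v a = true ∧ w a = false)).card

theorem gap_eq [Fintype L] {v w : L → Bool} (h : ∀ a, w a = true → v a = true) :
    gap v w + ∑ a, (w a).toNat = ∑ a, (v a).toNat := by
  unfold gap
  rw [Finset.card_filter, ← Finset.sum_add_distrib]
  apply Finset.sum_congr rfl
  intro a _
  have := h a
  revert this
  cases v a <;> cases w a <;> simp

theorem sum_cut_le [Fintype L] (A K : L → Bool) (r : Bool) (w : L → Bool) :
    ∑ a, (w a).toNat ≤ ∑ a, (if (K a = true ∧ A a = true) then r else w a).toNat +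
      (univ.filter (fun a => K a = true ∧ A a = true)).card := by
  rw [Finset.card_filter, ← Finset.sum_add_distrib]
  apply Finset.sum_le_sum
  intro a _
  by_cases h : K a = true ∧ A a = true
  · rw [if_pos h, if_pos h]
    have := Bool.toNat_le (w a)
    omega
  · rw [if_neg h, if_neg h]
    omega

/-- One layer. -/
theorem gap_pre_le [Fintype L] {N : LNet L m} (hN : N.Valid) (K : L → Bool) (t : Fin m)
    {v w : L → Bool} (h : ∀ a, w a = true → v a = true) :
    gap (N.pre (fun _ => false) false t v) (N.pre K false t w) ≤ gap v w +
      (univ.filter (fun a => K a = true ∧ N.act t a = true)).card := by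
  have h1 := gap_eq h
  have h2 := gap_eq (v := N.pre (fun _ => false) false t v) (w := N.pre K false t w)
    (fun a ha => pre_false_le N h a ha)
  rw [sum_pre hN, sum_pre hN] at h2
  have h3 : ∑ a, (if ((fun _ : L => false) a = true ∧ N.act t a = true) then false else v a).toNat =
      ∑ a, (v a).toNat := by
    apply Finset.sum_congr rfl
    intro a _
    simp
  rw [h3] at h2
  have h4 := sum_cut_le (N.act t) K false w
  omega

/-- Every bit lost at a constant was lost at a cut before. -/
theorem drops [Fintype L] {N : LNet L m} (hN : N.Valid) (K : Fin m → L → Bool) (s : L → Bool) :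
    ∑ t : Fin m, (univ.filter (fun a => (N.cst t a).isSome = true ∧
      N.pre (fun _ => false) false t (N.val s t) a = true ∧
      N.pre (K t) false t (N.run K false s t) a = false)).card ≤ N.ncut K := by
  classical
  have hstep : ∀ t : Fin m, gap (N.val s (t + 1)) (N.run K false s (t + 1)) +
      (univ.filter (fun a => (N.cst t a).isSome = true ∧
      N.pre (fun _ => false) false t (N.val s t) a = true ∧
      N.pre (K t) false t (N.run K false s t) a = false)).card ≤
      gap (N.val s t) (N.run K false s t) +
        (univ.filter (fun a => K t a = true ∧ N.act t a = true)).card := by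
    intro t
    refine le_trans ?_ (gap_pre_le hN (K t) t (fun a ha => run_false_le N K s t a ha))
    unfold gap
    rw [← Finset.card_union_of_disjoint]
    · apply Finset.card_le_card
      intro a ha
      rw [mem_union, mem_filter, mem_filter] at ha
      rw [mem_filter]
      refine ⟨mem_univ _, ?_⟩
      rcases ha with ⟨-, h1, h2⟩ | ⟨-, -, h⟩
      · have e1 := run_succ N (fun _ _ => false) false s t a
        change N.val s (t + 1) a = _ at e1
        rw [e1] at h1
        rw [run_succ] at h2
        rcases hc : N.cst t a with _ | c
        · rw [hc] at h1 h2
          exact ⟨h1, h2⟩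
        · rw [hc] at h1 h2
          simp only [Option.getD_some] at h1 h2
          rw [h1] at h2
          exact absurd h2 (by simp)
      · exact h
    · rw [Finset.disjoint_left]
      intro a ha hb
      rw [mem_filter] at ha hb
      have e1 := run_succ N (fun _ _ => false) false s t a
      change N.val s (t + 1) a = _ at e1
      rw [e1, run_succ] at ha
      obtain ⟨c, hc⟩ := Option.isSome_iff_exists.1 hb.2.1
      rw [hc] at ha
      simp only [Option.getD_some] at ha
      rw [ha.2.1] at ha
      exact absurd ha.2.2 (by simp)
  have key : ∀ k : ℕ, k ≤ m → gap (N.val s k) (N.run K false s k) +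
      ∑ t ∈ univ.filter (fun t : Fin m => (t : ℕ) < k),
        (univ.filter (fun a => (N.cst t a).isSome = true ∧
        N.pre (fun _ => false) false t (N.val s t) a = true ∧
        N.pre (K t) false t (N.run K false s t) a = false)).card ≤
      ∑ t ∈ univ.filter (fun t : Fin m => (t : ℕ) < k),
        (univ.filter (fun a => K t a = true ∧ N.act t a = true)).card := by
    intro k
    induction k with
    | zero =>
      intro _
      have h0 : gap (N.val s 0) (N.run K false s 0) = 0 := by
        unfold gap
        rw [Finset.card_eq_zero, Finset.filter_eq_empty_iff]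
        rintro a _ ⟨h1, h2⟩
        change s a = true at h1
        change s a = false at h2
        rw [h1] at h2
        exact absurd h2 (by simp)
      rw [h0]
      simp
    | succ k ih =>
      intro hk
      have h1 := ih (by omega)
      have h2 := hstep ⟨k, by omega⟩
      have h3 : univ.filter (fun t : Fin m => (t : ℕ) < k + 1) =
          insert (⟨k, by omega⟩ : Fin m) (univ.filter (fun t : Fin m => (t : ℕ) < k)) := by
        ext t
        simp only [mem_filter, mem_univ, true_and, mem_insert, Fin.ext_iff]
        omega
      have h4 : (⟨k, by omega⟩ : Fin m) ∉ univ.filter (fun t : Fin m => (t : ℕ) < k) := by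
        simp
      rw [h3, Finset.sum_insert h4, Finset.sum_insert h4]
      change gap (N.val s (k + 1)) (N.run K false s (k + 1)) + _ ≤
        gap (N.val s k) (N.run K false s k) + _ at h2
      omega
  have h1 := key m le_rfl
  have h2 : univ.filter (fun t : Fin m => (t : ℕ) < m) = univ := by
    ext t
    simp
  rw [h2] at h1
  exact (Nat.le_add_left _ _).trans h1

/-- Few lines are uncertain. -/
theorem unsure [Fintype L] {N : LNet L m} (hN : N.Valid) (hc : ∀ t a, N.cst t a = none)
    (K : Fin m → L → Bool) (s : L → Bool) (t : ℕ) :
    (univ.filter (fun a => N.run K true s t a = true ∧ N.run K false s t a = false)).card ≤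
      N.ncut K := by
  classical
  change gap (N.run K true s t) (N.run K false s t) ≤ _
  have hle : ∀ t a, N.run K false s t a = true → N.run K true s t a = true := by
    intro t a h
    by_contra hc
    have h1 := le_run_true N K s t a (by simpa using hc)
    rw [run_false_le N K s t a h] at h1
    exact absurd h1 (by simp)
  have hstep : ∀ t : Fin m, gap (N.run K true s (t + 1)) (N.run K false s (t + 1)) ≤
      gap (N.run K true s t) (N.run K false s t) +
        (univ.filter (fun a => K t a = true ∧ N.act t a = true)).card := by
    intro t
    have e : ∀ r, N.run K r s (t + 1) = N.pre (K t) r t (N.run K r s t) := by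
      intro r
      funext a
      rw [run_succ, hc]
      rfl
    have h1 := gap_eq (hle t)
    have h2 := gap_eq (hle (t + 1))
    rw [e, e, sum_pre hN, sum_pre hN] at h2
    rw [e, e]
    have h3 : ∑ a, (if (K t a = true ∧ N.act t a = true) then true
        else N.run K true s t a).toNat + ∑ a, (N.run K false s t a).toNat ≤
        ∑ a, (if (K t a = true ∧ N.act t a = true) then false
        else N.run K false s t a).toNat + ∑ a, (N.run K true s t a).toNat +
        (univ.filter (fun a => K t a = true ∧ N.act t a = true)).card := by
      rw [Finset.card_filter, ← Finset.sum_add_distrib, ← Finset.sum_add_distrib,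
        ← Finset.sum_add_distrib]
      apply Finset.sum_le_sum
      intro a _
      have h4 := hle t a
      by_cases h : K t a = true ∧ N.act t a = true
      · simp only [if_pos h]
        revert h4
        cases N.run K true s t a <;> cases N.run K false s t a <;> simp
      · simp only [if_neg h]
        omega
    omega
  have key : ∀ k : ℕ, k ≤ m → gap (N.run K true s k) (N.run K false s k) ≤
      ∑ t ∈ univ.filter (fun t : Fin m => (t : ℕ) < k),
        (univ.filter (fun a => K t a = true ∧ N.act t a = true)).card := by
    intro k
    induction k with
    | zero =>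
      intro _
      have h0 : gap (N.run K true s 0) (N.run K false s 0) = 0 := by
        unfold gap
        rw [Finset.card_eq_zero, Finset.filter_eq_empty_iff]
        rintro a _ ⟨h1, h2⟩
        change s a = true at h1
        change s a = false at h2
        rw [h1] at h2
        exact absurd h2 (by simp)
      rw [h0]
      simp
    | succ k ih =>
      intro hk
      have h1 := ih (by omega)
      have h2 := hstep ⟨k, by omega⟩
      have h3 : univ.filter (fun t : Fin m => (t : ℕ) < k + 1) =
          insert (⟨k, by omega⟩ : Fin m) (univ.filter (fun t : Fin m => (t : ℕ) < k)) := by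
        ext t
        simp only [mem_filter, mem_univ, true_and, mem_insert, Fin.ext_iff]
        omega
      have h4 : (⟨k, by omega⟩ : Fin m) ∉ univ.filter (fun t : Fin m => (t : ℕ) < k) := by
        simp
      rw [h3, Finset.sum_insert h4]
      change gap (N.run K true s (k + 1)) (N.run K false s (k + 1)) ≤
        gap (N.run K true s k) (N.run K false s k) + _ at h2
      omega
  have key2 : ∀ k : ℕ, gap (N.run K true s k) (N.run K false s k) ≤ N.ncut K := by
    intro k
    by_cases hk : k ≤ m
    · exact (key k hk).trans (Finset.sum_le_sum_of_subset (Finset.subset_univ _))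
    · obtain ⟨j, rfl⟩ := Nat.exists_eq_add_of_le (Nat.le_of_not_le hk)
      have h1 : ∀ r j, N.run K r s (m + j) = N.run K r s m := by
        intro r j
        induction j with
        | zero => rfl
        | succ j ih =>
          funext a
          have := run_stop N K r s (t := m + j) (by omega) a
          rw [show m + (j + 1) = m + j + 1 by ring, this, ih]
      rw [h1, h1]
      exact (key m le_rfl).trans (Finset.sum_le_sum_of_subset (Finset.subset_univ _))
  exact key2 t

end Pool.Agent.LibCQ62
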