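import Pool.Agent.LibCQ62.SMat
import Pool.Agent.LibCQ62.SPot

/-! Row D: one round. -/

namespace Pool.Agent.LibCQ62

open Pool.Agent.LibCC Pool.Agent.LibCCQ Finset

variable {ι : Type} [DecidableEq ι] [Fintype ι] {m : ℕ}

theorem next_sound {N : Net ι m} {S : Know ι m} {w : ι → Bool} (hS : S.Sound N w) {q : ℕ}
    {h : HB (ι × ι) m → Bool} (hM : Marks (matNet N S) (mat0 w) q h) :
    (S.next N h).Sound N w := by
  refine ⟨fun t ht => ?_, fun t ht => ?_, fun t ht hs => ?_, fun t ht hs => ?_, hS.mrk⟩
  · simp only [Know.next, Bool.and_eq_true] at ht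
    exact hS.ne t ht.1.1
  · simp only [Know.next, Bool.and_eq_true] at ht
    exact hS.um t ht.1.1
  · simp only [Know.next] at ht hs
    by_cases hc : S.cm t = true
    · rw [if_pos hc, Bool.not_eq_false'] at hs
      have h1 := hM.sound _ _ _ hs
      exact (mat_val hS t.castSucc _ _ (hS.ne t hc) (hS.um t hc).1 (hS.um t hc).2).1 h1
    · rw [if_neg hc] at hs
      exact hS.nop t (Bool.eq_false_iff.2 hc) hs
  · simp only [Know.next] at ht hs
    by_cases hc : S.cm t = true
    · rw [if_pos hc, Bool.not_eq_true'] at hs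
      rw [hc, hs, Bool.not_false, Bool.and_true, Bool.true_and, Bool.not_eq_false'] at ht
      have h1 := hM.sound _ _ _ ht
      exact (mat_val hS t.castSucc _ _ (hS.ne t hc).symm (hS.um t hc).2 (hS.um t hc).1).1 h1
    · rw [if_neg hc] at hs
      exact hS.swp t (Bool.eq_false_iff.2 hc) hs

/-- The comparators left after a round are bits lost at constants of the order network. -/
theorem next_le_drops {N : Net ι m} {S : Know ι m} {w : ι → Bool} (hS : S.Sound N w)
    {h : HB (ι × ι) m → Bool} {K : Fin m → ι × ι → Bool}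
    (hK : ∀ (t : Fin (m + 1)) (p : ι × ι), (matNet N S).run K false (mat0 w) t p = true →
      h (true, t, p) = true) :
    (S.next N h).nc ≤ ∑ t : Fin m, (univ.filter (fun p => ((matNet N S).cst t p).isSome = true ∧
      (matNet N S).pre (fun _ => false) false t ((matNet N S).val (mat0 w) t) p = true ∧
      (matNet N S).pre (K t) false t ((matNet N S).run K false (mat0 w) t) p = false)).card := by
  rw [Know.nc, Finset.card_filter]
  apply Finset.sum_le_sum
  intro t _
  split_ifs with ht
  · rw [Nat.one_le_iff_ne_zero, Finset.card_ne_zero]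
    refine ⟨((N t).1, (N t).2), ?_⟩
    simp only [Know.next, Bool.and_eq_true, Bool.not_eq_true'] at ht
    obtain ⟨⟨hc, h1⟩, h2⟩ := ht
    have hne := hS.ne t hc
    obtain ⟨u1, u2⟩ := hS.um t hc
    have r1 : (matNet N S).run K false (mat0 w) t ((N t).1, (N t).2) = false := by
      rw [Bool.eq_false_iff]
      intro hr
      rw [hK t.castSucc _ hr] at h1
      exact absurd h1 (by simp)
    have r2 : (matNet N S).run K false (mat0 w) t ((N t).2, (N t).1) = false := by
      rw [Bool.eq_false_iff]
      intro hr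
      rw [hK t.castSucc _ hr] at h2
      exact absurd h2 (by simp)
    have hact : (matNet N S).act t ((N t).1, (N t).2) = true := by
      simp [matNet, tch, hc, hne, u1, u2]
    have hrole : (matNet N S).role t ((N t).1, (N t).2) = true := by
      simp [matNet]
    have hmate : (matNet N S).mate t ((N t).1, (N t).2) = ((N t).2, (N t).1) := by
      simp [matNet]
    have htot := (mat_val hS t.castSucc _ _ hne u1 u2).2
    rw [mem_filter]
    refine ⟨mem_univ _, ?_, ?_, ?_⟩
    · simp only [matNet, hc, decide_true, Bool.true_and, if_true]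
      split_ifs <;> rfl
    · rw [LNet.pre, if_pos hact, hrole, hmate]
      simp only [Bool.false_eq_true, if_false]
      rcases htot with h3 | h3
      · have h4 : (matNet N S).val (mat0 w) t ((N t).1, (N t).2) = true := h3
        rw [h4]
        simp [comb]
      · have h4 : (matNet N S).val (mat0 w) t ((N t).2, (N t).1) = true := h3
        rw [h4]
        simp [comb]
    · rw [LNet.pre, if_pos hact, hrole, hmate, r1, r2, ite_self, ite_self]
      rfl
  · exact Nat.zero_le _

theorem next_nc {N : Net ι m} {S : Know ι m} {w : ι → Bool} (hS : S.Sound N w) {k q : ℕ}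
    (hk : S.Few k) (hq : 1 ≤ q) (hkq : 64 * k ≤ q ^ 2)
    {h : HB (ι × ι) m → Bool} (hM : Marks (matNet N S) (mat0 w) q h) :
    2 * (S.next N h).nc ≤ S.nc := by
  obtain ⟨K, h1, h2⟩ := hM.cuts
  have h3 := next_le_drops hS (h := h) (K := K) (fun t p => h2 false t p)
  have h4 := drops (matNet_valid hS) K (mat0 w)
  have h5 := mat_nact hS hk
  have h6 : (S.next N h).nc ≤ (matNet N S).ncut K := h3.trans h4
  have hq2 : 0 < q ^ 2 := Nat.pow_pos (by omega)
  apply Nat.le_of_mul_le_mul_left _ hq2
  calc q ^ 2 * (2 * (S.next N h).nc) = 2 * (q ^ 2 * (S.next N h).nc) := by ring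
    _ ≤ 2 * (q ^ 2 * (matNet N S).ncut K) :=
      Nat.mul_le_mul_left _ (Nat.mul_le_mul_left _ h6)
    _ ≤ 2 * (16 * (matNet N S).nact) := Nat.mul_le_mul_left _ h1
    _ ≤ 2 * (16 * (2 * k * S.nc)) := Nat.mul_le_mul_left _ (Nat.mul_le_mul_left _ h5)
    _ = 64 * k * S.nc := by ring
    _ ≤ q ^ 2 * S.nc := Nat.mul_le_mul_right _ hkq

end Pool.Agent.LibCQ62
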