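import Pool.Agent.LibCQ62.SKNet
import Pool.Agent.LibCQ62.SNext
import Pool.Agent.LibCQ62.SEnc

/-! Row F: rounds and the evaluator of all networks. -/

namespace Pool.Agent.LibCQ62

open Pool.Agent.LibCC Pool.Agent.LibCC89 Pool.Agent.LibCCQ Finset

/-- One round as a circuit: it maps the bits of sound knowledge with `k` unmarked lines to the
bits of sound knowledge with the same marks and half as many comparators. -/
def RoundC : Prop :=
  ∃ c : ℕ, ∀ (ι : Type) [Fintype ι] [DecidableEq ι] (m q l k : ℕ), 1 ≤ l → 1 ≤ q → q ≤ 2 ^ l →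
    Fintype.card ι + m + 1 ≤ 2 ^ l → 64 * k ≤ q ^ 2 →
    ∃ g : (FB ι m → Bool) → FB ι m → Bool, Cp c l q g ∧
      ∀ (N : Net ι m) (w : ι → Bool) (S : Know ι m), S.Sound N w → S.Few k →
        ∃ S' : Know ι m, g (fenc N w S) = fenc N w S' ∧ S'.Sound N w ∧ S'.Few k ∧
          2 * S'.nc ≤ S.nc

/-! ### Scaling of the parameters -/

theorem Cp.scaleL {α β : Type} {c a l D : ℕ} (hl : 1 ≤ l) {f : (α → Bool) → β → Bool}
    (h : Cp c (a * l) D f) : Cp (c * (a + 1) ^ c + c * a + c) l D f := by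
  obtain ⟨d, hd, h⟩ := h
  refine ⟨d, hd.trans ?_, lev_mono (Nat.pow_le_pow_right (by norm_num) ?_) h⟩
  · apply Nat.mul_le_mul_right
    calc c * (a * l) ^ c = c * a ^ c * l ^ c := by rw [mul_pow]; ring
      _ ≤ c * (a + 1) ^ c * l ^ (c * (a + 1) ^ c + c * a + c) :=
        Nat.mul_le_mul (Nat.mul_le_mul_left _ (Nat.pow_le_pow_left (by omega) _))
          (Nat.pow_le_pow_right hl (by omega))
      _ ≤ _ := Nat.mul_le_mul_right _ (by omega)
  · calc c * (a * l) = c * a * l := by ring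
      _ ≤ _ := Nat.mul_le_mul_right _ (by omega)

theorem Cp.scaleD {α β : Type} {c a l D : ℕ} (hl : 1 ≤ l) {f : (α → Bool) → β → Bool}
    (h : Cp c l (a * D) f) : Cp (c * a + c) l D f := by
  obtain ⟨d, hd, h⟩ := h
  refine ⟨d, hd.trans ?_, lev_mono (Nat.pow_le_pow_right (by norm_num) ?_) h⟩
  · calc c * l ^ c * (a * D) = c * a * l ^ c * D := by ring
      _ ≤ (c * a + c) * l ^ (c * a + c) * D := Nat.mul_le_mul_right _
        (Nat.mul_le_mul (by omega) (Nat.pow_le_pow_right hl (by omega)))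
  · exact Nat.mul_le_mul_right _ (by omega)

theorem Cp.scaleDl {α β : Type} {c l D : ℕ} (hl : 1 ≤ l) {f : (α → Bool) → β → Bool}
    (h : Cp c l (l * D) f) : Cp (c + 1) l D f := by
  obtain ⟨d, hd, h⟩ := h
  refine ⟨d, hd.trans ?_, lev_mono (Nat.pow_le_pow_right (by norm_num) ?_) h⟩
  · calc c * l ^ c * (l * D) = c * l ^ (c + 1) * D := by ring
      _ ≤ (c + 1) * l ^ (c + 1) * D := Nat.mul_le_mul_right _ (Nat.mul_le_mul_right _ (by omega))
  · exact Nat.mul_le_mul_right _ (by omega)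

/-! ### Cardinalities -/

theorem card_NBit {ι : Type} [Fintype ι] {m l : ℕ} (h : Fintype.card ι + m + 1 ≤ 2 ^ l) :
    Fintype.card (NBit ι m) ≤ 2 ^ (3 * l) := by
  have e : Fintype.card (NBit ι m) = m * (2 * Fintype.card ι) + Fintype.card ι := by
    simp [NBit, Fintype.card_sum, Fintype.card_prod]
  rw [e]
  have e1 : (Fintype.card ι + m + 1) ^ 3 ≤ (2 ^ l) ^ 3 := Nat.pow_le_pow_left h 3
  rw [← pow_mul, mul_comm l 3] at e1
  nlinarith [Nat.zero_le (Fintype.card ι), Nat.zero_le m, sq_nonneg (Fintype.card ι + m)]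

theorem card_KB {ι : Type} [Fintype ι] {m l : ℕ} (hl : 1 ≤ l)
    (h : Fintype.card ι + m + 1 ≤ 2 ^ l) :
    Fintype.card (KB ι m) ≤ 2 ^ (3 * l) := by
  have e : Fintype.card (KB ι m) = m * 2 + 2 * ((m + 1) * Fintype.card ι) := by
    simp [KB, Fintype.card_sum, Fintype.card_prod]
  rw [e]
  have h2 : 2 ≤ 2 ^ l := by
    calc 2 = 2 ^ 1 := rfl
      _ ≤ 2 ^ l := Nat.pow_le_pow_right (by norm_num) hl
  have e1 : 2 ^ l * (Fintype.card ι + m + 1) ^ 2 ≤ 2 ^ l * (2 ^ l) ^ 2 :=
    Nat.mul_le_mul_left _ (Nat.pow_le_pow_left h 2)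
  have e3 : 2 ^ l * (2 ^ l) ^ 2 = 2 ^ (3 * l) := by
    rw [← pow_mul, ← pow_add]
    congr 1
    ring
  rw [e3] at e1
  have e2 : 2 * (Fintype.card ι + m + 1) ^ 2 ≤ 2 ^ l * (Fintype.card ι + m + 1) ^ 2 :=
    Nat.mul_le_mul_right _ h2
  nlinarith [Nat.zero_le (Fintype.card ι), Nat.zero_le m]

theorem card_FB {ι : Type} [Fintype ι] {m l : ℕ} (hl : 1 ≤ l)
    (h : Fintype.card ι + m + 1 ≤ 2 ^ l) :
    Fintype.card (FB ι m) ≤ 2 ^ (4 * l) := by
  have e : Fintype.card (FB ι m) = Fintype.card (NBit ι m) + Fintype.card (KB ι m) := by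
    simp only [FB, Fintype.card_sum]
  rw [e]
  have h1 := card_NBit h
  have h2 := card_KB hl h
  calc _ ≤ 2 ^ (3 * l) + 2 ^ (3 * l) := Nat.add_le_add h1 h2
    _ = 2 ^ (3 * l + 1) := by rw [pow_succ]; ring
    _ ≤ _ := Nat.pow_le_pow_right (by norm_num) (by omega)

theorem card_LB {L : Type} [Fintype L] {m l : ℕ} (hl : 1 ≤ l)
    (h : (Fintype.card L + 1) * (m + 1) ≤ 2 ^ l) :
    Fintype.card (LB L m) ≤ 2 ^ (5 * l) := by
  have e0 : Fintype.card Fld = 5 := rfl
  have e : Fintype.card (LB L m) = m * (Fintype.card L * Fintype.card L) +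
      (m * (Fintype.card L * 5) + Fintype.card L) := by
    simp [LB, Fintype.card_sum, Fintype.card_prod, e0]
  rw [e]
  have h2 : 2 ≤ 2 ^ l := by
    calc 2 = 2 ^ 1 := rfl
      _ ≤ 2 ^ l := Nat.pow_le_pow_right (by norm_num) hl
  have h8 : 8 ≤ 2 ^ (3 * l) := by
    calc 8 = 2 ^ 3 := rfl
      _ ≤ 2 ^ (3 * l) := Nat.pow_le_pow_right (by norm_num) (by omega)
  have e1 : ((Fintype.card L + 1) * (m + 1)) ^ 2 ≤ (2 ^ l) ^ 2 := Nat.pow_le_pow_left h 2
  have e3 : 2 ^ (3 * l) * (2 ^ l) ^ 2 = 2 ^ (5 * l) := by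
    rw [← pow_mul, ← pow_add]
    congr 1
    ring
  have e4 : 8 * ((Fintype.card L + 1) * (m + 1)) ^ 2 ≤ 2 ^ (5 * l) := by
    rw [← e3]
    exact Nat.mul_le_mul h8 e1
  refine le_trans ?_ e4
  have e5 : m ≤ (m + 1) ^ 2 := by nlinarith [Nat.zero_le m]
  have e6 : Fintype.card L * Fintype.card L + Fintype.card L * 5 + Fintype.card L ≤
      8 * (Fintype.card L + 1) ^ 2 := by nlinarith [Nat.zero_le (Fintype.card L)]
  calc m * (Fintype.card L * Fintype.card L) + (m * (Fintype.card L * 5) + Fintype.card L)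
      ≤ (m + 1) ^ 2 * (Fintype.card L * Fintype.card L + Fintype.card L * 5 + Fintype.card L) := by
        have : 1 ≤ (m + 1) ^ 2 := Nat.pow_pos (by omega)
        nlinarith [Nat.mul_le_mul_right (Fintype.card L * Fintype.card L + Fintype.card L * 5) e5,
          Nat.mul_le_mul_right (Fintype.card L) this]
    _ ≤ (m + 1) ^ 2 * (8 * (Fintype.card L + 1) ^ 2) := Nat.mul_le_mul_left _ e6
    _ = _ := by ring

theorem card_HB {L : Type} [Fintype L] {m l : ℕ} (hl : 1 ≤ l)
    (h : (Fintype.card L + 1) * (m + 1) ≤ 2 ^ l) :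
    Fintype.card (HB L m) ≤ 2 ^ (2 * l) := by
  have e : Fintype.card (HB L m) = 2 * ((m + 1) * Fintype.card L) := by
    simp [HB, Fintype.card_prod]
  rw [e]
  have h2 : 2 ≤ 2 ^ l := by
    calc 2 = 2 ^ 1 := rfl
      _ ≤ 2 ^ l := Nat.pow_le_pow_right (by norm_num) hl
  calc 2 * ((m + 1) * Fintype.card L) ≤ 2 * ((Fintype.card L + 1) * (m + 1)) := by nlinarith
    _ ≤ 2 ^ l * 2 ^ l := Nat.mul_le_mul h2 h
    _ = _ := by rw [← pow_add]; congr 1; ring

theorem size_mat {ι : Type} [Fintype ι] {m l : ℕ} (h : Fintype.card ι + m + 1 ≤ 2 ^ l) :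
    (Fintype.card (ι × ι) + 1) * (m + 1) ≤ 2 ^ (3 * l) := by
  have e1 : (Fintype.card ι + m + 1) ^ 3 ≤ (2 ^ l) ^ 3 := Nat.pow_le_pow_left h 3
  rw [← pow_mul, mul_comm l 3] at e1
  refine le_trans ?_ e1
  rw [Fintype.card_prod]
  have a1 : Fintype.card ι * Fintype.card ι + 1 ≤ (Fintype.card ι + m + 1) ^ 2 := by
    nlinarith [Nat.zero_le (Fintype.card ι), Nat.zero_le m]
  calc (Fintype.card ι * Fintype.card ι + 1) * (m + 1)
      ≤ (Fintype.card ι + m + 1) ^ 2 * (Fintype.card ι + m + 1) :=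
        Nat.mul_le_mul a1 (by omega)
    _ = _ := by ring

theorem size_net {ι : Type} [Fintype ι] {m l : ℕ} (h : Fintype.card ι + m + 1 ≤ 2 ^ l) :
    (Fintype.card ι + 1) * (m + 1) ≤ 2 ^ (2 * l) := by
  have e1 : (Fintype.card ι + m + 1) ^ 2 ≤ (2 ^ l) ^ 2 := Nat.pow_le_pow_left h 2
  rw [← pow_mul, mul_comm l 2] at e1
  refine le_trans ?_ e1
  nlinarith [Nat.zero_le (Fintype.card ι), Nat.zero_le m]

/-! ### One round -/

theorem next_few {ι : Type} [DecidableEq ι] [Fintype ι] {m : ℕ} {N : Net ι m} {S : Know ι m}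
    {k : ℕ} (h : HB (ι × ι) m → Bool) (hk : S.Few k) : (S.next N h).Few k := hk

theorem roundC (h : LayerEval) : RoundC := by
  obtain ⟨c, hc⟩ := h
  apply Exists.intro
  intro ι _ _ m q l k hl hq hql hs hk
  · have hl3 : 1 ≤ 3 * l := by omega
    have hι : Fintype.card ι ≤ 2 ^ l := by omega
    obtain ⟨f, hf, hM⟩ := hc (ι × ι) m q (3 * l) hl3 hq
      (hql.trans (Nat.pow_le_pow_right (by norm_num) (by omega))) (size_mat hs)
    obtain ⟨F1, hF1, hF1'⟩ := fd_matNet ι m l hι
    obtain ⟨F2, hF2, hF2'⟩ := fd_next ι m l hι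
    have cLB : Fintype.card (LB (ι × ι) m) ≤ 2 ^ (5 * 3 * l) := by
      have := card_LB hl3 (size_mat hs)
      rwa [← mul_assoc] at this
    have cHB : Fintype.card (HB (ι × ι) m) ≤ 2 ^ (2 * 3 * l) := by
      have := card_HB hl3 (size_mat hs)
      rwa [← mul_assoc] at this
    have cFB : Fintype.card (FB ι m) ≤ 2 ^ (4 * l) := card_FB hl hs
    -- bits of the order network
    have g1 := Cp.fd (c := 44) (D := q) hl hq F1 hF1 (by omega)
      (cLB.trans (Nat.pow_le_pow_right (by norm_num) (by omega)))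
    -- marks
    have g2 := Cp.comp hl hq g1 (Cp.scaleL hl hf) cLB cHB
    -- next knowledge
    have g3 := Cp.layer (a := 44) hl (by omega) g2 cHB
      (fun (e : FB ι m) (y : FB ι m ⊕ HB (ι × ι) m → Bool) => match e with
        | Sum.inl b => y (Sum.inl (Sum.inl b))
        | Sum.inr b => F2 b y)
      (fun e => by
        rcases e with b | b
        · exact FD.var (4 * l + 40) _
        · exact hF2 b)
      (by omega) (cFB.trans (Nat.pow_le_pow_right (by norm_num) (by omega)))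
    have e4 : 2 * (q + q) = 4 * q := by ring
    rw [e4] at g3
    have g4 := Cp.scaleD hl g3
    refine ⟨_, g4, fun N w S hS hF => ?_⟩
    set hb : HB (ι × ι) m → Bool := f (fun b => F1 b (fenc N w S)) with hhb
    have hb' : hb = f ((matNet N S).enc (mat0 w)) := by
      rw [hhb]
      congr 1
      funext b
      exact hF1' N w S b
    have hMk : Marks (matNet N S) (mat0 w) q hb := by
      rw [hb']
      exact hM _ _ (matNet_valid hS)
    refine ⟨S.next N hb, ?_, next_sound hS hMk, next_few hb hF, next_nc hS hF hq hk hMk⟩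
    funext e
    rcases e with b | b
    · rfl
    · exact hF2' N w S hb b

/-- `j` rounds. -/
theorem rounds_iter {ι : Type} [Fintype ι] [DecidableEq ι] {m k : ℕ}
    {g : (FB ι m → Bool) → FB ι m → Bool}
    (hg : ∀ (N : Net ι m) (w : ι → Bool) (S : Know ι m), S.Sound N w → S.Few k →
        ∃ S' : Know ι m, g (fenc N w S) = fenc N w S' ∧ S'.Sound N w ∧ S'.Few k ∧
          2 * S'.nc ≤ S.nc)
    (j : ℕ) (N : Net ι m) (w : ι → Bool) (S : Know ι m) (hS : S.Sound N w) (hk : S.Few k) :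
    ∃ S' : Know ι m, g^[j] (fenc N w S) = fenc N w S' ∧ S'.Sound N w ∧ S'.Few k ∧
      2 ^ j * S'.nc ≤ S.nc := by
  induction j with
  | zero => exact ⟨S, rfl, hS, hk, by simp⟩
  | succ j ih =>
    obtain ⟨S', h1, h2, h3, h4⟩ := ih
    obtain ⟨S'', h5, h6, h7, h8⟩ := hg N w S' h2 h3
    refine ⟨S'', ?_, h6, h7, ?_⟩
    · rw [Function.iterate_succ_apply', h1, h5]
    · calc 2 ^ (j + 1) * S''.nc = 2 ^ j * (2 * S''.nc) := by ring
        _ ≤ 2 ^ j * S'.nc := Nat.mul_le_mul_left _ h8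
        _ ≤ _ := h4

/-- Iteration in the calculus. -/
theorem Cp.iterate {α β : Type} [Fintype β] {b c c' l D D' : ℕ} (hl : 1 ≤ l) (hD : 1 ≤ D)
    (hD' : 1 ≤ D') {f : (α → Bool) → β → Bool} {g : (β → Bool) → β → Bool} (hf : Cp c l D f)
    (hg : Cp c' l D' g) (hβ : Fintype.card β ≤ 2 ^ (b * l)) (j : ℕ) :
    Cp (b + c + c' + 4) l (D + j * D') (fun x => g^[j] (f x)) := by
  obtain ⟨d, hd, hf⟩ := hf
  obtain ⟨d', hd', hg⟩ := hg
  have hW1 : Fintype.card β ≤ 2 ^ ((b + c + c' + 4) * l) :=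
    hβ.trans (Nat.pow_le_pow_right (by norm_num) (Nat.mul_le_mul_right _ (by omega)))
  have hW2 : Fintype.card β + 2 ^ (c' * l) ≤ 2 ^ ((b + c + c' + 4) * l) :=
    (Nat.add_le_add_right hβ _).trans (width_add hl (by omega))
  have h1 : Lev α (2 ^ ((b + c + c' + 4) * l)) (d + j * (d' + 2)) β (fun x => g^[j] (f x)) := by
    induction j with
    | zero =>
      have := lev_mono (W' := 2 ^ ((b + c + c' + 4) * l))
        (Nat.pow_le_pow_right (by norm_num) (Nat.mul_le_mul_right _ (by omega))) hf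
      simpa using this
    | succ j ih =>
      have h2 := lev_comp ih hg le_rfl hW2 hW1
      have e : d + j * (d' + 2) + d' + 2 = d + (j + 1) * (d' + 2) := by ring
      rw [e] at h2
      exact Lev.congr h2 (fun x e => by rw [Function.iterate_succ_apply'])
  refine ⟨_, ?_, h1⟩
  set C := b + c + c' + 4 with hC
  have e1 : c * l ^ c * D ≤ c * (l ^ C * D) := by
    rw [mul_assoc]
    exact Nat.mul_le_mul_left _ (Nat.mul_le_mul_right _ (Nat.pow_le_pow_right hl (by omega)))
  have e2 : c' * l ^ c' * D' ≤ c' * (l ^ C * D') := by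
    rw [mul_assoc]
    exact Nat.mul_le_mul_left _ (Nat.mul_le_mul_right _ (Nat.pow_le_pow_right hl (by omega)))
  have e3 : 1 ≤ l ^ C * D' := Nat.mul_pos (Nat.pow_pos (by omega)) hD'
  have e4 : d' + 2 ≤ (c' + 2) * (l ^ C * D') := by
    have : (c' + 2) * (l ^ C * D') = c' * (l ^ C * D') + 2 * (l ^ C * D') := by ring
    omega
  calc d + j * (d' + 2) ≤ c * (l ^ C * D) + j * ((c' + 2) * (l ^ C * D')) :=
        Nat.add_le_add (hd.trans e1) (Nat.mul_le_mul_left _ e4)
    _ ≤ C * (l ^ C * D) + C * (l ^ C * (j * D')) := by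
        have a1 : c * (l ^ C * D) ≤ C * (l ^ C * D) := Nat.mul_le_mul_right _ (by omega)
        have a2 : j * ((c' + 2) * (l ^ C * D')) ≤ C * (l ^ C * (j * D')) := by
          calc j * ((c' + 2) * (l ^ C * D')) = (c' + 2) * (l ^ C * (j * D')) := by ring
            _ ≤ _ := Nat.mul_le_mul_right _ (by omega)
        omega
    _ = C * l ^ C * (D + j * D') := by ring

/-- The bits of the network and the bits of the knowledge at the start. -/
def addK {ι : Type} {m : ℕ} (F : KB ι m → (NBit ι m ⊕ HB ι m → Bool) → Bool) (e : FB ι m)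
    (y : NBit ι m ⊕ HB ι m → Bool) : Bool :=
  match e with
  | Sum.inl b => y (Sum.inl b)
  | Sum.inr b => F b y

theorem fd_addK {ι : Type} {m k : ℕ} {F : KB ι m → (NBit ι m ⊕ HB ι m → Bool) → Bool}
    (hF : ∀ b, FD k (F b)) (e : FB ι m) : FD k (addK F e) := by
  rcases e with b | b
  · exact FD.var k _
  · exact hF b

theorem addK_eq {ι : Type} [DecidableEq ι] {m : ℕ}
    {F : KB ι m → (NBit ι m ⊕ HB ι m → Bool) → Bool}
    (hF : ∀ (N : Net ι m) (w : ι → Bool) (h : HB ι m → Bool) b,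
        F b (Sum.elim (enc N w) h) = kenc (know0 N h) b)
    (N : Net ι m) (w : ι → Bool) (h : HB ι m → Bool) :
    (fun e => addK F e (Sum.elim (enc N w) h)) = fenc N w (know0 N h) := by
  funext e
  rcases e with b | b
  · rfl
  · exact hF N w h b

/-- From the marks of layered networks to the evaluator of all networks. -/
theorem allNets_of_layerEval (h : LayerEval) : AllNets := by
  obtain ⟨c1, hR⟩ := roundC h
  obtain ⟨c, hc⟩ := h
  apply Exists.intro
  intro n m q l hl hq hql hs hnm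
  · -- parameters
    have hl2 : 1 ≤ 2 * l := by omega
    have hι : Fintype.card (Fin n) ≤ 2 ^ l := by
      rw [Fintype.card_fin]
      omega
    have hs' : Fintype.card (Fin n) + m + 1 ≤ 2 ^ l := by rwa [Fintype.card_fin]
    have h32 : 32 * q ≤ 2 ^ (6 * l) := by
      calc 32 * q ≤ 2 ^ 5 * 2 ^ l := Nat.mul_le_mul (by norm_num) hql
        _ = 2 ^ (5 + l) := by rw [pow_add]
        _ ≤ _ := Nat.pow_le_pow_right (by norm_num) (by omega)
    obtain ⟨f, hf, hM⟩ := hc (Fin n) m q (2 * l) hl2 hq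
      (hql.trans (Nat.pow_le_pow_right (by norm_num) (by omega))) (size_net hs')
    obtain ⟨g, hg, hg'⟩ := hR (Fin n) m (32 * q) (6 * l) (16 * q ^ 2) (by omega) (by omega) h32
      (hs'.trans (Nat.pow_le_pow_right (by norm_num) (by omega))) (by ring_nf; exact le_rfl)
    obtain ⟨F1, hF1, hF1'⟩ := fd_kNet (Fin n) m l hι
    obtain ⟨F2, hF2, hF2'⟩ := fd_know0 (Fin n) m l hι
    have cLB : Fintype.card (LB (Fin n) m) ≤ 2 ^ (5 * 2 * l) := by
      have := card_LB hl2 (size_net hs')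
      rwa [← mul_assoc] at this
    have cHB : Fintype.card (HB (Fin n) m) ≤ 2 ^ (2 * 2 * l) := by
      have := card_HB hl2 (size_net hs')
      rwa [← mul_assoc] at this
    have cFB : Fintype.card (FB (Fin n) m) ≤ 2 ^ (4 * l) := card_FB hl hs'
    have up : ∀ {x a b : ℕ}, x ≤ 2 ^ (a * l) → a ≤ b → x ≤ 2 ^ (b * l) := by
      intro x a b hx hab
      exact hx.trans (Nat.pow_le_pow_right (by norm_num) (Nat.mul_le_mul_right _ hab))
    have hfs := Cp.scaleL hl hf
    -- no marks
    have p1 : Cp _ l q (fun (_ : NBit (Fin n) m → Bool) (_ : HB (Fin n) m) => false) :=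
      Cp.fd (c := 44) (k := 0) hl hq (fun (_ : HB (Fin n) m) (_ : NBit (Fin n) m → Bool) => false)
        (fun _ => FD.const 0 false) (by omega) (up cHB (by norm_num))
    -- knowledge without marks
    have p2 := Cp.layer (a := 44) hl hq p1 cHB (addK F2) (fd_addK hF2)
      (by omega) (up cFB (by norm_num))
    -- bits of the network
    have p3 := Cp.comp hl (by omega) p2
      (Cp.fd (c := 44) (D := q) hl hq F1 hF1 (by omega) (up cLB (by norm_num))) cFB cLB
    -- marks of stage 0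
    have p4 := Cp.comp hl (by omega) p3 hfs cLB cHB
    -- knowledge at the start
    have p5 := Cp.layer (a := 44) hl (by omega) p4 cHB (addK F2) (fd_addK hF2)
      (by omega) (up cFB (by norm_num))
    -- rounds
    have p6 := Cp.iterate hl (by omega) (by omega) p5 (Cp.scaleL hl hg) cFB l
    have e6 : 2 * (2 * q + q + q) + l * (32 * q) ≤ l * (40 * q) := by nlinarith
    have p7 := Cp.scaleDl hl (p6.mono hl le_rfl e6)
    have p8 := Cp.scaleD hl p7
    -- marks at the end
    have p9 := Cp.comp hl hq p8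
      (Cp.fd (c := 44) (D := q) hl hq F1 hF1 (by omega) (up cLB (by norm_num))) cFB cLB
    have p10 := Cp.comp hl (by omega) p9 hfs cLB cHB
    have cO : Fintype.card (Fin (m + 1) × Fin n) ≤ 2 ^ (2 * l) := by
      have := size_net hs'
      rw [Fintype.card_prod, Fintype.card_fin]
      rw [Fintype.card_fin] at this ⊢
      nlinarith
    have p11 := Cp.sel hl (by omega) p10 cO
      (fun a : Fin (m + 1) × Fin n => ((true, a.1, a.2) : HB (Fin n) m))
    have e11 : q + q + q ≤ 3 * q := by omega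
    have p12 := Cp.scaleD hl (p11.mono hl le_rfl e11)
    obtain ⟨d, hd, hL⟩ := p12
    refine ⟨d, hd, _, hL, fun N w t a => ?_⟩
    have hS00 : (know0 N (fun _ => false)).Sound N w := know0_sound N w _ (by simp)
    have hb1 : f (fun b => F1 b (fenc N w (know0 N (fun _ => false)))) =
        f ((kNet N (know0 N (fun _ => false))).enc w) := by
      congr 1
      funext b
      exact hF1' N w _ b
    have hM0 : Marks (kNet N (know0 N (fun _ => false))) w q
        (f ((kNet N (know0 N (fun _ => false))).enc w)) :=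
      hM _ _ (kNet_valid N _ hS00.ne)
    set h0 := f ((kNet N (know0 N (fun _ => false))).enc w) with hh0
    have hs0 : ∀ r t a, h0 (r, t, a) = true → st N w t a = r := by
      intro r t a hr
      rw [← kNet_val hS00]
      exact hM0.sound r t a hr
    have hS0 : (know0 N h0).Sound N w := know0_sound N w h0 hs0
    have hF0 : (know0 N h0).Few (16 * q ^ 2) := by
      rcases hnm with hn | hm
      · intro t
        refine (Finset.card_le_univ _).trans ?_
        rw [Fintype.card_fin]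
        nlinarith
      · refine know0_few hq hM0 ?_
        calc 16 * m ≤ 16 * q ^ 4 := Nat.mul_le_mul_left _ hm
          _ = _ := by ring
    obtain ⟨S, hS1, hS2, hS3, hS4⟩ := rounds_iter hg' l N w _ hS0 hF0
    have hnc : S.nc = 0 := by
      by_contra hne
      have h1 : 2 ^ l ≤ 2 ^ l * S.nc := Nat.le_mul_of_pos_right _ (Nat.pos_of_ne_zero hne)
      have h2 : (know0 N h0).nc ≤ m := by
        refine (Finset.card_le_univ _).trans ?_
        rw [Fintype.card_fin]
      omega
    have hMf : Marks (kNet N S) w q (f ((kNet N S).enc w)) := hM _ _ (kNet_valid N _ hS2.ne)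
    rw [← final_marks hS2 hnc hMf t a]
    change f (fun b => F1 b (g^[l] (fun e => addK F2 e (Sum.elim (enc N w)
      (f (fun b => F1 b (fun e => addK F2 e (Sum.elim (enc N w) (fun _ => false)))))))))
        (true, t, a) = _
    have i1 : f (fun b => F1 b (fun e => addK F2 e (Sum.elim (enc N w) (fun _ => false)))) =
        h0 := by
      rw [addK_eq hF2', hb1]
    have i2 : f (fun b => F1 b (fenc N w S)) = f ((kNet N S).enc w) :=
      congrArg f (funext fun b => hF1' N w _ b)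
    rw [i1, addK_eq hF2', hS1, i2]

end Pool.Agent.LibCQ62
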