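import Pool.Agent.LibCQ62.TSplus
import Pool.Agent.LibCQ62.BrEval
import Pool.Agent.LibCQ62.SRound
import Pool.Agent.LibCCQ.P5Final

/-!
Depth `min (m ^ (1 / 4)) (n ^ (1 / 2))` up to logarithms for comparator circuits.
-/

namespace Pool.Agent.LibCQ62

open Pool.Agent.LibCC Pool.Agent.LibCCQ

theorem allNets : AllNets := allNets_of_layerEval (layerEval_of_splus splusAct_holds)

theorem quarterRoot : FinalQ := finalQ_of_allNets allNets

end Pool.Agent.LibCQ62
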