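import Pool.Agent.LibCQ62.Layer

/-!
Knowledge about the steps and lines of a network; the layered network and the order network
defined by it.
-/

namespace Pool.Agent.LibCQ62

open Pool.Agent.LibCC Pool.Agent.LibCCQ Finset

variable {ι : Type} {m : ℕ}

/-- Bits of knowledge: `cm t`: step `t` is still a comparator; if not, `sw t` says whether it
exchanges its two lines or does nothing; `mrk r t a`: the line `a` carries `r` after `t` steps. -/
structure Know (ι : Type) (m : ℕ) where
  cm : Fin m → Bool
  sw : Fin m → Bool
  mrk : Bool → Fin (m + 1) → ι → Bool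

/-- The line is not marked. -/
def Know.um (S : Know ι m) (t : Fin (m + 1)) (a : ι) : Bool := !S.mrk false t a && !S.mrk true t a

structure Know.Sound [DecidableEq ι] (S : Know ι m) (N : Net ι m) (w : ι → Bool) : Prop where
  ne : ∀ t, S.cm t = true → (N t).1 ≠ (N t).2
  um : ∀ t, S.cm t = true → S.um t.castSucc (N t).1 = true ∧ S.um t.castSucc (N t).2 = true
  nop : ∀ t, S.cm t = false → S.sw t = false → st N w t (N t).1 ≤ st N w t (N t).2
  swp : ∀ t, S.cm t = false → S.sw t = true → st N w t (N t).2 ≤ st N w t (N t).1
  mrk : ∀ r t a, S.mrk r t a = true → st N w t a = r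

/-- At most `k` lines are unmarked at any time. -/
def Know.Few [Fintype ι] (S : Know ι m) (k : ℕ) : Prop :=
  ∀ t, (univ.filter (fun a => S.um t a = true)).card ≤ k

/-- Number of comparators left. -/
def Know.nc (S : Know ι m) : ℕ := (univ.filter (fun t => S.cm t = true)).card

section nets

variable [DecidableEq ι] (N : Net ι m) (S : Know ι m)

/-- The line takes part in the step. -/
def tch (t : Fin m) (a : ι) : Bool := decide (a = (N t).1) || decide (a = (N t).2)

/-- The network as a layered network, using the knowledge on the steps. -/
def kNet : LNet ι m where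
  mate t := Equiv.swap (N t).1 (N t).2
  act t a := S.cm t && tch N t a
  swp t _ := !S.cm t && S.sw t
  role t a := decide (a = (N t).2)
  cst _ _ := none

/-- The line at time `t` whose content is on the line `a` after step `t`, if the step is not a
comparator. -/
def prv (t : Fin m) (a : ι) : ι :=
  if !S.cm t && S.sw t then Equiv.swap (N t).1 (N t).2 a else a

/-- The bit which the line `a` carries after step `t`, if it comes from a marked line. -/
def pm (t : Fin m) (r : Bool) (a : ι) : Bool :=
  !(S.cm t && tch N t a) && S.mrk r t.castSucc (prv N S t a)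

/-- The order network: the line `(a, b)` is to carry the bit `v a ≤ v b`. -/
def matNet : LNet (ι × ι) m where
  mate t p := (Equiv.swap (N t).1 (N t).2 p.1, Equiv.swap (N t).1 (N t).2 p.2)
  act t p := S.cm t && !decide (p.1 = p.2) && (tch N t p.1 || tch N t p.2) &&
    S.um t.castSucc p.1 && S.um t.castSucc p.2
  swp t _ := !S.cm t && S.sw t
  role t p := decide (p.1 = (N t).1) || decide (p.2 = (N t).2)
  cst t p :=
    if decide (p.1 = p.2) || !S.um t.succ p.1 || !S.um t.succ p.2 then some false
    else if S.cm t && decide (p.1 = (N t).1) && decide (p.2 = (N t).2) then some true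
    else if pm N S t false p.1 || pm N S t true p.1 || pm N S t false p.2 || pm N S t true p.2
    then some (pm N S t false p.1 || pm N S t true p.2)
    else none

end nets

/-- The order of the bits at the start. -/
def mat0 (w : ι → Bool) (p : ι × ι) : Bool := !w p.1 || w p.2

/-- The knowledge after one round, from the marks of the order network. -/
def Know.next (S : Know ι m) (N : Net ι m) (h : HB (ι × ι) m → Bool) : Know ι m where
  cm t := S.cm t && !h (true, t.castSucc, ((N t).1, (N t).2)) &&
    !h (true, t.castSucc, ((N t).2, (N t).1))
  sw t := if S.cm t then !h (true, t.castSucc, ((N t).1, (N t).2)) else S.sw t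
  mrk := S.mrk

/-- The knowledge at the start, from marks of the lines. -/
def know0 [DecidableEq ι] (N : Net ι m) (h : HB ι m → Bool) : Know ι m where
  cm t := !decide ((N t).1 = (N t).2) &&
    !(h (false, t.castSucc, (N t).1) || h (true, t.castSucc, (N t).1) ||
      h (false, t.castSucc, (N t).2) || h (true, t.castSucc, (N t).2))
  sw t := !decide ((N t).1 = (N t).2) &&
    !(h (false, t.castSucc, (N t).1) || h (true, t.castSucc, (N t).2))
  mrk r t a := h (r, t, a)

end Pool.Agent.LibCQ62
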