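import Pool.Agent.LibCCQ.Splus

/-!
Layered comparator networks: in every layer the lines meet in disjoint pairs. Runs with cut
ports, instance bits, marks. Statements of the interface.
-/

namespace Pool.Agent.LibCQ62

open Pool.Agent.LibCC Pool.Agent.LibCCQ Finset

/-- Layered network with `m` layers on the lines `L`. In layer `t` the lines `a` and `mate t a`
meet in a comparator if `act t a` (the line with `role` gets the disjunction), they are exchanged
if `swp t a`, otherwise nothing happens; after that the line `a` is set to the constant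
`cst t a` if there is one. -/
structure LNet (L : Type) (m : ℕ) where
  mate : Fin m → L → L
  act : Fin m → L → Bool
  swp : Fin m → L → Bool
  role : Fin m → L → Bool
  cst : Fin m → L → Option Bool

variable {L : Type} {m : ℕ}

structure LNet.Valid (N : LNet L m) : Prop where
  inv : ∀ t a, N.mate t (N.mate t a) = a
  act : ∀ t a, N.act t (N.mate t a) = N.act t a
  swp : ∀ t a, N.swp t (N.mate t a) = N.swp t a
  role : ∀ t a, N.act t a = true → N.role t (N.mate t a) = !N.role t a

/-- The bit of the line `a` after the comparators of layer `t`, before the constants; the lines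
in `K` read `r`. -/
def LNet.pre (N : LNet L m) (K : L → Bool) (r : Bool) (t : Fin m) (v : L → Bool) (a : L) :
    Bool :=
  if N.act t a then comb (N.role t a) (if K a then r else v a)
    (if K (N.mate t a) then r else v (N.mate t a))
  else if N.swp t a then v (N.mate t a) else v a

/-- The bits of the lines after `t` layers if the lines in `K t` are cut before the comparators
of layer `t` and these comparators read `r`. -/
def LNet.run (N : LNet L m) (K : Fin m → L → Bool) (r : Bool) (s : L → Bool) : ℕ → L → Bool
  | 0 => s
  | t + 1 => fun a => if h : t < m then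
      (N.cst ⟨t, h⟩ a).getD (N.pre (K ⟨t, h⟩) r ⟨t, h⟩ (N.run K r s t) a) else N.run K r s t a

/-- The run without cuts. -/
def LNet.val (N : LNet L m) (s : L → Bool) : ℕ → L → Bool := N.run (fun _ _ => false) false s

/-- Fields of a line in a layer. -/
inductive Fld | act | swp | rol | ck | cv
  deriving DecidableEq, Fintype

/-- Instance bits of a layered network and its start. -/
abbrev LB (L : Type) (m : ℕ) : Type := (Fin m × L × L) ⊕ (Fin m × L × Fld) ⊕ L

def LNet.enc [DecidableEq L] (N : LNet L m) (s : L → Bool) : LB L m → Bool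
  | Sum.inl (t, a, b) => decide (N.mate t a = b)
  | Sum.inr (Sum.inl (t, a, Fld.act)) => N.act t a
  | Sum.inr (Sum.inl (t, a, Fld.swp)) => N.swp t a
  | Sum.inr (Sum.inl (t, a, Fld.rol)) => N.role t a
  | Sum.inr (Sum.inl (t, a, Fld.ck)) => (N.cst t a).isSome
  | Sum.inr (Sum.inl (t, a, Fld.cv)) => (N.cst t a).getD false
  | Sum.inr (Sum.inr a) => s a

/-- Number of cut ports. -/
def LNet.ncut [Fintype L] (N : LNet L m) (K : Fin m → L → Bool) : ℕ :=
  ∑ t, (univ.filter (fun a => K t a = true ∧ N.act t a = true)).card

/-- Number of comparators. -/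
def LNet.nact [Fintype L] (N : LNet L m) : ℕ :=
  ∑ t, (univ.filter (fun a => N.act t a = true ∧ N.role t a = true)).card

/-- Marks: `h (r, t, a)` says that the line `a` carries the bit `r` after `t` layers. -/
abbrev HB (L : Type) (m : ℕ) : Type := Bool × Fin (m + 1) × L

/-- The marks are sound, and complete up to few cuts. -/
structure Marks [Fintype L] (N : LNet L m) (s : L → Bool) (q : ℕ) (h : HB L m → Bool) :
    Prop where
  sound : ∀ r t a, h (r, t, a) = true → N.val s t a = r
  cuts : ∃ K : Fin m → L → Bool, q ^ 2 * N.ncut K ≤ 16 * N.nact ∧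
    ∀ (r : Bool) (t : Fin (m + 1)) (a : L), N.run K r s t a = !r → h (!r, t, a) = true

/-- Marks of layered networks in depth `q` up to logarithms. -/
def LayerEval : Prop :=
  ∃ c : ℕ, ∀ (L : Type) [Fintype L] [DecidableEq L] (m q l : ℕ), 1 ≤ l → 1 ≤ q → q ≤ 2 ^ l →
    (Fintype.card L + 1) * (m + 1) ≤ 2 ^ l →
    ∃ f : (LB L m → Bool) → HB L m → Bool, Cp c l q f ∧
      ∀ (N : LNet L m) (s : L → Bool), N.Valid → Marks N s q (f (N.enc s))

/-- Interface of the random cuts (helper88): marks for comparator circuits with arbitrary
wiring; `act` are the active comparators. -/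
def SplusAct : Prop :=
  ∃ c : ℕ, ∀ n m q l : ℕ, 1 ≤ l → 1 ≤ q → q ≤ 2 ^ l → n + 4 * m + 1 ≤ 2 ^ l →
    ∃ f : (LBit n m ⊕ Fin m → Bool) → Bool × Arc n m → Bool, Cp c l q f ∧
      ∀ (C : CompCircuit n m) (x : Fin n → Bool) (act : Fin m → Bool),
        (∀ v, C.IsVal x v → ∀ r a, f (Sum.elim (lenc C x) act) (r, a) = true → v a = r) ∧
        ∃ K : Fin m × Bool → Bool,
          q ^ 2 * (univ.filter (fun p => K p = true ∧ act p.1 = true)).card ≤
            16 * (univ.filter (fun g => act g = true)).card ∧
          ∀ (r : Bool) (w : Arc n m → Bool), IsCut C K r x w →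
            ∀ a, w a = !r → f (Sum.elim (lenc C x) act) (!r, a) = true

end Pool.Agent.LibCQ62
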