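import Pool.Agent.LibCQ62.Know
import Pool.Agent.LibCQ62.SPot

/-! Row B: the network as a layered network, knowledge at the start, evaluation at the end. -/

namespace Pool.Agent.LibCQ62

open Pool.Agent.LibCC Pool.Agent.LibCCQ Finset

variable {ι : Type} [DecidableEq ι] {m : ℕ}

theorem kNet_valid (N : Net ι m) (S : Know ι m)
    (hS : ∀ t, S.cm t = true → (N t).1 ≠ (N t).2) : (kNet N S).Valid := by
  refine ⟨?_, ?_, ?_, ?_⟩
  · intro t a
    simp [kNet]
  · intro t a
    simp only [kNet, tch]
    by_cases h1 : a = (N t).1
    · subst h1; simp
    · by_cases h2 : a = (N t).2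
      · subst h2; simp
      · rw [Equiv.swap_apply_of_ne_of_ne h1 h2]
  · intro t a
    rfl
  · intro t a h
    simp only [kNet, tch, Bool.and_eq_true, Bool.or_eq_true, decide_eq_true_eq] at h ⊢
    have hne := hS t h.1
    rcases h.2 with h1 | h2
    · subst h1; simp [hne]
    · subst h2; simp [hne]

theorem kNet_val {N : Net ι m} {S : Know ι m} {w : ι → Bool} (hS : S.Sound N w) (t : ℕ) (a : ι) :
    (kNet N S).val w t a = st N w t a := by
  induction t generalizing a with
  | zero => rfl
  | succ t ih =>
    by_cases ht : t < m
    · have e1 : (kNet N S).val w (t + 1) a =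
          (kNet N S).pre (fun _ => false) false ⟨t, ht⟩ ((kNet N S).val w t) a := by
        simp [LNet.val, LNet.run, ht, kNet]
      have e2 : st N w (t + 1) a =
          stepW (fun _ => false) false (N ⟨t, ht⟩) (st N w t) a := by
        simp [st, cst, ht]
      rw [e1, e2]
      have e3 : (kNet N S).val w t = st N w t := funext ih
      rw [e3]
      have hn := hS.ne ⟨t, ht⟩
      have hnop := hS.nop ⟨t, ht⟩
      have hswp := hS.swp ⟨t, ht⟩
      simp only [LNet.pre, kNet, tch, stepW, Bool.false_eq_true, if_false, comb]
      generalize hN : N ⟨t, ht⟩ = p at hn hnop hswp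
      obtain ⟨i, j⟩ := p
      simp only at hn hnop hswp ⊢
      generalize st N w t = v at hnop hswp ⊢
      cases hc : S.cm ⟨t, ht⟩ with
      | true =>
        have hij : i ≠ j := hn hc
        simp only [hij, if_false, Bool.true_and, Bool.not_true, Bool.false_and]
        by_cases hj : a = j
        · subst hj
          simp [Bool.or_comm]
        · by_cases hi : a = i
          · subst hi
            simp [hj]
          · simp [hi, hj]
      | false =>
        simp only [Bool.false_and, Bool.not_false, Bool.true_and, Bool.false_eq_true, if_false]
        by_cases hij : i = j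
        · subst hij
          simp
        · simp only [hij, if_false]
          cases hs : S.sw ⟨t, ht⟩ with
          | true =>
            have h1 := hswp hc hs
            simp only [if_true]
            by_cases hj : a = j
            · subst hj
              simp only [Equiv.swap_apply_right, if_true]
              revert h1; cases v i <;> cases v a <;> simp
            · by_cases hi : a = i
              · subst hi
                simp only [Equiv.swap_apply_left, hj, if_true, if_false]
                revert h1; cases v a <;> cases v j <;> simp
              · rw [Equiv.swap_apply_of_ne_of_ne hi hj]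
                simp [hi, hj]
          | false =>
            have h1 := hnop hc hs
            simp only [Bool.false_eq_true, if_false]
            by_cases hj : a = j
            · subst hj
              simp only [if_true]
              revert h1; cases v i <;> cases v a <;> simp
            · by_cases hi : a = i
              · subst hi
                simp only [hj, if_true, if_false]
                revert h1; cases v a <;> cases v j <;> simp
              · simp [hi, hj]
    · have e1 : (kNet N S).val w (t + 1) a = (kNet N S).val w t a := by
        simp [LNet.val, LNet.run, ht]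
      have e2 : st N w (t + 1) a = st N w t a := by
        simp [st, cst, ht]
      rw [e1, e2, ih]

theorem know0_sound (N : Net ι m) (w : ι → Bool) (h : HB ι m → Bool)
    (hh : ∀ r t a, h (r, t, a) = true → st N w t a = r) : (know0 N h).Sound N w := by
  refine ⟨?_, ?_, ?_, ?_, ?_⟩
  · intro t ht
    simp only [know0, Bool.and_eq_true, Bool.not_eq_true', decide_eq_false_iff_not] at ht
    exact ht.1
  · intro t ht
    simp only [know0, Bool.and_eq_true, Bool.not_eq_true', Bool.or_eq_false_iff] at ht
    simp only [Know.um, know0, Bool.and_eq_true, Bool.not_eq_true']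
    tauto
  · intro t hc hs
    simp only [know0, Bool.and_eq_false_iff, Bool.not_eq_false', decide_eq_true_eq,
      Bool.or_eq_true] at hc hs
    rcases hs with hs | hs | hs
    · rw [hs]
    · have := hh _ _ _ hs
      simp only [Fin.val_castSucc] at this
      rw [this]
      exact Bool.false_le _
    · have := hh _ _ _ hs
      simp only [Fin.val_castSucc] at this
      rw [this]
      exact Bool.le_true _
  · intro t hc hs
    simp only [know0, Bool.and_eq_false_iff, Bool.and_eq_true, Bool.not_eq_false',
      Bool.not_eq_true', decide_eq_true_eq, decide_eq_false_iff_not, Bool.or_eq_true,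
      Bool.or_eq_false_iff] at hc hs
    have key : h (true, t.castSucc, (N t).1) = true ∨ h (false, t.castSucc, (N t).2) = true := by
      rcases hc with hc | ((hc | hc) | hc) | hc
      · exact absurd hc hs.1
      · rw [hs.2.1] at hc; cases hc
      · exact Or.inl hc
      · exact Or.inr hc
      · rw [hs.2.2] at hc; cases hc
    rcases key with hs | hs
    · have := hh _ _ _ hs
      simp only [Fin.val_castSucc] at this
      rw [this]
      exact Bool.le_true _
    · have := hh _ _ _ hs
      simp only [Fin.val_castSucc] at this
      rw [this]
      exact Bool.false_le _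
  · intro r t a hr
    exact hh r t a hr

theorem know0_none_few [Fintype ι] (N : Net ι m) :
    (know0 N (fun _ => false)).Few (Fintype.card ι) := by
  intro t
  exact card_le_univ _

theorem kNet_nact [Fintype ι] (N : Net ι m) (S : Know ι m) : (kNet N S).nact ≤ S.nc := by
  unfold LNet.nact Know.nc
  rw [card_filter]
  apply sum_le_sum
  intro t _
  cases hc : S.cm t with
  | true =>
    simp only [if_true]
    calc (univ.filter (fun a => (kNet N S).act t a = true ∧ (kNet N S).role t a = true)).card
        ≤ ({(N t).2} : Finset ι).card := by
          apply card_le_card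
          intro a ha
          simp only [mem_filter, kNet, decide_eq_true_eq] at ha
          simp [ha.2.2]
      _ = 1 := card_singleton _
  | false =>
    simp only [Bool.false_eq_true, if_false, Nat.le_zero, card_eq_zero]
    apply filter_eq_empty_iff.2
    intro a _
    simp [kNet, hc]

theorem know0_ne (N : Net ι m) (h : HB ι m → Bool) (t : Fin m)
    (ht : (know0 N h).cm t = true) : (N t).1 ≠ (N t).2 := by
  simp only [know0, Bool.and_eq_true, Bool.not_eq_true', decide_eq_false_iff_not] at ht
  exact ht.1

/-- After stage 0 few lines are unmarked. -/
theorem know0_few [Fintype ι] {N : Net ι m} {w : ι → Bool} {q k : ℕ} (hq : 1 ≤ q)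
    {h : HB ι m → Bool} (hM : Marks (kNet N (know0 N (fun _ => false))) w q h)
    (hk : 16 * m ≤ k * q ^ 2) : (know0 N h).Few k := by
  obtain ⟨K, hK, hr⟩ := hM.cuts
  intro t
  have h1 : (kNet N (know0 N (fun _ => false))).nact ≤ m :=
    (kNet_nact _ _).trans ((card_le_univ _).trans (by simp))
  have h2 : q ^ 2 * (kNet N (know0 N (fun _ => false))).ncut K ≤ q ^ 2 * k := by
    calc _ ≤ 16 * (kNet N (know0 N (fun _ => false))).nact := hK
      _ ≤ 16 * m := Nat.mul_le_mul_left _ h1
      _ ≤ k * q ^ 2 := hk
      _ = q ^ 2 * k := Nat.mul_comm _ _
  have h3 := Nat.le_of_mul_le_mul_left h2 (by positivity)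
  refine le_trans ?_ (le_trans (unsure (kNet_valid N _ (know0_ne N _)) (fun _ _ => rfl) K w t) h3)
  apply card_le_card
  intro a ha
  simp only [mem_filter, mem_univ, true_and, Know.um, know0, Bool.and_eq_true,
    Bool.not_eq_true'] at ha ⊢
  constructor
  · by_contra hc
    have hc' : (kNet N (know0 N (fun _ => false))).run K true w t a = !true :=
      eq_false_of_ne_true hc
    have := hr true t a hc'
    simp only [Bool.not_true] at this
    rw [ha.1] at this
    cases this
  · by_contra hc
    have hc' : (kNet N (know0 N (fun _ => false))).run K false w t a = !false :=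
      eq_true_of_ne_false hc
    have := hr false t a hc'
    simp only [Bool.not_false] at this
    rw [ha.2] at this
    cases this

theorem kNet_run_of_nc [Fintype ι] {N : Net ι m} {S : Know ι m} (h0 : S.nc = 0)
    (K : Fin m → ι → Bool) (r : Bool) (w : ι → Bool) (t : ℕ) (a : ι) :
    (kNet N S).run K r w t a = (kNet N S).val w t a := by
  have hc : ∀ t, S.cm t = false := by
    intro t
    have h1 := filter_eq_empty_iff.1 (card_eq_zero.1 h0) (mem_univ t)
    simpa using h1
  induction t generalizing a with
  | zero => rfl
  | succ t ih =>
    have e3 : (kNet N S).run K r w t = (kNet N S).val w t := funext ih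
    unfold LNet.val at e3 ⊢
    unfold LNet.run
    rw [e3]
    by_cases ht : t < m
    · simp [ht, LNet.pre, kNet, hc]
    · simp [ht]

/-- If no comparator is left the marks give the values. -/
theorem final_marks [Fintype ι] {N : Net ι m} {S : Know ι m} {w : ι → Bool}
    (hS : S.Sound N w) {q : ℕ} (h0 : S.nc = 0) {h : HB ι m → Bool}
    (hM : Marks (kNet N S) w q h) (t : Fin (m + 1)) (a : ι) : h (true, t, a) = st N w t a := by
  obtain ⟨K, _, hr⟩ := hM.cuts
  cases hs : st N w t a with
  | true =>
    have := hr false t a (by rw [kNet_run_of_nc h0, kNet_val hS, hs]; rfl)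
    simpa using this
  | false =>
    by_contra hc
    have h1 : h (true, t, a) = true := by simpa using hc
    have := hM.sound true t a h1
    rw [kNet_val hS, hs] at this
    cases this

end Pool.Agent.LibCQ62
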