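import Pool.Agent.LibCQ62.Know
import Pool.Agent.LibCQ62.SPot

/-! Row C: on unmarked lines the order network is sound and total. -/

namespace Pool.Agent.LibCQ62

open Pool.Agent.LibCC Pool.Agent.LibCCQ Finset

variable {ι : Type} [DecidableEq ι] {m : ℕ}

theorem st_succ' (N : Net ι m) (w : ι → Bool) (T : Fin m) (a : ι) :
    st N w (T + 1) a = stepW (fun _ => false) false (N T) (st N w T) a := by
  change (if h : (T : ℕ) < m then _ else _ : ι → Bool) a = _
  rw [dif_pos T.isLt]
  rfl

theorem stepW_and {r : Bool} {s : ι × ι} {w : ι → Bool} (h : s.1 ≠ s.2) :
    stepW (fun _ => false) r s w s.1 = (w s.1 && w s.2) := by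
  unfold stepW
  rw [if_neg h, if_neg h, if_pos rfl]
  rfl

theorem stepW_or {r : Bool} {s : ι × ι} {w : ι → Bool} (h : s.1 ≠ s.2) :
    stepW (fun _ => false) r s w s.2 = (w s.1 || w s.2) := by
  unfold stepW
  rw [if_neg h, if_pos rfl]
  rfl

theorem stepW_other {r : Bool} {s : ι × ι} {w : ι → Bool} {a : ι} (h1 : a ≠ s.1) (h2 : a ≠ s.2) :
    stepW (fun _ => false) r s w a = w a := by
  unfold stepW
  rw [if_neg h2, if_neg h1]
  simp

/-- A step that is not a comparator. -/
theorem st_prv {N : Net ι m} {S : Know ι m} {w : ι → Bool} (hS : S.Sound N w) {T : Fin m}
    (hc : S.cm T = false) (a : ι) : st N w (T + 1) a = st N w T (prv N S T a) := by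
  rw [st_succ']
  have hn := hS.nop T hc
  have hs := hS.swp T hc
  by_cases he : (N T).1 = (N T).2
  · have h1 : stepW (fun _ => false) false (N T) (st N w T) a = st N w T a := by
      unfold stepW
      rw [if_pos he]
    have h2 : prv N S T a = a := by
      unfold prv
      rw [he]
      simp
    rw [h1, h2]
  · rcases hsw : S.sw T with _ | _
    · have h2 : ∀ a, prv N S T a = a := by
        intro a
        unfold prv
        rw [hsw]
        simp
      rw [h2]
      have h3 := hn hsw
      by_cases h1 : a = (N T).1
      · rw [h1, stepW_and he]
        revert h3
        cases st N w T (N T).1 <;> cases st N w T (N T).2 <;> simp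
      · by_cases h4 : a = (N T).2
        · rw [h4, stepW_or he]
          revert h3
          cases st N w T (N T).1 <;> cases st N w T (N T).2 <;> simp
        · rw [stepW_other h1 h4]
    · have h2 : ∀ a, prv N S T a = Equiv.swap (N T).1 (N T).2 a := by
        intro a
        unfold prv
        rw [hsw, hc]
        simp
      rw [h2]
      have h3 := hs hsw
      by_cases h1 : a = (N T).1
      · rw [h1, stepW_and he, Equiv.swap_apply_left]
        revert h3
        cases st N w T (N T).1 <;> cases st N w T (N T).2 <;> simp
      · by_cases h4 : a = (N T).2
        · rw [h4, stepW_or he, Equiv.swap_apply_right]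
          revert h3
          cases st N w T (N T).1 <;> cases st N w T (N T).2 <;> simp
        · rw [stepW_other h1 h4, Equiv.swap_apply_of_ne_of_ne h1 h4]

theorem prv_inj {N : Net ι m} {S : Know ι m} {T : Fin m} {a b : ι}
    (h : prv N S T a = prv N S T b) : a = b := by
  unfold prv at h
  by_cases hc : (!S.cm T && S.sw T) = true
  · rw [if_pos hc, if_pos hc] at h
    exact (Equiv.swap (N T).1 (N T).2).injective h
  · rw [if_neg hc, if_neg hc] at h
    exact h

omit [DecidableEq ι] in
theorem um_iff {S : Know ι m} {t : Fin (m + 1)} {a : ι} :
    S.um t a = true ↔ S.mrk false t a = false ∧ S.mrk true t a = false := by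
  unfold Know.um
  cases S.mrk false t a <;> cases S.mrk true t a <;> simp

section step

variable {N : Net ι m} {S : Know ι m} {w : ι → Bool} {T : Fin m} {a b : ι}

/-- The entry after the step if one of the two lines comes from a marked line. -/
theorem val_marked (hab : a ≠ b) (ha : S.um T.succ a = true) (hb : S.um T.succ b = true)
    (hij : ¬ (S.cm T = true ∧ a = (N T).1 ∧ b = (N T).2))
    (hm : (pm N S T false a || pm N S T true a || pm N S T false b || pm N S T true b) = true) :
    (matNet N S).val (mat0 w) (T + 1) (a, b) = (pm N S T false a || pm N S T true b) := by
  have h1 := run_succ (matNet N S) (fun _ _ => false) false (mat0 w) T (a, b)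
  change (matNet N S).val (mat0 w) (T + 1) (a, b) = _ at h1
  rw [h1]
  have h2 : (matNet N S).cst T (a, b) = some (pm N S T false a || pm N S T true b) := by
    change (if (decide (a = b) || !S.um T.succ a || !S.um T.succ b) = true then some false
      else if (S.cm T && decide (a = (N T).1) && decide (b = (N T).2)) = true then some true
      else if (pm N S T false a || pm N S T true a || pm N S T false b || pm N S T true b) = true
      then some (pm N S T false a || pm N S T true b) else none) = _
    rw [if_neg (by simp [hab, ha, hb]), if_neg (by simpa [and_assoc] using hij), if_pos hm]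
  rw [h2]
  rfl

/-- The entry after the step otherwise. -/
theorem val_unmarked (hab : a ≠ b) (ha : S.um T.succ a = true) (hb : S.um T.succ b = true)
    (hij : ¬ (S.cm T = true ∧ a = (N T).1 ∧ b = (N T).2))
    (hm : (pm N S T false a || pm N S T true a || pm N S T false b || pm N S T true b) = false) :
    (matNet N S).val (mat0 w) (T + 1) (a, b) =
      (matNet N S).pre (fun _ => false) false T ((matNet N S).val (mat0 w) T) (a, b) := by
  have h1 := run_succ (matNet N S) (fun _ _ => false) false (mat0 w) T (a, b)
  change (matNet N S).val (mat0 w) (T + 1) (a, b) = _ at h1
  rw [h1]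
  have h2 : (matNet N S).cst T (a, b) = none := by
    change (if (decide (a = b) || !S.um T.succ a || !S.um T.succ b) = true then some false
      else if (S.cm T && decide (a = (N T).1) && decide (b = (N T).2)) = true then some true
      else if (pm N S T false a || pm N S T true a || pm N S T false b || pm N S T true b) = true
      then some (pm N S T false a || pm N S T true b) else none) = _
    rw [if_neg (by simp [hab, ha, hb]), if_neg (by simpa [and_assoc] using hij),
      if_neg (by rw [hm]; simp)]
  rw [h2]
  rfl

/-- The entry of the two lines of a comparator. -/
theorem val_new (hc : S.cm T = true) (hne : (N T).1 ≠ (N T).2)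
    (ha : S.um T.succ (N T).1 = true) (hb : S.um T.succ (N T).2 = true) :
    (matNet N S).val (mat0 w) (T + 1) ((N T).1, (N T).2) = true := by
  have h1 := run_succ (matNet N S) (fun _ _ => false) false (mat0 w) T ((N T).1, (N T).2)
  change (matNet N S).val (mat0 w) (T + 1) ((N T).1, (N T).2) = _ at h1
  rw [h1]
  have h2 : (matNet N S).cst T ((N T).1, (N T).2) = some true := by
    change (if (decide ((N T).1 = (N T).2) || !S.um T.succ (N T).1 || !S.um T.succ (N T).2) = true
      then some false
      else if (S.cm T && decide ((N T).1 = (N T).1) && decide ((N T).2 = (N T).2)) = true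
      then some true
      else if (pm N S T false (N T).1 || pm N S T true (N T).1 || pm N S T false (N T).2 ||
        pm N S T true (N T).2) = true
      then some (pm N S T false (N T).1 || pm N S T true (N T).2) else none) = _
    rw [if_neg (by simp [hne, ha, hb]), if_pos (by simp [hc])]
  rw [h2]
  rfl

theorem pre_act {v : ι × ι → Bool} (hc : S.cm T = true) (hab : a ≠ b)
    (ht : (tch N T a || tch N T b) = true) (ha : S.um T.castSucc a = true)
    (hb : S.um T.castSucc b = true) :
    (matNet N S).pre (fun _ => false) false T v (a, b) =
      comb (decide (a = (N T).1) || decide (b = (N T).2)) (v (a, b))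
        (v (Equiv.swap (N T).1 (N T).2 a, Equiv.swap (N T).1 (N T).2 b)) := by
  have h1 : (matNet N S).act T (a, b) = true := by
    change (S.cm T && !decide (a = b) && (tch N T a || tch N T b) && S.um T.castSucc a &&
      S.um T.castSucc b) = true
    rw [hc, ht, ha, hb]
    simp [hab]
  unfold LNet.pre
  rw [if_pos h1]
  rfl

theorem pre_inact {v : ι × ι → Bool} (h : S.cm T = false ∨ (tch N T a || tch N T b) = false) :
    (matNet N S).pre (fun _ => false) false T v (a, b) = v (prv N S T a, prv N S T b) := by
  have h1 : (matNet N S).act T (a, b) = false := by
    change (S.cm T && !decide (a = b) && (tch N T a || tch N T b) && S.um T.castSucc a &&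
      S.um T.castSucc b) = false
    rcases h with h | h <;> rw [h] <;> simp
  unfold LNet.pre
  rw [if_neg (by rw [h1]; simp)]
  change (if (!S.cm T && S.sw T) = true then _ else _) = _
  unfold prv
  by_cases h2 : (!S.cm T && S.sw T) = true
  · rw [if_pos h2, if_pos h2, if_pos h2]
    rfl
  · rw [if_neg h2, if_neg h2, if_neg h2]

end step

theorem mat_val_nat {N : Net ι m} {S : Know ι m} {w : ι → Bool} (hS : S.Sound N w) (t : ℕ) :
    ∀ (ht : t < m + 1) (a b : ι) (_ : a ≠ b) (_ : S.um ⟨t, ht⟩ a = true)
      (_ : S.um ⟨t, ht⟩ b = true),
    ((matNet N S).val (mat0 w) t (a, b) = true → st N w t a ≤ st N w t b) ∧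
      ((matNet N S).val (mat0 w) t (a, b) = true ∨
        (matNet N S).val (mat0 w) t (b, a) = true) := by
  induction t with
  | zero =>
    intro ht a b _ _ _
    change ((!w a || w b) = true → w a ≤ w b) ∧ ((!w a || w b) = true ∨ (!w b || w a) = true)
    cases w a <;> cases w b <;> simp
  | succ t ih =>
    intro ht a b hab ha hb
    let T : Fin m := ⟨t, by omega⟩
    have ha' : S.um T.succ a = true := ha
    have hb' : S.um T.succ b = true := hb
    set V := (matNet N S).val (mat0 w) t with hV
    have IH : ∀ a b, a ≠ b → S.um T.castSucc a = true → S.um T.castSucc b = true →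
        (V (a, b) = true → st N w T a ≤ st N w T b) ∧ (V (a, b) = true ∨ V (b, a) = true) :=
      fun a b hab ha hb => ih (by omega) a b hab ha hb
    change ((matNet N S).val (mat0 w) (T + 1) (a, b) = true →
      st N w (T + 1) a ≤ st N w (T + 1) b) ∧
      ((matNet N S).val (mat0 w) (T + 1) (a, b) = true ∨
        (matNet N S).val (mat0 w) (T + 1) (b, a) = true)
    -- the lines keep their bits up to the exchange
    by_cases hun : S.cm T = false ∨ (tch N T a || tch N T b) = false
    · have hst : ∀ c, c = a ∨ c = b → st N w (T + 1) c = st N w T (prv N S T c) := by
        intro c hc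
        rcases hun with h | h
        · exact st_prv hS h c
        · rcases hcm : S.cm T with _ | _
          · exact st_prv hS hcm c
          · have h1 : tch N T c = false := by
              rw [Bool.or_eq_false_iff] at h
              rcases hc with rfl | rfl
              · exact h.1
              · exact h.2
            unfold tch at h1
            rw [Bool.or_eq_false_iff, decide_eq_false_iff_not, decide_eq_false_iff_not] at h1
            have h2 : prv N S T c = c := by
              unfold prv
              rw [hcm]
              simp
            rw [st_succ', stepW_other h1.1 h1.2, h2]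
      have hpm : ∀ r c, c = a ∨ c = b → pm N S T r c = S.mrk r T.castSucc (prv N S T c) := by
        intro r c hc
        unfold pm
        rcases hun with h | h
        · rw [h]
          simp
        · have h1 : tch N T c = false := by
            rw [Bool.or_eq_false_iff] at h
            rcases hc with rfl | rfl
            · exact h.1
            · exact h.2
          rw [h1]
          simp
      have hij : ∀ x y, (x = a ∧ y = b) ∨ (x = b ∧ y = a) →
          ¬ (S.cm T = true ∧ x = (N T).1 ∧ y = (N T).2) := by
        rintro x y hxy ⟨h1, h2, h3⟩
        rcases hun with h | h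
        · rw [h] at h1
          exact absurd h1 (by simp)
        · unfold tch at h
          simp only [Bool.or_eq_false_iff, decide_eq_false_iff_not] at h
          rcases hxy with ⟨rfl, rfl⟩ | ⟨rfl, rfl⟩
          · exact h.1.1 h2
          · exact h.2.1 h2
      have hun' : S.cm T = false ∨ (tch N T b || tch N T a) = false := by
        rw [Bool.or_comm]
        exact hun
      rw [hst a (Or.inl rfl), hst b (Or.inr rfl)]
      rcases hm : (pm N S T false a || pm N S T true a || pm N S T false b || pm N S T true b)
      · -- unmarked
        have hm' : (pm N S T false b || pm N S T true b || pm N S T false a || pm N S T true a) =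
            false := by
          revert hm
          cases pm N S T false a <;> cases pm N S T true a <;> cases pm N S T false b <;>
            cases pm N S T true b <;> simp
        rw [val_unmarked hab ha' hb' (hij a b (Or.inl ⟨rfl, rfl⟩)) hm,
          val_unmarked hab.symm hb' ha' (hij b a (Or.inr ⟨rfl, rfl⟩)) hm',
          pre_inact hun, pre_inact hun']
        rw [hpm _ a (Or.inl rfl), hpm _ a (Or.inl rfl), hpm _ b (Or.inr rfl),
          hpm _ b (Or.inr rfl)] at hm
        simp only [Bool.or_eq_false_iff] at hm
        exact IH _ _ (fun h => hab (prv_inj h)) (um_iff.2 ⟨hm.1.1.1, hm.1.1.2⟩)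
          (um_iff.2 ⟨hm.1.2, hm.2⟩)
      · have hm' : (pm N S T false b || pm N S T true b || pm N S T false a || pm N S T true a) =
            true := by
          revert hm
          cases pm N S T false a <;> cases pm N S T true a <;> cases pm N S T false b <;>
            cases pm N S T true b <;> simp
        rw [val_marked hab ha' hb' (hij a b (Or.inl ⟨rfl, rfl⟩)) hm,
          val_marked hab.symm hb' ha' (hij b a (Or.inr ⟨rfl, rfl⟩)) hm']
        refine ⟨fun h => ?_, ?_⟩
        · rw [hpm _ a (Or.inl rfl), hpm _ b (Or.inr rfl), Bool.or_eq_true] at h
          rcases h with h | h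
          · have := hS.mrk _ _ _ h
            change st N w T (prv N S T a) = false at this
            rw [this]
            exact Bool.false_le _
          · have := hS.mrk _ _ _ h
            change st N w T (prv N S T b) = true at this
            rw [this]
            exact Bool.le_true _
        · revert hm
          cases pm N S T false a <;> cases pm N S T true a <;> cases pm N S T false b <;>
            cases pm N S T true b <;> simp
    · rw [not_or, Bool.not_eq_false, Bool.not_eq_false] at hun
      obtain ⟨hc, htch⟩ := hun
      have hne := hS.ne T hc
      obtain ⟨hui, huj⟩ := hS.um T hc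
      have hprv : ∀ c, prv N S T c = c := by
        intro c
        unfold prv
        rw [hc]
        simp
      have hpt : ∀ r c, tch N T c = true → pm N S T r c = false := by
        intro r c h
        unfold pm
        rw [hc, h]
        simp
      have hpo : ∀ r c, tch N T c = false → pm N S T r c = S.mrk r T.castSucc c := by
        intro r c h
        unfold pm
        rw [hc, h, hprv]
        simp
      have t1 : tch N T (N T).1 = true := by simp [tch]
      have t2 : tch N T (N T).2 = true := by simp [tch]
      have tno : ∀ c, c ≠ (N T).1 → c ≠ (N T).2 → tch N T c = false := by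
        intro c h1 h2
        simp [tch, h1, h2]
      have s1 : st N w (T + 1) (N T).1 = (st N w T (N T).1 && st N w T (N T).2) := by
        rw [st_succ', stepW_and hne]
      have s2 : st N w (T + 1) (N T).2 = (st N w T (N T).1 || st N w T (N T).2) := by
        rw [st_succ', stepW_or hne]
      have so : ∀ c, c ≠ (N T).1 → c ≠ (N T).2 → st N w (T + 1) c = st N w T c := by
        intro c h1 h2
        rw [st_succ', stepW_other h1 h2]
      -- the four entries of a touched line and another line
      have key : ∀ c, c ≠ (N T).1 → c ≠ (N T).2 → S.um T.succ c = true →
          ∀ d, (d = (N T).1 ∨ d = (N T).2) → S.um T.succ d = true →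
          (((matNet N S).val (mat0 w) (T + 1) (d, c) = true →
            st N w (T + 1) d ≤ st N w (T + 1) c) ∧
          ((matNet N S).val (mat0 w) (T + 1) (c, d) = true →
            st N w (T + 1) c ≤ st N w (T + 1) d)) ∧
          ((matNet N S).val (mat0 w) (T + 1) (d, c) = true ∨
            (matNet N S).val (mat0 w) (T + 1) (c, d) = true) := by
        intro c hc1 hc2 huc d hd hud
        have htd : tch N T d = true := by rcases hd with rfl | rfl <;> assumption
        have htc := tno c hc1 hc2
        have hcd : c ≠ d := by rcases hd with rfl | rfl <;> assumption
        have hij1 : ¬ (S.cm T = true ∧ d = (N T).1 ∧ c = (N T).2) := fun h => hc2 h.2.2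
        have hij2 : ¬ (S.cm T = true ∧ c = (N T).1 ∧ d = (N T).2) := fun h => hc1 h.2.1
        rcases hm : (pm N S T false c || pm N S T true c)
        · have hm1 : (pm N S T false d || pm N S T true d || pm N S T false c ||
              pm N S T true c) = false := by
            rw [hpt _ d htd, hpt _ d htd, Bool.false_or, Bool.false_or]
            exact hm
          have hm2 : (pm N S T false c || pm N S T true c || pm N S T false d ||
              pm N S T true d) = false := by
            rw [hpt _ d htd, hpt _ d htd, Bool.or_false, Bool.or_false]
            exact hm
          rw [hpo _ c htc, hpo _ c htc, Bool.or_eq_false_iff] at hm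
          have huc' : S.um T.castSucc c = true := um_iff.2 hm
          have hud' : S.um T.castSucc d = true := by rcases hd with rfl | rfl <;> assumption
          have htt1 : (tch N T d || tch N T c) = true := by rw [htd]; simp
          have htt2 : (tch N T c || tch N T d) = true := by rw [htd]; simp
          have sc : Equiv.swap (N T).1 (N T).2 c = c := Equiv.swap_apply_of_ne_of_ne hc1 hc2
          have I1 := IH (N T).1 c (Ne.symm hc1) hui huc'
          have I1' := IH c (N T).1 hc1 huc' hui
          have I2 := IH (N T).2 c (Ne.symm hc2) huj huc'
          have I2' := IH c (N T).2 hc2 huc' huj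
          rw [val_unmarked hcd.symm hud huc hij1 hm1, val_unmarked hcd huc hud hij2 hm2,
            pre_act hc hcd.symm htt1 hud' huc', pre_act hc hcd htt2 huc' hud', sc, so c hc1 hc2]
          rcases hd with rfl | rfl
          · rw [Equiv.swap_apply_left, s1]
            have e1 : (decide ((N T).1 = (N T).1) || decide (c = (N T).2)) = true := by simp
            have e2 : (decide (c = (N T).1) || decide ((N T).1 = (N T).2)) = false := by
              simp [hc1, hne]
            rw [e1, e2]
            change ((((V ((N T).1, c) || V ((N T).2, c)) = true →
              (st N w T (N T).1 && st N w T (N T).2) ≤ st N w T c) ∧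
              ((V (c, (N T).1) && V (c, (N T).2)) = true →
              st N w T c ≤ (st N w T (N T).1 && st N w T (N T).2))) ∧
              ((V ((N T).1, c) || V ((N T).2, c)) = true ∨
              (V (c, (N T).1) && V (c, (N T).2)) = true))
            revert I1 I1' I2 I2'
            generalize V ((N T).1, c) = x1
            generalize V ((N T).2, c) = x2
            generalize V (c, (N T).1) = x3
            generalize V (c, (N T).2) = x4
            generalize st N w T (N T).1 = y1
            generalize st N w T (N T).2 = y2
            generalize st N w T c = y3
            cases x1 <;> cases x2 <;> cases x3 <;> cases x4 <;> cases y1 <;> cases y2 <;>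
              cases y3 <;> simp
          · rw [Equiv.swap_apply_right, s2]
            have e1 : (decide ((N T).2 = (N T).1) || decide (c = (N T).2)) = false := by
              simp [hc2, hne.symm]
            have e2 : (decide (c = (N T).1) || decide ((N T).2 = (N T).2)) = true := by simp
            rw [e1, e2]
            change ((((V ((N T).2, c) && V ((N T).1, c)) = true →
              (st N w T (N T).1 || st N w T (N T).2) ≤ st N w T c) ∧
              ((V (c, (N T).2) || V (c, (N T).1)) = true →
              st N w T c ≤ (st N w T (N T).1 || st N w T (N T).2))) ∧
              ((V ((N T).2, c) && V ((N T).1, c)) = true ∨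
              (V (c, (N T).2) || V (c, (N T).1)) = true))
            revert I1 I1' I2 I2'
            generalize V ((N T).1, c) = x1
            generalize V ((N T).2, c) = x2
            generalize V (c, (N T).1) = x3
            generalize V (c, (N T).2) = x4
            generalize st N w T (N T).1 = y1
            generalize st N w T (N T).2 = y2
            generalize st N w T c = y3
            cases x1 <;> cases x2 <;> cases x3 <;> cases x4 <;> cases y1 <;> cases y2 <;>
              cases y3 <;> simp
        · have hm1 : (pm N S T false d || pm N S T true d || pm N S T false c ||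
              pm N S T true c) = true := by
            rw [hpt _ d htd, hpt _ d htd, Bool.false_or, Bool.false_or]
            exact hm
          have hm2 : (pm N S T false c || pm N S T true c || pm N S T false d ||
              pm N S T true d) = true := by
            rw [hpt _ d htd, hpt _ d htd, Bool.or_false, Bool.or_false]
            exact hm
          rw [val_marked hcd.symm hud huc hij1 hm1, val_marked hcd huc hud hij2 hm2,
            hpt _ d htd, hpt _ d htd, Bool.false_or, Bool.or_false, so c hc1 hc2]
          refine ⟨⟨fun h => ?_, fun h => ?_⟩, ?_⟩
          · rw [hpo _ c htc] at h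
            have := hS.mrk _ _ _ h
            change st N w T c = true at this
            rw [this]
            exact Bool.le_true _
          · rw [hpo _ c htc] at h
            have := hS.mrk _ _ _ h
            change st N w T c = false at this
            rw [this]
            exact Bool.false_le _
          · rw [Bool.or_eq_true] at hm
            exact hm.symm
      have hij' : ∀ c, c = (N T).1 ∨ c = (N T).2 ∨ (c ≠ (N T).1 ∧ c ≠ (N T).2) := by
        intro c
        by_cases h1 : c = (N T).1
        · exact Or.inl h1
        · by_cases h2 : c = (N T).2
          · exact Or.inr (Or.inl h2)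
          · exact Or.inr (Or.inr ⟨h1, h2⟩)
      have hpair : S.um T.succ (N T).1 = true → S.um T.succ (N T).2 = true →
          ((matNet N S).val (mat0 w) (T + 1) ((N T).2, (N T).1) = true →
            st N w (T + 1) (N T).2 ≤ st N w (T + 1) (N T).1) := by
        intro h1 h2
        have hm2 : (pm N S T false (N T).2 || pm N S T true (N T).2 || pm N S T false (N T).1 ||
              pm N S T true (N T).1) = false := by
          rw [hpt _ _ t1, hpt _ _ t1, hpt _ _ t2, hpt _ _ t2]
          rfl
        rw [val_unmarked hne.symm h2 h1 (fun h => hne h.2.2) hm2,
          pre_act hc hne.symm (by rw [t2]; rfl) huj hui, Equiv.swap_apply_left,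
          Equiv.swap_apply_right, s1, s2]
        have e1 : (decide ((N T).2 = (N T).1) || decide ((N T).1 = (N T).2)) = false := by
          simp [hne, hne.symm]
        rw [e1]
        change (V ((N T).2, (N T).1) && V ((N T).1, (N T).2)) = true → _
        have I1 := IH _ _ hne hui huj
        have I2 := IH _ _ hne.symm huj hui
        revert I1 I2
        generalize V ((N T).2, (N T).1) = x1
        generalize V ((N T).1, (N T).2) = x2
        generalize st N w T (N T).1 = y1
        generalize st N w T (N T).2 = y2
        revert x1 x2 y1 y2
        decide
      rcases hij' a with h1 | h1 | h1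
      · rcases hij' b with h2 | h2 | h2
        · exact absurd (h1.trans h2.symm) hab
        · subst h1 h2
          have h3 := val_new (w := w) hc hne ha' hb'
          refine ⟨fun _ => ?_, Or.inl h3⟩
          rw [s1, s2]
          generalize st N w T (N T).1 = y1
          generalize st N w T (N T).2 = y2
          revert y1 y2
          decide
        · have h3 := key b h2.1 h2.2 hb' a (Or.inl h1) ha'
          exact ⟨h3.1.1, h3.2⟩
      · rcases hij' b with h2 | h2 | h2
        · subst h1 h2
          exact ⟨hpair hb' ha', Or.inr (val_new (w := w) hc hne hb' ha')⟩
        · exact absurd (h1.trans h2.symm) hab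
        · have h3 := key b h2.1 h2.2 hb' a (Or.inr h1) ha'
          exact ⟨h3.1.1, h3.2⟩
      · rcases hij' b with h2 | h2 | h2
        · have h3 := key a h1.1 h1.2 ha' b (Or.inl h2) hb'
          exact ⟨h3.1.2, h3.2.symm⟩
        · have h3 := key a h1.1 h1.2 ha' b (Or.inr h2) hb'
          exact ⟨h3.1.2, h3.2.symm⟩
        · rw [tno a h1.1 h1.2, tno b h2.1 h2.2] at htch
          exact absurd htch (by simp)

/-- On unmarked lines the order network is sound and total. -/
theorem mat_val {N : Net ι m} {S : Know ι m} {w : ι → Bool} (hS : S.Sound N w)
    (t : Fin (m + 1)) (a b : ι) (hab : a ≠ b) (ha : S.um t a = true) (hb : S.um t b = true) :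
    ((matNet N S).val (mat0 w) t (a, b) = true → st N w t a ≤ st N w t b) ∧
      ((matNet N S).val (mat0 w) t (a, b) = true ∨
        (matNet N S).val (mat0 w) t (b, a) = true) :=
  mat_val_nat hS t t.isLt a b hab ha hb

end Pool.Agent.LibCQ62
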