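import Pool.Agent.LibCQ62.TEncB

/-! Row E, first half: formulas for the bits of the layered network and of the knowledge at the
start. -/

namespace Pool.Agent.LibCQ62

open Pool.Agent.LibCC Pool.Agent.LibCCQ Finset

open EncB in
/-- The bits of `kNet`. -/
theorem fd_kNet (ι : Type) [Fintype ι] [DecidableEq ι] (m j : ℕ) (hj : Fintype.card ι ≤ 2 ^ j) :
    ∃ F : LB ι m → (FB ι m → Bool) → Bool, (∀ b, FD (4 * j + 40) (F b)) ∧
      ∀ (N : Net ι m) (w : ι → Bool) (S : Know ι m) b, F b (fenc N w S) = (kNet N S).enc w b := by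
  have _ := hj
  refine ⟨fun b => match b with
    | Sum.inl (t, a, b) => fX t a b
    | Sum.inr (Sum.inl (t, a, Fld.act)) => fun y => fCM t y && fT t a y
    | Sum.inr (Sum.inl (t, _, Fld.swp)) => fE t
    | Sum.inr (Sum.inl (t, a, Fld.rol)) => fL true t a
    | Sum.inr (Sum.inl (_, _, Fld.ck)) => fun _ => false
    | Sum.inr (Sum.inl (_, _, Fld.cv)) => fun _ => false
    | Sum.inr (Sum.inr a) => fun y => y (Sum.inl (Sum.inr a)), ?_, ?_⟩
  · rintro (⟨t, a, b⟩ | ⟨t, a, c⟩ | a)
    · exact (fd_X t a b).mono (by omega)
    · cases c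
      · exact ((fd_CM t).succ.and (fd_T t a)).mono (by omega)
      · exact (fd_E t).mono (by omega)
      · exact (fd_L true t a).mono (by omega)
      · exact FD.const _ _
      · exact FD.const _ _
    · exact FD.var _ _
  · rintro N w S (⟨t, a, b⟩ | ⟨t, a, c⟩ | a)
    · exact fX_eq N w S t a b
    · cases c
      · change (fCM t (fenc N w S) && fT t a (fenc N w S)) = (S.cm t && tch N t a)
        rw [fCM_eq, fT_eq]
      · exact fE_eq N w S t
      · exact fL_true N w S t a
      · rfl
      · rfl
    · rfl

open EncB in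
/-- The bits of the knowledge at the start. -/
theorem fd_know0 (ι : Type) [Fintype ι] [DecidableEq ι] (m j : ℕ) (hj : Fintype.card ι ≤ 2 ^ j) :
    ∃ F : KB ι m → (NBit ι m ⊕ HB ι m → Bool) → Bool, (∀ b, FD (4 * j + 40) (F b)) ∧
      ∀ (N : Net ι m) (w : ι → Bool) (h : HB ι m → Bool) b,
        F b (Sum.elim (enc N w) h) = kenc (know0 N h) b := by
  let fEq : Fin m → (NBit ι m ⊕ HB ι m → Bool) → Bool := fun t y =>
    decide (∃ b : ι, (y (Sum.inl (Sum.inl (t, false, b))) &&
      y (Sum.inl (Sum.inl (t, true, b)))) = true)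
  let fH : Bool → Bool → Fin m → (NBit ι m ⊕ HB ι m → Bool) → Bool := fun c r t y =>
    decide (∃ b : ι, (y (Sum.inl (Sum.inl (t, c, b))) &&
      y (Sum.inr (r, t.castSucc, b))) = true)
  have hEq : ∀ t, FD (0 + 1 + j) (fEq t) := fun t =>
    fd_pick hj (fun b => FD.var 0 _) (fun b => FD.var 0 _)
  have hH : ∀ c r t, FD (0 + 1 + j) (fH c r t) := fun c r t =>
    fd_pick hj (fun b => FD.var 0 _) (fun b => FD.var 0 _)
  have eEq : ∀ (N : Net ι m) (w : ι → Bool) (h : HB ι m → Bool) (t : Fin m),
      fEq t (Sum.elim (enc N w) h) = decide ((N t).1 = (N t).2) := by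
    intro N w h t
    have h1 := pick_eq (N t).1 (fun b => decide ((N t).2 = b))
    change decide (∃ b : ι, (decide ((N t).1 = b) && decide ((N t).2 = b)) = true) = _
    rw [h1]
    exact decide_eq_decide.2 eq_comm
  have eH : ∀ (N : Net ι m) (w : ι → Bool) (h : HB ι m → Bool) (r : Bool) (t : Fin m),
      fH false r t (Sum.elim (enc N w) h) = h (r, t.castSucc, (N t).1) ∧
      fH true r t (Sum.elim (enc N w) h) = h (r, t.castSucc, (N t).2) := by
    intro N w h r t
    exact ⟨pick_eq (N t).1 (fun b => h (r, t.castSucc, b)),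
      pick_eq (N t).2 (fun b => h (r, t.castSucc, b))⟩
  refine ⟨fun b => match b with
    | Sum.inl (t, false) => fun y => !fEq t y &&
        !(fH false false t y || fH false true t y || fH true false t y || fH true true t y)
    | Sum.inl (t, true) => fun y => !fEq t y && !(fH false false t y || fH true true t y)
    | Sum.inr b => fun y => y (Sum.inr b), ?_, ?_⟩
  · rintro (⟨t, b⟩ | b)
    · cases b
      · have h1 := (((hH false false t).or (hH false true t)).or ((hH true false t).succ)).or
          ((hH true true t).succ.succ)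
        have h2 := ((hEq t).neg.mono (show 0 + 1 + j + 1 ≤ 0 + 1 + j + 1 + 1 + 1 + 1 by omega)).and
          h1.neg
        exact h2.mono (by omega)
      · have h1 := (hH false false t).or (hH true true t)
        have h2 := ((hEq t).neg.succ).and h1.neg
        exact h2.mono (by omega)
    · exact FD.var _ _
  · rintro N w h (⟨t, b⟩ | b)
    · cases b
      · change (!fEq t _ && !(fH false false t _ || fH false true t _ || fH true false t _ ||
          fH true true t _)) = (know0 N h).cm t
        rw [eEq, (eH N w h false t).1, (eH N w h true t).1, (eH N w h false t).2,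
          (eH N w h true t).2]
        rfl
      · change (!fEq t _ && !(fH false false t _ || fH true true t _)) = (know0 N h).sw t
        rw [eEq, (eH N w h false t).1, (eH N w h true t).2]
        rfl
    · rfl

end Pool.Agent.LibCQ62
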