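import Pool.Agent.LibCQ62.Know

/-! Row C: the order network is valid; number of its comparators. -/

namespace Pool.Agent.LibCQ62

open Pool.Agent.LibCC Pool.Agent.LibCCQ Finset

variable {ι : Type} [DecidableEq ι] {m : ℕ}

theorem tch_swap (N : Net ι m) (t : Fin m) (a : ι) :
    tch N t (Equiv.swap (N t).1 (N t).2 a) = tch N t a := by
  simp only [tch]
  by_cases h1 : a = (N t).1
  · subst h1; simp
  · by_cases h2 : a = (N t).2
    · subst h2; simp
    · rw [Equiv.swap_apply_of_ne_of_ne h1 h2]

theorem um_swap {N : Net ι m} {S : Know ι m} {w : ι → Bool} (hS : S.Sound N w) (t : Fin m)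
    (hc : S.cm t = true) (a : ι) :
    S.um t.castSucc (Equiv.swap (N t).1 (N t).2 a) = S.um t.castSucc a := by
  obtain ⟨u1, u2⟩ := hS.um t hc
  by_cases h1 : a = (N t).1
  · rw [h1, Equiv.swap_apply_left, u1, u2]
  · by_cases h2 : a = (N t).2
    · rw [h2, Equiv.swap_apply_right, u1, u2]
    · rw [Equiv.swap_apply_of_ne_of_ne h1 h2]

theorem matNet_valid {N : Net ι m} {S : Know ι m} {w : ι → Bool} (hS : S.Sound N w) :
    (matNet N S).Valid := by
  refine ⟨?_, ?_, ?_, ?_⟩
  · intro t p
    simp [matNet]
  · intro t p
    simp only [matNet, tch_swap]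
    cases hc : S.cm t with
    | false => simp
    | true => simp only [um_swap hS t hc, EmbeddingLike.apply_eq_iff_eq]
  · intro t p
    rfl
  · intro t p h
    obtain ⟨a, b⟩ := p
    simp only [matNet, tch, Bool.and_eq_true, Bool.or_eq_true, decide_eq_true_eq,
      Bool.not_eq_true', decide_eq_false_iff_not] at h ⊢
    obtain ⟨⟨⟨⟨hc, hab⟩, ht⟩, -⟩, -⟩ := h
    have hne := hS.ne t hc
    have hne' := hne.symm
    by_cases a1 : a = (N t).1
    · subst a1
      have b1 : b ≠ (N t).1 := fun e => hab e.symm
      by_cases b2 : b = (N t).2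
      · subst b2; simp [hne, hne']
      · rw [Equiv.swap_apply_of_ne_of_ne b1 b2]; simp [hne, hne', b1, b2]
    · by_cases a2 : a = (N t).2
      · subst a2
        have b2 : b ≠ (N t).2 := fun e => hab e.symm
        by_cases b1 : b = (N t).1
        · subst b1; simp [hne, hne']
        · rw [Equiv.swap_apply_of_ne_of_ne b1 b2]; simp [hne, hne', b1, b2]
      · have hb : b = (N t).1 ∨ b = (N t).2 := by tauto
        rw [Equiv.swap_apply_of_ne_of_ne a1 a2]
        rcases hb with hb | hb
        · subst hb; simp [hne, hne', a1, a2]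
        · subst hb; simp [hne, hne', a1, a2]

theorem mat_nact [Fintype ι] {N : Net ι m} {S : Know ι m} {w : ι → Bool} (_hS : S.Sound N w)
    {k : ℕ} (hk : S.Few k) : (matNet N S).nact ≤ 2 * k * S.nc := by
  unfold LNet.nact Know.nc
  rw [card_filter, mul_sum]
  apply sum_le_sum
  intro t _
  cases hc : S.cm t with
  | true =>
    simp only [if_true, mul_one]
    have hsub : (univ.filter (fun p => (matNet N S).act t p = true ∧
        (matNet N S).role t p = true)) ⊆
        ((univ.filter (fun b => S.um t.castSucc b = true)).image (fun b => ((N t).1, b))) ∪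
        ((univ.filter (fun a => S.um t.castSucc a = true)).image (fun a => (a, (N t).2))) := by
      intro p hp
      obtain ⟨a, b⟩ := p
      simp only [mem_filter, mem_univ, true_and, matNet, Bool.and_eq_true, Bool.or_eq_true,
        decide_eq_true_eq] at hp
      obtain ⟨⟨⟨-, ha⟩, hb⟩, hr⟩ := hp
      rw [mem_union, mem_image, mem_image]
      rcases hr with hr | hr
      · left
        exact ⟨b, by simpa using hb, by rw [hr]⟩
      · right
        exact ⟨a, by simpa using ha, by rw [hr]⟩
    calc _ ≤ _ := card_le_card hsub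
      _ ≤ _ := card_union_le _ _
      _ ≤ k + k := Nat.add_le_add (card_image_le.trans (hk _)) (card_image_le.trans (hk _))
      _ = 2 * k := by ring
  | false =>
    simp only [Bool.false_eq_true, if_false, mul_zero, Nat.le_zero, card_eq_zero]
    apply filter_eq_empty_iff.2
    intro p _
    simp [matNet, hc]

end Pool.Agent.LibCQ62
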