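import Pool.Agent.LibCQ62.Layer
import Pool.Agent.LibCCQ.SplusAct

/-! The random cuts. -/

namespace Pool.Agent.LibCQ62

open Pool.Agent.LibCC Pool.Agent.LibCCQ Finset

theorem splusAct_holds : SplusAct := by
  obtain ⟨c, hc⟩ := LibCCQ.splusAct
  refine ⟨c, fun n m q l hl hq hql hN => ?_⟩
  obtain ⟨f, hf, hM⟩ := hc n m q l hl hq hql hN
  refine ⟨f, hf, fun C x act => ⟨(hM C x act).sound, ?_⟩⟩
  obtain ⟨K, hK1, hK2⟩ := (hM C x act).complete
  refine ⟨K, hK1, fun r w hw a ha => hK2 (!r) w ?_ a ha⟩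
  rwa [Bool.not_not]

end Pool.Agent.LibCQ62
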